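import Pool.Agent.Lib.MP_a6d962_lc.Cs.Comb

/-!
# New indices, unions, amalgamation

PROOF of `addIndex`.  Let `B'` be the new family.  For finite `a, e ⊆ W` and `f`, `Ent (insert j I) B' a f ↔
Ent I B a f`: `B'` agrees with `B` on `I` (as `j ∉ I`), and at `j` it is `B i0` with `i0 ∈ I`.  So an admissible pair for the
new system is admissible for the old one, and `cell (B' j) = cell (B i0)`.

PROOF of `iUnion`.  Define `B' i d = B n i d` for some `n` with `i ∈ I n`, `d ∈ W n` if there is one (say by choice);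
it does not depend on the choice by coherence (`I`, `W` monotone).  If `a, e ⊆ ⋃ n, W n` are finite and
admissible for `⋃ n, I n`, then for `f ∈ e` there is `i f ∈ ⋃ n, I n` witnessing that `Ent` fails.  Given
`i ∈ ⋃ n, I n` take `n` with `a, e ⊆ W n`, `i ∈ I n` and `i f ∈ I n` for all `f ∈ e`.  Then `Adm (I n) (B n) a e`
(use `Adm.congr`), so `cell (B n i) a e = cell (B' i) a e` is infinite.

PROOF of `amalg`.  `B'' i = B i` if `i ∈ I`, and `B'' i = B' i` otherwise.  For finite `a ⊆ W`, `f ∈ W`: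
`Ent (I ∪ I') B'' a f ↔ Ent I B a f ∧ Ent I' B' a f`, and by `hty` both are equivalent.  So an admissible pair for
the amalgam is admissible for both systems (this is where `hty` is used).
-/

namespace Pool.Agent.Lib.MP_a6d962_lc.Cs

variable {Λ Ω : Type*}

theorem UC.addIndex [DecidableEq Λ] {I : Set Λ} {W : Set Ω} {B : Λ → Ω → Set ℕ} (h : UC I W B)
    {i0 : Λ} (hi0 : i0 ∈ I) {j : Λ} (hj : j ∉ I) :
    UC (insert j I) W (fun k => if k = j then B i0 else B k) := by
  have hold : ∀ k ∈ I, (fun k => if k = j then B i0 else B k) k = B k := by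
    intro k hk
    beta_reduce
    rw [if_neg]
    rintro rfl
    exact hj hk
  have hnew : (fun k => if k = j then B i0 else B k) j = B i0 := by
    beta_reduce
    rw [if_pos rfl]
  intro a e ha he hadm i hi
  have hadm2 : Adm I B a e := by
    intro f hf hent
    apply hadm f hf
    intro k hk x hx
    rcases Set.mem_insert_iff.1 hk with hkj | hkI
    · subst hkj
      rw [hnew] at hx ⊢
      exact hent i0 hi0 x hx
    · rw [hold k hkI] at hx ⊢
      exact hent k hkI x hx
  rcases Set.mem_insert_iff.1 hi with hij | hiI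
  · subst hij
    rw [hnew]
    exact h a e ha he hadm2 i0 hi0
  · rw [hold i hiI]
    exact h a e ha he hadm2 i hiI

private theorem Basic3_unif {α : Type*} (P : ℕ → α → Prop)
    (hP : ∀ n m x, n ≤ m → P n x → P m x) (s : Finset α) (h : ∀ x ∈ s, ∃ n, P n x) :
    ∃ n, ∀ x ∈ s, P n x := by
  classical
  choose! g hg using h
  exact ⟨s.sup g, fun x hx => hP _ _ _ (Finset.le_sup hx) (hg x hx)⟩

theorem UC.iUnion {I : ℕ → Set Λ} {W : ℕ → Set Ω} {B : ℕ → Λ → Ω → Set ℕ} (hI : Monotone I)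
    (hW : Monotone W) (hB : ∀ n m, n ≤ m → ∀ i ∈ I n, ∀ d ∈ W n, B m i d = B n i d)
    (h : ∀ n, UC (I n) (W n) (B n)) :
    ∃ B' : Λ → Ω → Set ℕ, (∀ n, ∀ i ∈ I n, ∀ d ∈ W n, B' i d = B n i d) ∧
      UC (⋃ n, I n) (⋃ n, W n) B' := by
  classical
  have hval : ∀ n, ∀ i ∈ I n, ∀ d ∈ W n,
      (fun (i : Λ) (d : Ω) => if hx : ∃ n, i ∈ I n ∧ d ∈ W n then B (Nat.find hx) i d else ∅) i d =
        B n i d := by
    intro n i hi d hd
    have hx : ∃ n, i ∈ I n ∧ d ∈ W n := ⟨n, hi, hd⟩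
    beta_reduce
    rw [dif_pos hx]
    have h1 := Nat.find_spec hx
    have h2 : Nat.find hx ≤ n := Nat.find_min' hx ⟨hi, hd⟩
    exact (hB (Nat.find hx) n h2 i h1.1 d h1.2).symm
  refine ⟨fun (i : Λ) (d : Ω) => if hx : ∃ n, i ∈ I n ∧ d ∈ W n then B (Nat.find hx) i d else ∅,
    hval, ?_⟩
  generalize (fun (i : Λ) (d : Ω) => if hx : ∃ n, i ∈ I n ∧ d ∈ W n then B (Nat.find hx) i d else ∅) =
    B' at hval
  intro a e ha he hadm i hi
  obtain ⟨n1, h1⟩ := Basic3_unif (fun n d => d ∈ W n) (fun n m x hnm hx => hW hnm hx) a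
    (fun d hd => Set.mem_iUnion.1 (ha hd))
  obtain ⟨n2, h2⟩ := Basic3_unif (fun n d => d ∈ W n) (fun n m x hnm hx => hW hnm hx) e
    (fun d hd => Set.mem_iUnion.1 (he hd))
  obtain ⟨n3, h3⟩ := Basic3_unif (fun n f => ¬ Ent (I n) B' a f)
    (fun n m f hnm hx hent => hx (hent.anti (hI hnm))) e (by
      intro f hf
      by_contra hcon
      apply hadm f hf
      intro k hk x hx
      obtain ⟨n, hn⟩ := Set.mem_iUnion.1 hk
      by_contra hxf
      exact hcon ⟨n, fun hent => hxf (hent k hn x hx)⟩)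
  obtain ⟨n4, h4⟩ := Set.mem_iUnion.1 hi
  set N := max (max n1 n2) (max n3 n4) with hN
  have l1 : n1 ≤ N := (le_max_left _ _).trans (le_max_left _ _)
  have l2 : n2 ≤ N := (le_max_right _ _).trans (le_max_left _ _)
  have l3 : n3 ≤ N := (le_max_left _ _).trans (le_max_right _ _)
  have l4 : n4 ≤ N := (le_max_right _ _).trans (le_max_right _ _)
  have haN : ↑a ⊆ W N := fun d hd => hW l1 (h1 d hd)
  have heN : ↑e ⊆ W N := fun d hd => hW l2 (h2 d hd)
  have hiN : i ∈ I N := hI l4 h4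
  have hadmN : Adm (I N) B' a e := fun f hf hent => h3 f hf (hent.anti (hI l3))
  have hadmN2 : Adm (I N) (B N) a e := (Adm.congr (hval N) haN heN).1 hadmN
  rw [cell_congr (b' := B N i) (fun d hd => hval N i hiN d (haN hd))
    (fun d hd => hval N i hiN d (heN hd))]
  exact h N a e haN heN hadmN2 i hiN

theorem UC.amalg {I I' : Set Λ} {W : Set Ω} {B B' : Λ → Ω → Set ℕ} (h : UC I W B)
    (h' : UC I' W B') (hty : ∀ a : Finset Ω, ↑a ⊆ W → ∀ f ∈ W, (Ent I B a f ↔ Ent I' B' a f))
    (hag : ∀ i ∈ I, i ∈ I' → ∀ d ∈ W, B i d = B' i d) :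
    ∃ B'' : Λ → Ω → Set ℕ, (∀ i ∈ I, ∀ d ∈ W, B'' i d = B i d) ∧
      (∀ i ∈ I', ∀ d ∈ W, B'' i d = B' i d) ∧ UC (I ∪ I') W B'' := by
  classical
  have e1 : ∀ i ∈ I, ∀ d ∈ W, (fun i => if i ∈ I then B i else B' i) i d = B i d := by
    intro i hi d _
    beta_reduce
    rw [if_pos hi]
  have e2 : ∀ i ∈ I', ∀ d ∈ W, (fun i => if i ∈ I then B i else B' i) i d = B' i d := by
    intro i hi d hd
    beta_reduce
    by_cases hI : i ∈ I
    · rw [if_pos hI]
      exact hag i hI hi d hd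
    · rw [if_neg hI]
  refine ⟨fun i => if i ∈ I then B i else B' i, e1, e2, ?_⟩
  generalize (fun i => if i ∈ I then B i else B' i) = B'' at e1 e2
  intro a e ha he hadm i hi
  have key : ∀ f ∈ e, Ent I B a f → Ent I' B' a f → False := by
    intro f hf hE hE'
    apply hadm f hf
    intro k hk x hx
    rcases hk with hk | hk
    · rw [e1 k hk f (he hf)]
      apply hE k hk x
      intro d hd
      rw [← e1 k hk d (ha hd)]
      exact hx d hd
    · rw [e2 k hk f (he hf)]
      apply hE' k hk x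
      intro d hd
      rw [← e2 k hk d (ha hd)]
      exact hx d hd
  rcases hi with hi | hi
  · rw [cell_congr (b' := B i) (fun d hd => e1 i hi d (ha hd)) (fun d hd => e1 i hi d (he hd))]
    exact h a e ha he (fun f hf hE => key f hf hE ((hty a ha f (he hf)).1 hE)) i hi
  · rw [cell_congr (b' := B' i) (fun d hd => e2 i hi d (ha hd)) (fun d hd => e2 i hi d (he hd))]
    exact h' a e ha he (fun f hf hE => key f hf ((hty a ha f (he hf)).2 hE) hE) i hi

end Pool.Agent.Lib.MP_a6d962_lc.Cs
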