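import Mathlib

/-!
# Sets closed under operations on countable sets

PROOF.  For `X : Set L` let `N X = X ∪ ⋃ {Φ D c | D : Set (L × K) countable, D ⊆ X × K, c : C}`.  If `#X ≤ 𝔠` then `#(N X) ≤ 𝔠`:
the number of countable `D ⊆ X × K` is at most `𝔠 ^ ℵ₀ = 𝔠` (a countable set is empty or the range of a function
`ℕ → X × K`), and each `Φ D c` is countable (`Cardinal.mk_iUnion_le`, `Cardinal.mk_bounded_set_le` or the like,
`Cardinal.continuum_power_aleph0`, `Cardinal.continuum_mul_self`).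
Define `X α` for `α < ω₁` (index type e.g. `T = (Cardinal.aleph 1).ord.ToType` or `Set.Iio (Ordinal.omega 1)`, any well-order of
cofinality greater than `ω` and of cardinality `ℵ₁ ≤ 𝔠`) by well-founded recursion: `X α = {x0} ∪ ⋃_{β < α} N (X β)`.  Then
`X` is increasing, `#(X α) ≤ 𝔠` for all `α` (induction), and `X∞ = ⋃_{α < ω₁} X α` has size at most `ℵ₁ * 𝔠 = 𝔠`.  If `D` is countable and
`D ⊆ X∞ × K` then `D ⊆ X α × K` for some `α < ω₁` (a countable set of ordinals below `ω₁` is bounded), so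
`Φ D c ⊆ N (X α) ⊆ X (α + 1) ⊆ X∞`.
-/

open Cardinal

namespace Pool.Agent.Lib.MP_a6d962_lc.Cs

universe u

open Classical in
/-- an enumeration of a countable set -/
private noncomputable def Closed_en {L : Type u} (x0 : L) (S : Set L) : ℕ → L :=
  if h : S.Countable ∧ S.Nonempty then (h.1.exists_eq_range h.2).choose else fun _ => x0

private theorem Closed_en_range {L : Type u} (x0 : L) {S : Set L} (h : S.Countable) {x : L} (hx : x ∈ S) :
    ∃ n, Closed_en x0 S n = x := by
  have h1 : S.Countable ∧ S.Nonempty := ⟨h, ⟨x, hx⟩⟩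
  have h2 := (h1.1.exists_eq_range h1.2).choose_spec
  have h3 : x ∈ Set.range (h1.1.exists_eq_range h1.2).choose := by
    rw [← h2]
    exact hx
  obtain ⟨n, hn⟩ := h3
  refine ⟨n, ?_⟩
  unfold Closed_en
  rw [dif_pos h1]
  exact hn

private abbrev Closed_A (K C : Type u) : Type u := Option ((C × ℕ) ⊕ ((ℕ → K) × C × ℕ))

private def Closed_B {K C : Type u} : Closed_A K C → Type u
  | none => PEmpty
  | some (Sum.inl _) => PEmpty
  | some (Sum.inr _) => ULift ℕ

private noncomputable def Closed_step {L K C : Type u} (Φ : Set (L × K) → C → Set L) (x0 : L) :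
    (Σ a : Closed_A K C, Closed_B a → L) → L
  | ⟨none, _⟩ => x0
  | ⟨some (Sum.inl q), _⟩ => Closed_en x0 (Φ ∅ q.1) q.2
  | ⟨some (Sum.inr q), f⟩ =>
    Closed_en x0 (Φ (Set.range fun i : ℕ => (f (ULift.up i), q.1 i)) q.2.1) q.2.2

private noncomputable def Closed_ev {L K C : Type u} (Φ : Set (L × K) → C → Set L) (x0 : L) :
    WType (Closed_B (K := K) (C := C)) → L :=
  WType.elim L (Closed_step Φ x0)

private theorem Closed_card {K C : Type u} (hK : #K ≤ 𝔠) (hC : #C ≤ 𝔠) :
    #(WType (Closed_B (K := K) (C := C))) ≤ 𝔠 := by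
  have hA : #(Closed_A K C) ≤ 𝔠 := by
    have h1 : #(ℕ → K) ≤ 𝔠 := by
      rw [mk_arrow]
      have h2 : lift.{0} #K ^ lift.{u} #ℕ ≤ (𝔠 : Cardinal.{u}) ^ ℵ₀ := by
        rw [mk_nat, lift_aleph0, lift_uzero]
        exact power_le_power_right hK
      exact h2.trans (le_of_eq continuum_power_aleph0)
    have h3 : #(C × ℕ) ≤ 𝔠 := by
      rw [mk_prod, mk_nat, lift_aleph0, lift_uzero]
      exact (mul_le_mul' hC aleph0_le_continuum).trans (le_of_eq continuum_mul_self)
    have h4 : #((ℕ → K) × C × ℕ) ≤ 𝔠 := by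
      rw [mk_prod, lift_id, lift_id]
      exact (mul_le_mul' h1 h3).trans (le_of_eq continuum_mul_self)
    rw [mk_option, mk_sum, lift_id, lift_id]
    have h5 : #(C × ℕ) + #((ℕ → K) × C × ℕ) ≤ 𝔠 :=
      (add_le_add h3 h4).trans (le_of_eq continuum_add_self)
    exact (add_le_add h5 (one_le_aleph0.trans aleph0_le_continuum)).trans (le_of_eq continuum_add_self)
  refine WType.cardinalMk_le_of_le' ?_
  have hb : ∀ a : Closed_A K C, (𝔠 : Cardinal.{u}) ^ lift.{u} #(Closed_B a) ≤ 𝔠 := by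
    intro a
    have h0 : (𝔠 : Cardinal.{u}) ^ lift.{u} #(PEmpty.{u + 1}) ≤ 𝔠 := by
      rw [mk_eq_zero, lift_zero, power_zero]
      exact one_le_aleph0.trans aleph0_le_continuum
    match a with
    | none => exact h0
    | some (Sum.inl _) => exact h0
    | some (Sum.inr _) =>
      have h1 : (𝔠 : Cardinal.{u}) ^ lift.{u} #(ULift.{u} ℕ) ≤ 𝔠 := by
        rw [mk_uLift, mk_nat, lift_aleph0, lift_aleph0]
        exact le_of_eq continuum_power_aleph0
      exact h1
  refine (sum_le_sum _ (fun _ : Closed_A K C => (𝔠 : Cardinal.{u})) hb).trans ?_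
  rw [sum_const, lift_id, lift_id]
  exact (mul_le_mul' hA le_rfl).trans (le_of_eq continuum_mul_self)

theorem exists_closed {L K C : Type u} (hK : #K ≤ 𝔠) (hC : #C ≤ 𝔠) (Φ : Set (L × K) → C → Set L)
    (hΦ : ∀ D c, D.Countable → (Φ D c).Countable) (x0 : L) :
    ∃ X : Set L, #X ≤ 𝔠 ∧ x0 ∈ X ∧
      ∀ D : Set (L × K), D.Countable → (∀ y ∈ D, y.1 ∈ X) → ∀ c, Φ D c ⊆ X := by
  refine ⟨Set.range (Closed_ev Φ x0), mk_range_le.trans (Closed_card hK hC), ?_, ?_⟩
  · exact ⟨WType.mk none (fun b => b.elim), rfl⟩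
  · intro D hD hDX c x hx
    rcases D.eq_empty_or_nonempty with h0 | h0
    · subst h0
      obtain ⟨n, hn⟩ := Closed_en_range x0 (hΦ ∅ c hD) hx
      exact ⟨WType.mk (some (Sum.inl (c, n))) (fun b => b.elim), hn⟩
    · obtain ⟨g, hg⟩ := hD.exists_eq_range h0
      have h1 : ∀ i, ∃ w, Closed_ev Φ x0 w = (g i).1 := by
        intro i
        exact hDX (g i) (by rw [hg]; exact ⟨i, rfl⟩)
      choose w hw using h1
      obtain ⟨n, hn⟩ := Closed_en_range x0 (hΦ D c hD) hx
      refine ⟨WType.mk (some (Sum.inr (fun i => (g i).2, c, n))) (fun b => w b.down), ?_⟩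
      show Closed_en x0 (Φ (Set.range fun i : ℕ => (Closed_ev Φ x0 (w i), (g i).2)) c) n = x
      have h2 : (Set.range fun i : ℕ => (Closed_ev Φ x0 (w i), (g i).2)) = D := by
        rw [hg]
        refine congrArg Set.range (funext fun i => ?_)
        rw [hw i]
      rw [h2]
      exact hn

end Pool.Agent.Lib.MP_a6d962_lc.Cs
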