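import Pool.Agent.Lib.MP_a6d962_lc.Cs.Poset
import Pool.Agent.Lib.MP_a6d962_lc.Cs.Closed

/-!
# Functions from the power set of the natural numbers do not cover a set of size greater than continuum

`psi Z ξ q` stands for: `q` forces that a given function takes the value `ξ` at `Z`.

PROOF.  Let `K = Option (Ω × ℕ)` (in `Type 1`: use `ULift ℕ` if needed), `C = Set' Ω × Set' (Finset Ω × Ω) × ULift (Set ℕ)` where `Set'` denotes the countable
sets (`{s // s.Countable}`), so `#K ≤ 𝔠` and `#C ≤ 𝔠` (`#Ω ≤ 𝔠`, `𝔠 ^ ℵ₀ = 𝔠`).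
For a condition `q` and `X : Set Λ` let
`dat q X = {(i, none) | i ∈ q.I ∩ X} ∪ {(i, some (d, n)) | i ∈ q.I ∩ X, d ∈ q.W, n ∈ q.B i d}`, a countable subset of `Λ × K`,
and `typ q = {(a, f) | ↑a ⊆ q.W, f ∈ q.W, Ent q.I q.B a f}` (countable).
For `D : Set (Λ × K)` and `c = (V, T, Z)` let `Φ D c = q'.I ∪ {ξ'}`, where `q' ≤ p0` and `ξ'` are chosen such that
`q'.W = V`, `typ q' = T`, `dat q' {i | (i, none) ∈ D} = D` and `psi Z ξ' q'`, if such `q'`, `ξ'` exist, and `Φ D c = ∅` otherwise.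
Let `X` be the closed set given by `exists_closed` (`#X ≤ 𝔠 < #Λ`), and let `ξ ∉ X`.
Suppose `q ≤ p0` and `psi Z ξ q`.  Let `D = dat q X`; then `{i | (i, none) ∈ D} = q.I ∩ X` and
`dat q (q.I ∩ X) = D`.  So `q, ξ` satisfy the requirements in the definition of `Φ D (q.W, typ q, Z)`; let `q', ξ'` be the chosen ones.
Then `q'.I ∪ {ξ'} ⊆ X`, `q'.W = q.W`, `typ q' = typ q`, and for `i ∈ q.I ∩ q'.I` (so `i ∈ q.I ∩ X`) and `d ∈ q.W`, `n`:
`n ∈ q'.B i d ↔ (i, some (d, n)) ∈ D ↔ n ∈ q.B i d`.  By `UC.amalg` there is a condition `r ≤ q, q'` (`r.I = q.I ∪ q'.I`, `r.W = q.W`), so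
`r ≤ p0`, `psi Z ξ r`, `psi Z ξ' r`, so `ξ = ξ' ∈ X`.  Contradiction.
-/

open Cardinal

namespace Pool.Agent.Lib.MP_a6d962_lc.Cs

variable {Λ Ω : Type 1}

/-- the trace of a condition on a set of indices -/
private def chain_dat (q : Cond Λ Ω) (X : Set Λ) : Set (Λ × Option (Ω × ULift.{1} ℕ)) :=
  {y | y.1 ∈ q.I ∧ y.1 ∈ X ∧ ∀ z, y.2 = some z → z.1 ∈ q.W ∧ z.2.down ∈ q.B y.1 z.1}

/-- the type of a condition -/
private def chain_typ (q : Cond Λ Ω) : Set (Finset Ω × Ω) :=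
  {z | (↑z.1 : Set Ω) ⊆ q.W ∧ z.2 ∈ q.W ∧ Ent q.I q.B z.1 z.2}

private theorem chain_dat_countable (q : Cond Λ Ω) (X : Set Λ) : (chain_dat q X).Countable := by
  have h1 : (q.I ×ˢ (insert none (some '' (q.W ×ˢ (Set.univ : Set (ULift.{1} ℕ)))))).Countable := by
    refine q.cI.prod ?_
    refine Set.Countable.insert _ ?_
    refine Set.Countable.image ?_ _
    exact q.cW.prod Set.countable_univ
  refine h1.mono ?_
  rintro ⟨i, o⟩ ⟨hi, -, hz⟩
  refine ⟨hi, ?_⟩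
  cases o with
  | none => exact Set.mem_insert _ _
  | some z =>
    refine Set.mem_insert_of_mem _ ⟨z, ⟨(hz z rfl).1, Set.mem_univ _⟩, rfl⟩

private theorem chain_typ_countable (q : Cond Λ Ω) : (chain_typ q).Countable := by
  have h0 : {a : Finset Ω | (↑a : Set Ω) ⊆ q.W}.Countable := by
    have h2 := (Set.countable_ofPred_finite_subset q.cW).preimage
      (f := fun a : Finset Ω => (↑a : Set Ω)) Finset.coe_injective
    refine h2.mono ?_
    intro a ha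
    exact ⟨a.finite_toSet, ha⟩
  refine (h0.prod q.cW).mono ?_
  rintro ⟨a, f⟩ ⟨h1, h2, -⟩
  exact ⟨h1, h2⟩

private theorem chain_card_countable {T : Type 1} (hT : #T ≤ 𝔠) :
    #{s : Set T // s.Countable} ≤ 𝔠 := by
  have h1 : #{s : Set T // s.Countable} = #{s : Set T // #s ≤ ℵ₀} :=
    Cardinal.mk_congr (Equiv.subtypeEquivRight fun s => Cardinal.le_aleph0_iff_set_countable.symm)
  rw [h1]
  refine (Cardinal.mk_bounded_set_le T ℵ₀).trans ?_
  have h2 : max #T ℵ₀ ≤ 𝔠 := max_le hT Cardinal.aleph0_le_continuum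
  calc max #T ℵ₀ ^ ℵ₀ ≤ 𝔠 ^ ℵ₀ := Cardinal.power_le_power_right h2
    _ = 𝔠 := Cardinal.continuum_power_aleph0

private theorem chain_card_prod {S T : Type 1} (hS : #S ≤ 𝔠) (hT : #T ≤ 𝔠) : #(S × T) ≤ 𝔠 := by
  rw [Cardinal.mk_prod, Cardinal.lift_id, Cardinal.lift_id]
  calc #S * #T ≤ 𝔠 * 𝔠 := mul_le_mul' hS hT
    _ = 𝔠 := Cardinal.continuum_mul_self

private theorem chain_card_finset {T : Type 1} (hT : #T ≤ 𝔠) : #(Finset T) ≤ 𝔠 := by
  refine le_trans ?_ (chain_card_countable hT)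
  refine Cardinal.mk_le_of_injective
    (f := fun a : Finset T => (⟨↑a, a.countable_toSet⟩ : {s : Set T // s.Countable})) ?_
  intro a b h
  exact Finset.coe_injective (congrArg Subtype.val h)

theorem Cond.not_onto (hΩ : #Ω ≤ 𝔠) (hΛ : 𝔠 < #Λ) (p0 : Cond Λ Ω)
    (psi : Set ℕ → Λ → Cond Λ Ω → Prop) (hm : ∀ Z ξ p q, psi Z ξ p → q ≤ p → psi Z ξ q)
    (hf : ∀ Z ξ ξ' q, q ≤ p0 → psi Z ξ q → psi Z ξ' q → ξ = ξ') :
    ∃ ξ, ∀ Z q, q ≤ p0 → ¬ psi Z ξ q := by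
  classical
  have hK : #(Option (Ω × ULift.{1} ℕ)) ≤ 𝔠 := by
    rw [Cardinal.mk_option]
    have h1 : #(ULift.{1} ℕ) ≤ 𝔠 := by
      rw [Cardinal.mk_uLift, Cardinal.mk_nat, Cardinal.lift_aleph0]
      exact Cardinal.aleph0_le_continuum
    calc #(Ω × ULift.{1} ℕ) + 1 ≤ 𝔠 + 𝔠 :=
          add_le_add (chain_card_prod hΩ h1) (Cardinal.one_le_aleph0.trans
            Cardinal.aleph0_le_continuum)
      _ = 𝔠 := Cardinal.continuum_add_self
  have hC : #({s : Set Ω // s.Countable} × {s : Set (Finset Ω × Ω) // s.Countable} ×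
      ULift.{1} (Set ℕ)) ≤ 𝔠 := by
    have h1 : #(ULift.{1} (Set ℕ)) ≤ 𝔠 := by
      rw [Cardinal.mk_uLift, Cardinal.mk_set, Cardinal.mk_nat, Cardinal.two_power_aleph0,
        Cardinal.lift_continuum]
    exact chain_card_prod (chain_card_countable hΩ)
      (chain_card_prod (chain_card_countable (chain_card_prod (chain_card_finset hΩ) hΩ)) h1)
  let R : Set (Λ × Option (Ω × ULift.{1} ℕ)) → ({s : Set Ω // s.Countable} ×
      {s : Set (Finset Ω × Ω) // s.Countable} × ULift.{1} (Set ℕ)) → Cond Λ Ω × Λ → Prop :=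
    fun D c y => y.1 ≤ p0 ∧ y.1.W = c.1.1 ∧ chain_typ y.1 = c.2.1.1 ∧
      chain_dat y.1 {i | (i, none) ∈ D} = D ∧ psi c.2.2.down y.2 y.1
  let Φ : Set (Λ × Option (Ω × ULift.{1} ℕ)) → ({s : Set Ω // s.Countable} ×
      {s : Set (Finset Ω × Ω) // s.Countable} × ULift.{1} (Set ℕ)) → Set Λ :=
    fun D c => if h : ∃ y, R D c y then h.choose.1.I ∪ {h.choose.2} else ∅
  have hΦ : ∀ D c, D.Countable → (Φ D c).Countable := by
    intro D c _
    by_cases h : ∃ y, R D c y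
    · have h1 : Φ D c = h.choose.1.I ∪ {h.choose.2} := dif_pos h
      rw [h1]
      exact h.choose.1.cI.union (Set.countable_singleton _)
    · have h1 : Φ D c = ∅ := dif_neg h
      rw [h1]
      exact Set.countable_empty
  have hne : Nonempty Λ := by
    rw [← Cardinal.mk_ne_zero_iff]
    intro h0
    rw [h0] at hΛ
    exact absurd hΛ (not_lt.2 zero_le)
  obtain ⟨x0⟩ := hne
  obtain ⟨X, hX, -, hcl⟩ := exists_closed hK hC Φ hΦ x0
  have hex : ∃ ξ, ξ ∉ X := by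
    by_contra hcon
    push Not at hcon
    have h1 : X = Set.univ := Set.eq_univ_of_forall hcon
    rw [h1, Cardinal.mk_univ] at hX
    exact absurd hΛ (not_lt.2 hX)
  obtain ⟨ξ, hξ⟩ := hex
  refine ⟨ξ, fun Z q hq hpsi => ?_⟩
  have hD1 : {i | (i, (none : Option (Ω × ULift.{1} ℕ))) ∈ chain_dat q X} = q.I ∩ X := by
    ext i
    constructor
    · rintro ⟨h1, h2, -⟩
      exact ⟨h1, h2⟩
    · rintro ⟨h1, h2⟩
      exact ⟨h1, h2, fun z hz => by simp at hz⟩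
  have hD2 : chain_dat q (q.I ∩ X) = chain_dat q X := by
    ext y
    constructor
    · rintro ⟨h1, h2, h3⟩
      exact ⟨h1, h2.2, h3⟩
    · rintro ⟨h1, h2, h3⟩
      exact ⟨h1, ⟨h1, h2⟩, h3⟩
  have hR : ∃ y, R (chain_dat q X) (⟨q.W, q.cW⟩, ⟨chain_typ q, chain_typ_countable q⟩, ⟨Z⟩) y := by
    refine ⟨(q, ξ), hq, rfl, rfl, ?_, hpsi⟩
    rw [hD1]
    exact hD2
  have hsub := hcl (chain_dat q X) (chain_dat_countable q X) (fun y hy => hy.2.1)
    (⟨q.W, q.cW⟩, ⟨chain_typ q, chain_typ_countable q⟩, ⟨Z⟩)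
  have hΦe : Φ (chain_dat q X) (⟨q.W, q.cW⟩, ⟨chain_typ q, chain_typ_countable q⟩, ⟨Z⟩) =
      hR.choose.1.I ∪ {hR.choose.2} := dif_pos hR
  rw [hΦe] at hsub
  obtain ⟨h1, h2, h3, h4, h5⟩ := hR.choose_spec
  revert hsub h1 h2 h3 h4 h5
  generalize hR.choose = y
  rintro hsub h1 h2 h3 h4 h5
  obtain ⟨q', ξ'⟩ := y
  simp only at hsub h1 h2 h3 h4 h5
  rw [hD1] at h4
  have hI' : q'.I ⊆ X := fun i hi => hsub (Or.inl hi)
  have hξ' : ξ' ∈ X := hsub (Or.inr rfl)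
  have hty : ∀ a : Finset Ω, (↑a : Set Ω) ⊆ q.W → ∀ f ∈ q.W,
      (Ent q.I q.B a f ↔ Ent q'.I q'.B a f) := by
    intro a ha f hf'
    constructor
    · intro he
      have h6 : (a, f) ∈ chain_typ q := ⟨ha, hf', he⟩
      rw [← h3] at h6
      exact h6.2.2
    · intro he
      have h6 : (a, f) ∈ chain_typ q' := ⟨h2 ▸ ha, h2 ▸ hf', he⟩
      rw [h3] at h6
      exact h6.2.2
  have hag : ∀ i ∈ q.I, i ∈ q'.I → ∀ d ∈ q.W, q.B i d = q'.B i d := by
    intro i hi hi' d hd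
    ext n
    constructor
    · intro hn
      have h6 : (i, some (d, (⟨n⟩ : ULift.{1} ℕ))) ∈ chain_dat q X := by
        refine ⟨hi, hI' hi', ?_⟩
        intro z hz
        have hz' : (d, (⟨n⟩ : ULift.{1} ℕ)) = z := Option.some.inj hz
        subst hz'
        exact ⟨hd, hn⟩
      rw [← h4] at h6
      exact (h6.2.2 _ rfl).2
    · intro hn
      have h6 : (i, some (d, (⟨n⟩ : ULift.{1} ℕ))) ∈ chain_dat q' (q.I ∩ X) := by
        refine ⟨hi', ⟨hi, hI' hi'⟩, ?_⟩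
        intro z hz
        have hz' : (d, (⟨n⟩ : ULift.{1} ℕ)) = z := Option.some.inj hz
        subst hz'
        refine ⟨?_, hn⟩
        change d ∈ q'.W
        rw [h2]
        exact hd
      rw [h4] at h6
      exact (h6.2.2 _ rfl).2
  have huc' : UC q'.I q.W q'.B := by
    have h6 := q'.uc
    rw [h2] at h6
    exact h6
  obtain ⟨B'', hB1, hB2, hB3⟩ := UC.amalg q.uc huc' hty hag
  let r : Cond Λ Ω := ⟨q.I ∪ q'.I, q.W, B'', q.cI.union q'.cI, q.cW, hB3⟩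
  have hr1 : r ≤ q := ⟨Set.subset_union_left, subset_rfl, hB1⟩
  have hr2 : r ≤ q' := by
    refine ⟨Set.subset_union_right, ?_, ?_⟩
    · change q'.W ⊆ q.W
      rw [h2]
    · intro i hi d hd
      rw [h2] at hd
      exact hB2 i hi d hd
  have heq := hf Z ξ ξ' r (hr1.trans hq) (hm _ _ _ _ hpsi hr1) (hm _ _ _ _ h5 hr2)
  exact hξ (heq ▸ hξ')

end Pool.Agent.Lib.MP_a6d962_lc.Cs
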