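import Pool.Agent.Lib.MP_a6d962_lc.Cs.Nm

/-!
# The bounded clauses are forced

`vN a b` assigns `RN a b` to the variable `0`, `chk b` to `1`, `chk a` to `2`, `omegaN` to `3`.

PROOF.  All four formulas start with bounded universal quantifiers over `chk a`, `chk b` or `omegaN`: use `forces_ball_chk`
(`Forcing/OrdNames.lean`), `forces_ball_om` to reduce to `Forces ψ (cons (chk x) ...) p` for ordinals `x < a`, `y < b`; for
bounded existential quantifiers use `forces_bex_chk`, `forces_bex_om` (Nm.lean), i.e. extend the condition.  To prove `Forces ψ v p` it suffices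
(`Forces.dense`) to find for every `q ≤ p` some `r ≤ q` with `Forces ψ v r`; so one may assume that the relevant indices `i`, `d` are in `p.I`, `p.W`
(`Cond.dense_I`, `Cond.dense_W`; they stay there in extensions).  Then `forces_mem3`, `inR_iff` and `forces_le3` translate the atomic
statements into statements about `p.B`.
* NonPrin: `i ∈ p.I`, `d ∈ p.W`: `p.B i d` is infinite (`UC.infinite`), so it has an element `m ≠ n`; `m ≠ n` is forced by `natN_inj`
  (`Forces (.fneg (.feq 0 1))`: no extension forces `EqF (natN m) (natN n)`).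
* Directed3: `i ∈ p.I`, `d, e ∈ p.W`: `Cond.dense_dec` with `Z = univ` and `a0 = {d, e}`.
* Order3: with `i, j ∈ p.I`, `d, e ∈ p.W` it is `UC.order`.
* Separated3: for `i ≠ j` (if `x = y` then the premise `fneg (feq 1 0)` is not forced by any condition) use `Cond.dense_sep`.
-/

namespace Pool.Agent.Lib.MP_a6d962_lc.Cs

open Pool.Agent.Lib.Forcing Pool.Agent.Lib.MP_40b13d_lc

variable {a b : Ordinal.{0}}

theorem forces_nonPrin [Nonempty (Set.Iio a)] (p : PP a b) :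
    Forces (fNonPrin 3 2 1 0) (vN a b) p := by
  unfold fNonPrin
  rw [forces_ball_chk (o := a) rfl]
  intro x hx
  rw [forces_ball_chk (o := b) rfl]
  intro y hy
  rw [forces_ball_om rfl]
  intro n
  rw [forces_bex_om rfl]
  intro q hq
  obtain ⟨q1, hq1, hi⟩ := q.dense_I ⟨x, hx⟩
  obtain ⟨q2, hq2, hd⟩ := q1.dense_W ⟨y, hy⟩
  have hi2 : (⟨x, hx⟩ : Set.Iio a) ∈ q2.I := hq2.1 hi
  obtain ⟨m, hm, hmn⟩ := (q2.uc.infinite hi2 hd).exists_notMem_finset {n}
  refine ⟨q2, hq2.trans hq1, m, ?_⟩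
  rw [forces_and]
  constructor
  · rw [forces_neg]
    intro r _ h
    have h' : EqF (natN m) (natN n) r := h
    exact hmn (Finset.mem_singleton.2 (natN_inj h'))
  · have key : Forces (fMem3 (0 + 4) 3 2 0)
        (cons (natN m) (cons (natN n) (cons (chk y) (cons (chk x) (vN a b))))) q2 ↔
        InR ⟨x, hx⟩ ⟨y, hy⟩ m q2 := forces_mem3 rfl rfl rfl rfl
    rw [key, inR_iff hi2 hd]
    exact hm

theorem forces_directed3 [Nonempty (Set.Iio a)] [Uncountable (Set.Iio b)] (p : PP a b) :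
    Forces (fDirected3 3 2 1 0) (vN a b) p := by
  classical
  unfold fDirected3
  rw [forces_ball_chk (o := a) rfl]
  intro x hx
  rw [forces_ball_chk (o := b) rfl]
  intro y hy
  rw [forces_ball_chk (o := b) rfl]
  intro z hz
  rw [forces_bex_chk (o := b) rfl]
  intro q hq
  obtain ⟨q1, hq1, hd⟩ := q.dense_W ⟨y, hy⟩
  obtain ⟨q2, hq2, he⟩ := q1.dense_W ⟨z, hz⟩
  have hd2 : (⟨y, hy⟩ : Set.Iio b) ∈ q2.W := hq2.2.1 hd
  obtain ⟨r, hr, hi, w, hw, -, h⟩ := q2.dense_dec (a0 := {⟨y, hy⟩, ⟨z, hz⟩}) ⟨x, hx⟩ Set.univ (by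
    intro d hd
    rw [Finset.mem_coe, Finset.mem_insert, Finset.mem_singleton] at hd
    rcases hd with rfl | rfl
    · exact hd2
    · exact he)
  refine ⟨r, (hr.trans hq2).trans hq1, w.1, w.2, ?_⟩
  rw [forces_and]
  constructor
  · rw [forces_le3 (i' := ⟨x, hx⟩) (d' := w) (e' := ⟨y, hy⟩) rfl rfl rfl rfl rfl hi hw
      (hr.2.1 hd2)]
    exact h _ (Finset.mem_insert_self _ _)
  · rw [forces_le3 (i' := ⟨x, hx⟩) (d' := w) (e' := ⟨z, hz⟩) rfl rfl rfl rfl rfl hi hw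
      (hr.2.1 he)]
    exact h _ (Finset.mem_insert_of_mem (Finset.mem_singleton_self _))

theorem forces_order3 [Nonempty (Set.Iio a)] (p : PP a b) :
    Forces (fOrder3 3 2 1 0) (vN a b) p := by
  unfold fOrder3
  rw [forces_ball_chk (o := a) rfl]
  intro x hx
  rw [forces_ball_chk (o := a) rfl]
  intro x' hx'
  rw [forces_ball_chk (o := b) rfl]
  intro y hy
  rw [forces_ball_chk (o := b) rfl]
  intro z hz
  apply Forces.dense
  intro q hq
  obtain ⟨q1, hq1, hi⟩ := q.dense_I ⟨x, hx⟩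
  obtain ⟨q2, hq2, hj⟩ := q1.dense_I ⟨x', hx'⟩
  obtain ⟨q3, hq3, hd⟩ := q2.dense_W ⟨y, hy⟩
  obtain ⟨q4, hq4, he⟩ := q3.dense_W ⟨z, hz⟩
  refine ⟨q4, ((hq4.trans hq3).trans hq2).trans hq1, ?_⟩
  rw [forces_imp]
  intro s hs h
  have hi' : (⟨x, hx⟩ : Set.Iio a) ∈ s.I := hs.1 (hq4.1 (hq3.1 (hq2.1 hi)))
  have hj' : (⟨x', hx'⟩ : Set.Iio a) ∈ s.I := hs.1 (hq4.1 (hq3.1 hj))
  have hd' : (⟨y, hy⟩ : Set.Iio b) ∈ s.W := hs.2.1 (hq4.2.1 hd)
  have he' : (⟨z, hz⟩ : Set.Iio b) ∈ s.W := hs.2.1 he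
  rw [forces_le3 (i' := ⟨x, hx⟩) (d' := ⟨y, hy⟩) (e' := ⟨z, hz⟩) rfl rfl rfl rfl rfl hi' hd'
    he'] at h
  rw [forces_le3 (i' := ⟨x', hx'⟩) (d' := ⟨y, hy⟩) (e' := ⟨z, hz⟩) rfl rfl rfl rfl rfl hj' hd'
    he']
  exact s.uc.order hi' hj' hd' he' h

theorem forces_separated3 [Uncountable (Set.Iio b)] (p : PP a b) :
    Forces (fSeparated3 3 2 1 0) (vN a b) p := by
  unfold fSeparated3
  rw [forces_ball_chk (o := a) rfl]
  intro x hx
  rw [forces_ball_chk (o := a) rfl]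
  intro x' hx'
  rw [forces_imp]
  intro q hq hne
  by_cases hxx : x = x'
  · subst hxx
    exact ((forces_neg.1 hne) q le_rfl (EqF.refl _ _)).elim
  · rw [forces_bex_chk (o := b) rfl]
    intro q' hq'
    have hij : (⟨x, hx⟩ : Set.Iio a) ≠ ⟨x', hx'⟩ := fun h => hxx (congrArg Subtype.val h)
    obtain ⟨r, hr, hi, hj, w, hw, h⟩ := q'.dense_sep hij
    refine ⟨r, hr, w.1, w.2, ?_⟩
    rw [forces_ball_om rfl]
    intro n
    rw [forces_imp]
    intro s hs h1
    rw [forces_neg]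
    intro t ht h2
    have k1 : Forces (fMem3 (0 + 4) 3 1 0)
        (cons (natN n) (cons (chk w.1) (cons (chk x') (cons (chk x) (vN a b))))) s ↔
        InR ⟨x, hx⟩ w n s := forces_mem3 rfl rfl rfl rfl
    have k2 : Forces (fMem3 (0 + 4) 2 1 0)
        (cons (natN n) (cons (chk w.1) (cons (chk x') (cons (chk x) (vN a b))))) t ↔
        InR ⟨x', hx'⟩ w n t := forces_mem3 rfl rfl rfl rfl
    rw [k1, inR_iff (hs.1 hi) (hs.2.1 hw), hs.2.2 _ hi _ hw] at h1
    rw [k2, inR_iff (ht.1 (hs.1 hj)) (ht.2.1 (hs.2.1 hw)), (ht.trans hs).2.2 _ hj _ hw] at h2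
    exact h n h1 h2

end Pool.Agent.Lib.MP_a6d962_lc.Cs
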