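import Pool.Agent.Lib.MP_a6d962_lc.Cs.Nm

/-!
# Every set of natural numbers is decided

PROOF.  `fUltra3 3 2 1 0 = fball 2 (.fall (fimp (dSub 0 5) (fbex 3 (fDec 6 1 3 2 0))))`.  By `forces_ball_chk` fix `x < a` (an index
`i : Set.Iio a`), a name `τ` for `z`, and `q ≤ p` which forces `τ ⊆ ω`.  (Only `forces_bex_chk` for `chk b` is left: for every `q' ≤ q` find
`r ≤ q'` and `y < b` with `Forces (fDec 6 1 3 2 0) (cons (chk y) (cons τ (cons (chk x) (vN a b)))) r`.)
By `decide_subset` (with `D n p = MemF (natN n) τ p`, and `Cond.distr`) there are `q'' ≤ q'` and `Z : Set ℕ` such that `q''` forces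
`natN n ∈ τ` for `n ∈ Z` and no extension of `q''` forces `natN n ∈ τ` for `n ∉ Z`.  By `Cond.dense_dec` (`a0 = ∅`) there are `r ≤ q''`, `i ∈ r.I`,
`w ∈ r.W` with `r.B i w ⊆ Z` or `r.B i w` disjoint from `Z`.  Take `y = w`.  In the first case `r` forces the first disjunct (`forces_or`,
`forces_ball_om`, `forces_imp`, `forces_mem3`, `inR_iff`), in the second case it forces the second one.
-/

namespace Pool.Agent.Lib.MP_a6d962_lc.Cs

open Pool.Agent.Lib.Forcing Pool.Agent.Lib.MP_40b13d_lc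

variable {a b : Ordinal.{0}}

theorem forces_ultra3 [Uncountable (Set.Iio b)] (p : PP a b) :
    Forces (fUltra3 3 2 1 0) (vN a b) p := by
  unfold fUltra3
  rw [forces_ball_chk (v := vN a b) (j := 2) (o := a) rfl]
  intro x hx τ
  obtain ⟨i0, rfl⟩ : ∃ i0 : Set.Iio a, i0.1 = x := ⟨⟨x, hx⟩, rfl⟩
  rw [forces_imp]
  intro q hq _
  rw [forces_bex_chk (j := 1 + 2) (o := b) rfl]
  intro q' hq'
  obtain ⟨q1, hq1, Z, hZ⟩ := decide_subset (D := fun n (p : PP a b) => MemF (natN n) τ p)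
    (fun n p q h hq => h.mono hq) Cond.distr q'
  obtain ⟨r, hr, hi, w, hw, h1, -⟩ := Cond.dense_dec q1 i0 Z (a0 := ∅) (by simp)
  refine ⟨r, hr.trans hq1, w.1, w.2, ?_⟩
  unfold fDec
  rw [forces_or]
  intro s hs
  refine ⟨s, le_rfl, ?_⟩
  have key : ∀ (n : ℕ) (t : PP a b), t ≤ s →
      (Forces (fMem3 (0 + 3 + 1) (2 + 1) (0 + 1) 0)
        (cons (natN n) (cons (chk w.1) (cons τ (cons (chk i0.1) (vN a b))))) t ↔
        n ∈ r.B i0 w) := by
    intro n t ht
    have ht' : t ≤ r := ht.trans hs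
    refine (forces_mem3 (r := 0 + 3 + 1) (i := 2 + 1) (d := 0 + 1) (n := 0)
      (v := cons (natN n) (cons (chk w.1) (cons τ (cons (chk i0.1) (vN a b)))))
      (i' := i0) (d' := w) (n' := n) rfl rfl rfl rfl).trans ?_
    rw [inR_iff (ht'.1 hi) (ht'.2.1 hw), ht'.2.2 _ hi _ hw]
  rcases h1 with h1 | h1
  · left
    rw [forces_ball_om (j := 3 + 3) rfl]
    intro n
    rw [forces_imp]
    intro t ht h2
    rw [key n t ht] at h2
    show MemF (natN n) τ t
    exact ((hZ n).1 (h1 h2)).mono ((ht.trans hs).trans hr)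
  · right
    rw [forces_ball_om (j := 3 + 3) rfl]
    intro n
    rw [forces_imp]
    intro t ht h2
    rw [key n t ht] at h2
    rw [forces_neg]
    intro u hu h3
    have h3' : MemF (natN n) τ u := h3
    exact (hZ n).2 (h1 n h2) u (((hu.trans ht).trans hs).trans hr) h3'

end Pool.Agent.Lib.MP_a6d962_lc.Cs
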