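import Pool.Agent.Lib.MP_a6d962_lc.Cs.Nm
import Pool.Agent.Lib.MP_a6d962_lc.Cs.Chain

/-!
# No function from the power set of `ω` onto the index set

PROOF.  Suppose `IsPower (ModE U) x (cl omegaN)` and `HasSurj (ModE U) x (cl (chk a))` with a function `f`; `x = cl ρ`, `f = cl φ`
(`exists_cl`).  Consider the formula `θ = .fand (fPower 1 2) (.fand (dFun 0 1 3) (fball 3 (fex (dApp 1 0 1))))` (`f` is a function from `x` onto `chk a`,
`x` is the power set of `ω`) with the assignment `0 ↦ φ, 1 ↦ ρ, 2 ↦ omegaN, 3 ↦ chk a`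
(`cons φ (cons ρ (cons omegaN fun _ => chk a))`).  It holds in `Mod U`, so by `los` some condition `p0` forces it
(`GenUlt.Ev.exists`), and then it holds in every `Mod V` with `V.Has q`, `q ≤ p0` (`forces_iff`, `Forces.mono`).
For `Z : Set ℕ` let `zN Z = cn (ι := ULift ℕ) (fun n => natN n.down) (fun n _ => n.down ∈ Z)` (the name of `Z`), and
`psi Z ξ q := MemF (opN (zN Z) (chk ξ.1)) φ q` (`q` forces `f (Z) = ξ`).
`Cond.not_onto hb ha p0 psi` applies: monotone by `MemF.mono`; if `q ≤ p0` and `psi Z ξ q`, `psi Z ξ' q`, take `V` with `V.Has q`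
(`exists_genUlt`); in `Mod V` both values are assigned by the function `f` (`isApp_iff`, `IsFun.app_unique`), so `chk ξ = chk ξ'` in
`Mod V`, so `ξ = ξ'` (`mod_chk_eq`).
Let `ξ` be given by `Cond.not_onto`.  Take `V` with `V.Has p0`.  By surjectivity there is `y` in `Mod V` with `App f y ξ`, `y` in the power set
(`IsFun.app_mem`), `y = cl υ`.  By `los`-type arguments some `q ≤ p0` (a condition in `V` below `p0`: intersect the `Ev` sets) forces
`υ ⊆ ω` (`SubF υ omegaN q`) and `MemF (opN υ (chk ξ)) φ q`.  By `decide_subset` (`D n p = MemF (natN n) υ p`, `Cond.distr`) there are `q' ≤ q` and `Z` such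
that `q'` decides `υ`, and then `EqF υ (zN Z) q'` (`eqF_of_sub`).  So `psi Z ξ q'` (congruence of `MemF` and `opN`: `eqF_opN`,
`MemF.congr_left`), contradiction.
-/

open Cardinal

namespace Pool.Agent.Lib.MP_a6d962_lc.Cs

open Pool.Agent.Lib.Forcing Pool.Agent.Lib.MP_40b13d_lc

variable {a b : Ordinal.{0}}

/-- in a function, values are unique -/
private theorem ClC_fun_unique {M : Type*} {E : M → M → Prop} (H : IsZFC M E) {f x l : M}
    (hf : IsFun E f x l) {u y y' : M} (h : IsApp E f u y) (h' : IsApp E f u y') : y = y' := by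
  obtain ⟨z, hz, hp⟩ := h
  obtain ⟨z', hz', hp'⟩ := h'
  obtain ⟨u1, y1, hu1, hy1, hp1⟩ := hf.1 z hz
  obtain ⟨u2, y2, hu2, hy2, hp2⟩ := hf.1 z' hz'
  obtain ⟨e1, e2⟩ := hp.inj H hp1
  obtain ⟨e3, e4⟩ := hp'.inj H hp2
  subst e1 e2
  have hy2' : E y' l := e4 ▸ hy2
  obtain ⟨y0, -, hy0⟩ := hf.2 u hu1
  exact (hy0 y ⟨hy1, z, hz, hp⟩).trans (hy0 y' ⟨hy2', z', hz', hp'⟩).symm

/-- arguments belong to the domain -/
private theorem ClC_fun_dom {M : Type*} {E : M → M → Prop} (H : IsZFC M E) {f x l : M}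
    (hf : IsFun E f x l) {u y : M} (h : IsApp E f u y) : E u x := by
  obtain ⟨z, hz, hp⟩ := h
  obtain ⟨u1, y1, hu1, -, hp1⟩ := hf.1 z hz
  rw [(hp.inj H hp1).1]
  exact hu1

/-- the name of a set of natural numbers -/
private def ClC_zN (Z : Set ℕ) : Name (PP a b) :=
  cn (ι := ULift.{1} ℕ) (fun n => natN n.down) (fun n _ => n.down ∈ Z)

private theorem ClC_eq_zN {υ : Name (PP a b)} {Z : Set ℕ} {q : PP a b} (hsub : SubF υ omegaN q)
    (h : ∀ n, (n ∈ Z → MemF (natN n) υ q) ∧ (n ∉ Z → ∀ r, r ≤ q → ¬ MemF (natN n) υ r)) :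
    EqF υ (ClC_zN Z) q := by
  apply eqF_of_sub
  · intro ρ r hr h1
    apply MemF.dense
    intro s hs
    obtain ⟨t, ht, n, h2⟩ := memF_omegaN.1 (hsub ρ r hr h1) s hs
    refine ⟨t, ht, MemF.congr_left h2.symm ?_⟩
    have h3 : MemF (natN n) υ t := MemF.congr_left h2 (h1.mono (ht.trans hs))
    have hn : n ∈ Z := by
      by_contra hn
      exact (h n).2 hn t ((ht.trans hs).trans hr) h3
    exact memF_cn_of (nm := fun n : ULift.{1} ℕ => (natN n.down : Name (PP a b)))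
      (A := fun n _ => n.down ∈ Z) ⟨n⟩ hn
  · intro ρ r hr h1
    apply MemF.dense
    intro s hs
    rw [ClC_zN, memF_cn (fun _ _ _ h _ => h)] at h1
    obtain ⟨t, ht, ⟨n⟩, hn, h2⟩ := h1 s hs
    exact ⟨t, ht, MemF.congr_left h2.symm (((h n).1 hn).mono ((ht.trans hs).trans hr))⟩

theorem mod_noSurj (hb : #(Set.Iio b) ≤ 𝔠) (ha : 𝔠 < #(Set.Iio a)) (U : GenUlt (PP a b)) :
    NoSurj (ModE U) (U.cl omegaN) (U.cl (chk a)) := by
  rintro x hx ⟨f, hf, hsurj⟩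
  obtain ⟨ρ, rfl⟩ := exists_cl x
  obtain ⟨φ, rfl⟩ := exists_cl f
  let v : ℕ → Name (PP a b) := cons φ (cons ρ (cons omegaN fun _ => chk a))
  let θ : Fml := .fand (fPower 1 2) (.fand (dFun 0 1 3) (fball 3 (fex (dApp 2 0 1))))
  have key : ∀ V : GenUlt (PP a b), Sat (ModE V) θ (fun i => V.cl (v i)) ↔
      (IsPower (ModE V) (V.cl ρ) (V.cl omegaN) ∧
        IsFun (ModE V) (V.cl φ) (V.cl ρ) (V.cl (chk a)) ∧
        ∀ y, ModE V y (V.cl (chk a)) → ∃ x, IsApp (ModE V) (V.cl φ) x y) := by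
    intro V
    simp only [θ, sat_and, sat_fPower, sat_dFun, sat_ball, sat_ex, sat_dApp, cons_zero, cons_one,
      cons_two]
    exact Iff.rfl
  obtain ⟨p0, hp0⟩ := ((los U θ v).1 ((key U).2 ⟨hx, hf, hsurj⟩)).exists
  have key2 : ∀ (V : GenUlt (PP a b)) (q : PP a b), q ≤ p0 → V.Has q →
      (IsPower (ModE V) (V.cl ρ) (V.cl omegaN) ∧
        IsFun (ModE V) (V.cl φ) (V.cl ρ) (V.cl (chk a)) ∧
        ∀ y, ModE V y (V.cl (chk a)) → ∃ x, IsApp (ModE V) (V.cl φ) x y) :=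
    fun V q hq hV => (key V).1 (forces_iff.1 (hp0.mono hq) V hV)
  obtain ⟨ξ, hξ⟩ := Cond.not_onto hb ha p0
    (fun Z ξ q => MemF (opN (ClC_zN Z) (chk ξ.1)) φ q) (fun Z ξ p q h hq => MemF.mono h hq) (by
      intro Z ξ ξ' q hq h1 h2
      obtain ⟨V, hV⟩ := exists_genUlt q
      obtain ⟨-, hfun, -⟩ := key2 V q hq hV
      have h3 : IsApp (ModE V) (V.cl φ) (V.cl (ClC_zN Z)) (V.cl (chk ξ.1)) :=
        (isApp_iff V _ _ _).2 (GenUlt.Ev.imp hV fun r hr => MemF.mono h1 hr)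
      have h4 : IsApp (ModE V) (V.cl φ) (V.cl (ClC_zN Z)) (V.cl (chk ξ'.1)) :=
        (isApp_iff V _ _ _).2 (GenUlt.Ev.imp hV fun r hr => MemF.mono h2 hr)
      exact Subtype.ext ((mod_chk_eq V).1 (ClC_fun_unique (mod_isZFC V) hfun h3 h4)))
  obtain ⟨V, hV⟩ := exists_genUlt p0
  obtain ⟨hpow, hfun, hsur⟩ := key2 V p0 le_rfl hV
  obtain ⟨y, hy⟩ := hsur (V.cl (chk ξ.1)) ((mod_chk_mem V).2 ξ.2)
  have hyx := ClC_fun_dom (mod_isZFC V) hfun hy
  obtain ⟨υ, rfl⟩ := exists_cl y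
  have hsub : V.Ev (SubF υ omegaN) := by
    have h1 : Sat (ModE V) (dSub 0 1)
        (fun i => V.cl ((cons υ fun _ => omegaN : ℕ → Name (PP a b)) i)) := by
      rw [sat_dSub]
      exact (hpow _).1 hyx
    exact ((los V (dSub 0 1) _).1 h1).imp fun p hp => forces_dSub.1 hp
  obtain ⟨q, ⟨hq, h1⟩, h2⟩ := ((GenUlt.Ev.and hV hsub).and ((isApp_iff V _ _ _).1 hy)).exists
  obtain ⟨q', hq', Z, hZ⟩ := decide_subset (D := fun n p => MemF (natN n) υ p)
    (fun n p q h hq => MemF.mono h hq) Cond.distr q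
  have h3 : EqF υ (ClC_zN Z) q' := ClC_eq_zN (h1.mono hq') hZ
  exact hξ Z q' (hq'.trans hq)
    (MemF.congr_left (eqF_opN.2 ⟨h3, EqF.refl _ _⟩) (MemF.mono h2 hq'))

end Pool.Agent.Lib.MP_a6d962_lc.Cs
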