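import Pool.Agent.Lib.MP_a6d962_lc.Cs.Comb

/-!
# A pseudo-intersection: the fusion step

PROOF.  For a finite set `s ⊆ ℕ` of stages write `as = insert w (image d s)` (a finite subset of `W`).
Requirements: the countable set of all tuples `(a', e, i, m)` with `a', e` finite subsets of `W`, `i ∈ I`,
`m : ℕ`.  If there is no such tuple (`I = ∅`) take `F = id`: then `UC` is trivial.  Otherwise let `ρ : ℕ → tuples`
list all of them (each one at least once is enough, because `m` varies).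

Construct recursively `F 0 < F 1 < ...` and finite sets `Q k ⊆ I × ℕ` of promises with
 (P) `x ∈ B i w` and `x ∈ B i (d (F l))` for all `(i, x) ∈ Q k`, `l < k`.
Stage `k`: given `F l` (`l < k`) and `Q k` with (P), let `(a', e, i, m) = ρ k` and `s = {F l : l < k}`.  If there is
`x > m` with `x ∈ cell (B i) (a' ∪ as) e`, then pick one and put `Q (k+1) = insert (i, x) (Q k)`; otherwise
`Q (k+1) = Q k`.  By `hev` all `(j, x) ∈ Q (k+1)` satisfy `x ∈ B j (d n)` for all large `n` (finitely many pairs);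
let `F k > F (k-1)` be such an `n`.  (It is convenient to make the state a structure/subtype containing a list or a
finset of stages, the finset of promises and the invariant, and to prove one step lemma.)

Let `C i = {x | x ∈ B i w ∧ ∀ k, x ∈ B i (d (F k))}`.  All promised points `(i, x) ∈ ⋃ Q k` satisfy `x ∈ C i`.

UC for `insert g W`.  Let `a, e ⊆ insert g W` be admissible for `upd B g C`, `i ∈ I`, `a' = a.erase g`,
`e' = e.erase g`.  `g ∈ a` and `g ∈ e` is impossible.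
 * `g ∈ a`, `g ∉ e`.  For every finite set `s` of stages contained in the range of `F`: `Adm I B (a' ∪ as) e`, because
   `Ent I B (a' ∪ as) f` implies `Ent I (upd B g C) a f` (points of `C j` are in `B j d'` for all `d' ∈ as`).  So by `h`
   the cells `cell (B i) (a' ∪ as) e` are infinite.  Given `m`, the requirement `(a', e, i, m)` is `ρ k` for some `k`,
   at stage `k` a point `x > m` of `cell (B i) (a' ∪ as) e` was promised, so `x ∈ C i` and
   `x ∈ cell (upd B g C i) a e`.  Hence this cell is infinite (`Set.infinite_of_not_bddAbove` / `Set.infinite_of_forall_exists_gt`).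
 * `g ∉ a`, `g ∈ e`.  `¬ Ent I (upd B g C) a g`: there are `j ∈ I` and `x ∈ ⋂_{d' ∈ a} B j d'` with `x ∉ C j`; so there is
   `u ∈ {w} ∪ {d (F k) : k}` with `x ∉ B j u`, `u ∈ W`.  So `Adm I B a (insert u e')`, hence
   `cell (B i) a (insert u e')` is infinite, and it is contained in `cell (upd B g C i) a e` since `C i ⊆ B i u`.
 * `g ∉ a`, `g ∉ e`: directly from `h` (`Ent.congr`, `cell_congr`; `upd B g C i d = B i d` for `d ∈ W`).
-/

namespace Pool.Agent.Lib.MP_a6d962_lc.Cs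

variable {Λ Ω : Type*}

/-- the states of the construction: the stages and the promises -/
private def Fusion_S (I : Set Λ) (B : Λ → Ω → Set ℕ) (w : Ω) (d : ℕ → Ω) : Type _ :=
  {p : Finset ℕ × Set (Λ × ℕ) // p.2.Finite ∧
    ∀ z ∈ p.2, z.1 ∈ I ∧ z.2 ∈ B z.1 w ∧ ∀ l ∈ p.1, z.2 ∈ B z.1 (d l)}

private theorem Fusion_step [DecidableEq Ω] {I : Set Λ} {B : Λ → Ω → Set ℕ} {w : Ω} {d : ℕ → Ω}
    (hev : ∀ i ∈ I, ∀ x ∈ B i w, ∃ N, ∀ n, N ≤ n → x ∈ B i (d n))
    (σ : Fusion_S I B w d) (a e : Finset Ω) (i : Λ) (hi : i ∈ I) (m : ℕ) :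
    ∃ z : Fusion_S I B w d × ℕ, (∀ l ∈ σ.1.1, l < z.2) ∧ z.1.1.1 = insert z.2 σ.1.1 ∧ σ.1.2 ⊆ z.1.1.2 ∧
      ((∃ x, m < x ∧ x ∈ cell (B i) (a ∪ insert w (σ.1.1.image d)) e) →
        ∃ x, m < x ∧ x ∈ cell (B i) (a ∪ insert w (σ.1.1.image d)) e ∧ (i, x) ∈ z.1.1.2) := by
  obtain ⟨⟨s, Q⟩, hQ, hP⟩ := σ
  have key : ∀ Q' : Set (Λ × ℕ), Q'.Finite → (∀ z ∈ Q', z.1 ∈ I ∧ z.2 ∈ B z.1 w ∧ ∀ l ∈ s, z.2 ∈ B z.1 (d l)) →
      ∃ n, (∀ l ∈ s, l < n) ∧ ∀ z ∈ Q', z.2 ∈ B z.1 (d n) := by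
    intro Q' hQ' hP'
    have h1 : ∀ᶠ n in Filter.atTop, ∀ z ∈ Q', z.2 ∈ B z.1 (d n) := by
      rw [Filter.eventually_all_finite hQ']
      intro z hz
      obtain ⟨N, hN⟩ := hev z.1 (hP' z hz).1 z.2 (hP' z hz).2.1
      exact Filter.eventually_atTop.2 ⟨N, hN⟩
    have h2 : ∀ᶠ n in Filter.atTop, ∀ l ∈ s, l < n := by
      rw [Filter.eventually_all_finset]
      intro l _
      exact Filter.eventually_gt_atTop l
    obtain ⟨n, h3, h4⟩ := (h2.and h1).exists
    exact ⟨n, h3, h4⟩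
  have fin : ∀ Q' : Set (Λ × ℕ), Q'.Finite → (∀ z ∈ Q', z.1 ∈ I ∧ z.2 ∈ B z.1 w ∧ ∀ l ∈ s, z.2 ∈ B z.1 (d l)) →
      ∃ z : Fusion_S I B w d × ℕ, (∀ l ∈ s, l < z.2) ∧ z.1.1.1 = insert z.2 s ∧ z.1.1.2 = Q' := by
    intro Q' hQ' hP'
    obtain ⟨n, h1, h2⟩ := key Q' hQ' hP'
    refine ⟨(⟨(insert n s, Q'), hQ', fun z hz => ⟨(hP' z hz).1, (hP' z hz).2.1, fun l hl => ?_⟩⟩, n), h1, rfl, rfl⟩
    rcases Finset.mem_insert.1 hl with rfl | hl
    · exact h2 z hz
    · exact (hP' z hz).2.2 l hl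
  by_cases hx : ∃ x, m < x ∧ x ∈ cell (B i) (a ∪ insert w (s.image d)) e
  · obtain ⟨x, hmx, hxc⟩ := hx
    obtain ⟨z, h1, h2, h3⟩ := fin (insert (i, x) Q) (hQ.insert _) (by
      rintro z (rfl | hz)
      · refine ⟨hi, hxc.1 w (by simp), fun l hl => hxc.1 (d l) ?_⟩
        exact Finset.mem_union_right _ (Finset.mem_insert_of_mem (Finset.mem_image_of_mem d hl))
      · exact hP z hz)
    refine ⟨z, h1, h2, ?_, fun _ => ⟨x, hmx, hxc, ?_⟩⟩
    · rw [h3]
      exact Set.subset_insert _ _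
    · rw [h3]
      exact Set.mem_insert _ _
  · obtain ⟨z, h1, h2, h3⟩ := fin Q hQ hP
    refine ⟨z, h1, h2, ?_, fun h => absurd h hx⟩
    rw [h3]

private theorem Fusion_seq [DecidableEq Ω] {I : Set Λ} {B : Λ → Ω → Set ℕ} {w : Ω} {d : ℕ → Ω}
    (hev : ∀ i ∈ I, ∀ x ∈ B i w, ∃ N, ∀ n, N ≤ n → x ∈ B i (d n))
    (A E : ℕ → Finset Ω) (ι : ℕ → Λ) (hι : ∀ k, ι k ∈ I) (μ : ℕ → ℕ) :
    ∃ F : ℕ → ℕ, StrictMono F ∧ ∀ k, ∃ s : Finset ℕ, (∀ l ∈ s, l ∈ Set.range F) ∧
      ((∃ x, μ k < x ∧ x ∈ cell (B (ι k)) (A k ∪ insert w (s.image d)) (E k)) →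
        ∃ x, μ k < x ∧ x ∈ cell (B (ι k)) (A k ∪ insert w (s.image d)) (E k) ∧ x ∈ B (ι k) w ∧
          ∀ j, x ∈ B (ι k) (d (F j))) := by
  choose nx h1 h2 h3 h4 using fun (k : ℕ) (σ : Fusion_S I B w d) => Fusion_step hev σ (A k) (E k) (ι k) (hι k) (μ k)
  let σ : ℕ → Fusion_S I B w d := fun k =>
    Nat.rec ⟨(∅, ∅), Set.finite_empty, fun z hz => absurd hz (Set.notMem_empty z)⟩ (fun k σ => (nx k σ).1) k
  have hσ : ∀ k, σ (k + 1) = (nx k (σ k)).1 := fun k => rfl
  let F : ℕ → ℕ := fun k => (nx k (σ k)).2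
  have hs : ∀ k, (σ (k + 1)).1.1 = insert (F k) (σ k).1.1 := by
    intro k
    rw [hσ]
    exact h2 k (σ k)
  have hs0 : ∀ k, ∀ l ∈ (σ k).1.1, l ∈ Set.range F := by
    intro k
    induction k with
    | zero =>
      intro l hl
      exact absurd hl (Finset.notMem_empty l)
    | succ k ih =>
      intro l hl
      rw [hs] at hl
      rcases Finset.mem_insert.1 hl with rfl | hl
      · exact ⟨k, rfl⟩
      · exact ih l hl
  have hsm : ∀ j k, j ≤ k → (σ j).1.1 ⊆ (σ k).1.1 := by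
    intro j k hjk
    induction k, hjk using Nat.le_induction with
    | base => exact Finset.Subset.refl _
    | succ k _ ih =>
      rw [hs]
      exact ih.trans (Finset.subset_insert _ _)
  have hQm : ∀ j k, j ≤ k → (σ j).1.2 ⊆ (σ k).1.2 := by
    intro j k hjk
    induction k, hjk using Nat.le_induction with
    | base => exact subset_rfl
    | succ k _ ih =>
      rw [hσ]
      exact ih.trans (h3 k (σ k))
  have hFs : ∀ j, F j ∈ (σ (j + 1)).1.1 := by
    intro j
    rw [hs]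
    exact Finset.mem_insert_self _ _
  refine ⟨F, strictMono_nat_of_lt_succ fun k => h1 (k + 1) (σ (k + 1)) (F k) (hFs k), fun k => ⟨(σ k).1.1, hs0 k, fun hx => ?_⟩⟩
  obtain ⟨x, hx1, hx2, hx3⟩ := h4 k (σ k) hx
  have hx4 : (ι k, x) ∈ (σ (k + 1)).1.2 := by
    rw [hσ]
    exact hx3
  refine ⟨x, hx1, hx2, ((σ (k + 1)).2.2 _ hx4).2.1, fun j => ?_⟩
  have hx5 := hQm (k + 1) (max (k + 1) (j + 1)) (le_max_left _ _) hx4
  exact ((σ (max (k + 1) (j + 1))).2.2 _ hx5).2.2 (F j) (hsm (j + 1) _ (le_max_right _ _) (hFs j))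

theorem fusion [DecidableEq Ω] {I : Set Λ} {W : Set Ω} {B : Λ → Ω → Set ℕ} (hI : I.Countable)
    (hW : W.Countable) (h : UC I W B) {g : Ω} (hg : g ∉ W) {w : Ω} (hw : w ∈ W) (d : ℕ → Ω)
    (hd : ∀ n, d n ∈ W) (hev : ∀ i ∈ I, ∀ x ∈ B i w, ∃ N, ∀ n, N ≤ n → x ∈ B i (d n)) :
    ∃ F : ℕ → ℕ, StrictMono F ∧
      UC I (insert g W) (upd B g (fun i => {x | x ∈ B i w ∧ ∀ k, x ∈ B i (d (F k))})) := by
  rcases I.eq_empty_or_nonempty with hI0 | hI0
  · subst hI0
    exact ⟨id, strictMono_id, fun a e _ _ _ i hi => absurd hi (Set.notMem_empty i)⟩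
  have : Countable I := hI.to_subtype
  have : Countable W := hW.to_subtype
  have : Nonempty I := hI0.to_subtype
  obtain ⟨ρ, hρ⟩ := exists_surjective_nat (Finset W × Finset W × I × ℕ)
  obtain ⟨F, hF, hprom⟩ := Fusion_seq hev (fun k => (ρ k).1.image Subtype.val)
    (fun k => (ρ k).2.1.image Subtype.val) (fun k => ((ρ k).2.2.1 : Λ)) (fun k => (ρ k).2.2.1.2)
    (fun k => (ρ k).2.2.2)
  refine ⟨F, hF, ?_⟩
  intro a e ha he hadm i hi
  have hBg : ∀ j, upd B g (fun i => {x | x ∈ B i w ∧ ∀ k, x ∈ B i (d (F k))}) j g =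
      {x | x ∈ B j w ∧ ∀ k, x ∈ B j (d (F k))} := fun j => if_pos rfl
  have hBn : ∀ j u, u ≠ g → upd B g (fun i => {x | x ∈ B i w ∧ ∀ k, x ∈ B i (d (F k))}) j u = B j u :=
    fun j u hu => if_neg hu
  have haW : ∀ u ∈ a, u ≠ g → u ∈ W := fun u hu hne => (Set.mem_insert_iff.1 (ha hu)).resolve_left hne
  have heW : ∀ u ∈ e, u ≠ g → u ∈ W := fun u hu hne => (Set.mem_insert_iff.1 (he hu)).resolve_left hne
  by_cases hga : g ∈ a
  · have hge : g ∉ e := by
      intro hge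
      exact hadm g hge fun j _ x hx => hx g hga
    have hne : ∀ f ∈ e, f ≠ g := fun f hf h0 => hge (h0 ▸ hf)
    have hadm2 : ∀ s : Finset ℕ, (∀ l ∈ s, l ∈ Set.range F) →
        Adm I B (a.erase g ∪ insert w (s.image d)) e := by
      intro s hs f hf hent
      refine hadm f hf fun j hj x hx => ?_
      have hxg := hx g hga
      rw [hBg] at hxg
      rw [hBn j f (hne f hf)]
      refine hent j hj x fun u hu => ?_
      rcases Finset.mem_union.1 hu with hu | hu
      · have hu2 := Finset.mem_erase.1 hu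
        have := hx u hu2.2
        rwa [hBn j u hu2.1] at this
      · rcases Finset.mem_insert.1 hu with rfl | hu
        · exact hxg.1
        · obtain ⟨l, hl, rfl⟩ := Finset.mem_image.1 hu
          obtain ⟨k, rfl⟩ := hs l hl
          exact hxg.2 k
    refine Set.infinite_of_forall_exists_gt fun m => ?_
    have hsub : ∀ b : Finset Ω, (∀ u ∈ b, u ∈ W) → ∃ b' : Finset W, b'.image Subtype.val = b := by
      intro b hb
      refine ⟨b.attach.image fun u => ⟨u.1, hb u.1 u.2⟩, ?_⟩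
      ext u
      simp only [Finset.mem_image, Finset.mem_attach, true_and, Subtype.exists]
      constructor
      · rintro ⟨v, hv, ⟨u', hu', h0⟩, rfl⟩
        have := congrArg Subtype.val h0
        simp only at this
        rw [← this]
        exact hu'
      · intro hu
        exact ⟨u, hb u hu, ⟨u, hu, rfl⟩, rfl⟩
    obtain ⟨a', ha'⟩ := hsub (a.erase g) fun u hu =>
      haW u (Finset.mem_erase.1 hu).2 (Finset.mem_erase.1 hu).1
    obtain ⟨e', he'⟩ := hsub e fun u hu => heW u hu (hne u hu)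
    obtain ⟨k, hk⟩ := hρ (a', e', ⟨i, hi⟩, m)
    obtain ⟨s, hs1, hs2⟩ := hprom k
    simp only [hk, ha', he'] at hs2
    have hinf := h (a.erase g ∪ insert w (s.image d)) e (by
      intro u hu
      rcases Finset.mem_union.1 (Finset.mem_coe.1 hu) with hu | hu
      · exact haW u (Finset.mem_erase.1 hu).2 (Finset.mem_erase.1 hu).1
      · rcases Finset.mem_insert.1 hu with rfl | hu
        · exact hw
        · obtain ⟨l, _, rfl⟩ := Finset.mem_image.1 hu
          exact hd l) (fun u hu => heW u hu (hne u hu)) (hadm2 s hs1) i hi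
    obtain ⟨y, hy1, hy2⟩ := hinf.exists_gt m
    obtain ⟨x, hx1, hx2, hx3, hx4⟩ := hs2 ⟨y, hy2, hy1⟩
    refine ⟨x, ⟨fun u hu => ?_, fun f hf => ?_⟩, hx1⟩
    · by_cases hug : u = g
      · rw [hug, hBg]
        exact ⟨hx3, hx4⟩
      · rw [hBn i u hug]
        exact hx2.1 u (Finset.mem_union_left _ (Finset.mem_erase.2 ⟨hug, hu⟩))
    · rw [hBn i f (hne f hf)]
      exact hx2.2 f hf
  · have hna : ∀ u ∈ a, u ≠ g := fun u hu h0 => hga (h0 ▸ hu)
    have haW' : (a : Set Ω) ⊆ W := fun u hu => haW u hu (hna u hu)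
    have hEnt : ∀ f, f ≠ g → Ent I B a f →
        Ent I (upd B g (fun i => {x | x ∈ B i w ∧ ∀ k, x ∈ B i (d (F k))})) a f := by
      intro f hf hent j hj x hx
      rw [hBn j f hf]
      refine hent j hj x fun u hu => ?_
      have := hx u hu
      rwa [hBn j u (hna u hu)] at this
    by_cases hge : g ∈ e
    · have h1 := hadm g hge
      have h2 : ∃ j ∈ I, ∃ x, (∀ u ∈ a, x ∈ B j u) ∧
          ¬ (x ∈ B j w ∧ ∀ k, x ∈ B j (d (F k))) := by
        by_contra hcon
        push Not at hcon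
        refine h1 fun j hj x hx => ?_
        rw [hBg]
        have hx2 : ∀ u ∈ a, x ∈ B j u := by
          intro u hu
          have := hx u hu
          rwa [hBn j u (hna u hu)] at this
        exact hcon j hj x hx2
      obtain ⟨j, hj, x, hx1, hx2⟩ := h2
      have h3 : ∃ u ∈ W, x ∉ B j u ∧ ∀ i y, (y ∈ B i w ∧ ∀ k, y ∈ B i (d (F k))) → y ∈ B i u := by
        by_cases hxw : x ∈ B j w
        · have h4 : ¬ ∀ k, x ∈ B j (d (F k)) := fun h5 => hx2 ⟨hxw, h5⟩
          push Not at h4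
          obtain ⟨k, hk⟩ := h4
          exact ⟨d (F k), hd _, hk, fun i y hy => hy.2 k⟩
        · exact ⟨w, hw, hxw, fun i y hy => hy.1⟩
      obtain ⟨u, huW, hxu, hCu⟩ := h3
      have h5 : Adm I B a (insert u (e.erase g)) := by
        intro f hf hent
        rcases Finset.mem_insert.1 hf with rfl | hf
        · exact hxu (hent j hj x hx1)
        · have hf2 := Finset.mem_erase.1 hf
          exact hadm f hf2.2 (hEnt f hf2.1 hent)
      have h6 := h a (insert u (e.erase g)) haW' (by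
        intro f hf
        rcases Finset.mem_insert.1 (Finset.mem_coe.1 hf) with rfl | hf
        · exact huW
        · exact heW f (Finset.mem_erase.1 hf).2 (Finset.mem_erase.1 hf).1) h5 i hi
      refine h6.mono fun y hy => ⟨fun v hv => ?_, fun f hf => ?_⟩
      · rw [hBn i v (hna v hv)]
        exact hy.1 v hv
      · by_cases hfg : f = g
        · rw [hfg, hBg]
          intro hyC
          exact hy.2 u (Finset.mem_insert_self _ _) (hCu i y hyC)
        · rw [hBn i f hfg]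
          exact hy.2 f (Finset.mem_insert_of_mem (Finset.mem_erase.2 ⟨hfg, hf⟩))
    · have hne : ∀ f ∈ e, f ≠ g := fun f hf h0 => hge (h0 ▸ hf)
      have h5 : Adm I B a e := fun f hf hent => hadm f hf (hEnt f (hne f hf) hent)
      have h6 := h a e haW' (fun u hu => heW u hu (hne u hu)) h5 i hi
      refine h6.mono fun y hy => ⟨fun v hv => ?_, fun f hf => ?_⟩
      · rw [hBn i v (hna v hv)]
        exact hy.1 v hv
      · rw [hBn i f (hne f hf)]
        exact hy.2 f hf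

end Pool.Agent.Lib.MP_a6d962_lc.Cs
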