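import Pool.Agent.Lib.MP_a6d962_lc.Cs.Poset
import Pool.Agent.Lib.MP_a6d962_lc.Cs.Fusion

/-!
# The main density argument

`S w p` stands for: the condition `p` forces that `w` belongs to a given uncountable set.

STEP.  For every `p` there is `p' ≤ p` such that for every finite set `Q : Finset (Λ × ℕ)` with `y.1 ∈ p.I` for `y ∈ Q`, writing
`G r := ∃ d, d ∉ p.W ∧ d ∈ r.W ∧ S d r ∧ ∀ y ∈ Q, y.1 ∈ r.I ∧ y.2 ∈ r.B y.1 d`, either `G p'` or no `r ≤ p'` satisfies `G r`.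
Proof: the set of these `Q` is countable and nonempty; for each `Q` the set `{r | G r ∨ ∀ r' ≤ r, ¬ G r'}` is open and
dense (`G` is preserved by extensions because `B` does not change); use `Cond.distr`.

Let `p 0 = p0` and `p (n+1)` be given by STEP from `p n`.  Let `q` be given by `Cond.glb`, so `q.I = ⋃ (p n).I`, `q.W = ⋃ (p n).W`.
By `hunc` there are `q' ≤ q` and `w ∉ q.W` with `w ∈ q'.W`, `S w q'`.  Let `q1 = q'.restrict q.I (insert w q.W)`; `q1 ≤ q`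
(`q'.B = q.B` on `q.I × q.W`), and `q1.B = q'.B`.

CLAIM.  If `k : ℕ` and `Q` is a finite set of pairs with `y.1 ∈ (p k).I` and `y.2 ∈ q'.B y.1 w` for `y ∈ Q`, then there is `d ∉ (p k).W`,
`d ∈ (p (k+1)).W`, with `S d (p (k+1))` and `y.2 ∈ (p (k+1)).B y.1 d` for `y ∈ Q`: `q' ≤ p (k+1)` satisfies `G` with `d = w`, so the second
alternative of STEP fails.  Consequently `d ∈ q.W`, `S d q`, and `y.2 ∈ q.B y.1 d` for `y ∈ Q`.

The set of all pairs `(i, x)` with `i ∈ q.I`, `x ∈ q'.B i w` is countable: let `Q 0 ⊆ Q 1 ⊆ ...` be finite sets with this union.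
Choose a strictly increasing sequence `k 0 < k 1 < ...` such that `y.1 ∈ (p (k m)).I` for all `y ∈ Q m` (`Q m` is finite and `(p n).I`
increases to `q.I`); let `d m ∉ (p (k m)).W`, `d m ∈ (p (k m + 1)).W` be given by the claim for `k m` and `Q m`.  For `l < m`:
`d l ∈ (p (k l + 1)).W ⊆ (p (k m)).W`, so `d l ≠ d m`: `d` is injective.  `S (d m) q`, `d m ∈ q.W`, and for `i ∈ q.I`, `x ∈ q1.B i w` we have
`(i, x) ∈ Q m` for large `m` and so `x ∈ q1.B i (d m)` for large `m`.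

Take `g ∉ q1.W` (`Cond.exists_fresh`) and apply `fusion` to `q1`, `w`, `d`: it gives `F` and, with `Cond.ext_of`, a condition `q2 ≤ q1 ≤ q` with
`q2.I = q.I`, `q2.W = insert g q1.W`, `q2.B i g = {x | x ∈ q1.B i w ∧ ∀ k, x ∈ q1.B i (d (F k))}`.  Put `h k = d (F k)`: it is injective,
`S (h k) q2` (by `hS`), `h k ∈ q2.W`, and `q2.B i g ⊆ q1.B i (h k) = q2.B i (h k)` for `i ∈ q2.I`.
-/

namespace Pool.Agent.Lib.MP_a6d962_lc.Cs

variable {Λ Ω : Type 1}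

private theorem TThree_mono [Uncountable Ω] (S : Ω → Cond Λ Ω → Prop)
    (hS : ∀ w p q, S w p → q ≤ p → S w q) (p : Cond Λ Ω) (Q : Finset (Λ × ℕ)) (r r' : Cond Λ Ω)
    (h : ∃ d, d ∉ p.W ∧ d ∈ r.W ∧ S d r ∧ ∀ y ∈ Q, y.1 ∈ r.I ∧ y.2 ∈ r.B y.1 d) (hr : r' ≤ r) :
    ∃ d, d ∉ p.W ∧ d ∈ r'.W ∧ S d r' ∧ ∀ y ∈ Q, y.1 ∈ r'.I ∧ y.2 ∈ r'.B y.1 d := by
  obtain ⟨d, h1, h2, h3, h4⟩ := h
  refine ⟨d, h1, hr.2.1 h2, hS d r r' h3 hr, fun y hy => ?_⟩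
  obtain ⟨h5, h6⟩ := h4 y hy
  refine ⟨hr.1 h5, ?_⟩
  rw [hr.2.2 y.1 h5 d h2]
  exact h6

private theorem TThree_step [Uncountable Ω] (S : Ω → Cond Λ Ω → Prop)
    (hS : ∀ w p q, S w p → q ≤ p → S w q) (p : Cond Λ Ω) :
    ∃ p', p' ≤ p ∧ ∀ Q : Finset (Λ × ℕ), (∀ y ∈ Q, y.1 ∈ p.I) →
      ((∃ d, d ∉ p.W ∧ d ∈ p'.W ∧ S d p' ∧ ∀ y ∈ Q, y.1 ∈ p'.I ∧ y.2 ∈ p'.B y.1 d) ∨
        ∀ r, r ≤ p' → ¬ ∃ d, d ∉ p.W ∧ d ∈ r.W ∧ S d r ∧ ∀ y ∈ Q, y.1 ∈ r.I ∧ y.2 ∈ r.B y.1 d) := by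
  have hc : {Q : Finset (Λ × ℕ) | ∀ y ∈ Q, y.1 ∈ p.I}.Countable := by
    have h1 : (p.I ×ˢ (Set.univ : Set ℕ)).Countable := p.cI.prod Set.countable_univ
    have h2 := Set.countable_ofPred_finite_subset h1
    refine (h2.preimage_of_injOn (f := fun Q : Finset (Λ × ℕ) => (Q : Set (Λ × ℕ)))
      (fun _ _ _ _ h => Finset.coe_injective h)).mono ?_
    intro Q hQ
    exact ⟨Q.finite_toSet, fun y hy => ⟨hQ y hy, Set.mem_univ _⟩⟩
  obtain ⟨e, he⟩ := hc.exists_eq_range ⟨∅, fun y hy => absurd hy (Finset.notMem_empty y)⟩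
  obtain ⟨q, hq, hq2⟩ := Cond.distr (fun n r =>
      ((∃ d, d ∉ p.W ∧ d ∈ r.W ∧ S d r ∧ ∀ y ∈ e n, y.1 ∈ r.I ∧ y.2 ∈ r.B y.1 d) ∨
        ∀ r', r' ≤ r → ¬ ∃ d, d ∉ p.W ∧ d ∈ r'.W ∧ S d r' ∧ ∀ y ∈ e n, y.1 ∈ r'.I ∧ y.2 ∈ r'.B y.1 d))
    (by
      intro n r r' h hr
      rcases h with h | h
      · exact Or.inl (TThree_mono S hS p (e n) r r' h hr)
      · exact Or.inr fun r'' h'' => h r'' (h''.trans hr))
    (by
      intro n r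
      by_cases h : ∃ r', r' ≤ r ∧ ∃ d, d ∉ p.W ∧ d ∈ r'.W ∧ S d r' ∧ ∀ y ∈ e n, y.1 ∈ r'.I ∧ y.2 ∈ r'.B y.1 d
      · obtain ⟨r', h1, h2⟩ := h
        exact ⟨r', h1, Or.inl h2⟩
      · exact ⟨r, le_rfl, Or.inr fun r' h1 h2 => h ⟨r', h1, h2⟩⟩) p
  refine ⟨q, hq, fun Q hQ => ?_⟩
  have hQ' : Q ∈ Set.range e := he ▸ hQ
  obtain ⟨n, rfl⟩ := hQ'
  exact hq2 n

private theorem TThree_enum {α : Type 1} (Z : Set α) (hZ : Z.Countable) :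
    ∃ e : ℕ → Finset α, (∀ m, ∀ y ∈ e m, y ∈ Z) ∧ ∀ y ∈ Z, ∃ N, ∀ m, N ≤ m → y ∈ e m := by
  classical
  rcases Z.eq_empty_or_nonempty with h | h
  · refine ⟨fun _ => ∅, fun m y hy => absurd hy (Finset.notMem_empty y), fun y hy => ?_⟩
    rw [h] at hy
    exact hy.elim
  · obtain ⟨f, hf⟩ := hZ.exists_eq_range h
    refine ⟨fun m => (Finset.range m).image f, fun m y hy => ?_, fun y hy => ?_⟩
    · obtain ⟨n, -, rfl⟩ := Finset.mem_image.mp hy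
      rw [hf]
      exact Set.mem_range_self n
    · rw [hf] at hy
      obtain ⟨n, rfl⟩ := hy
      exact ⟨n + 1, fun m hm => Finset.mem_image.mpr ⟨n, Finset.mem_range.mpr hm, rfl⟩⟩

private theorem TThree_bd (p : ℕ → Cond Λ Ω) (hp : ∀ n m, n ≤ m → p m ≤ p n) (q : Cond Λ Ω)
    (hqI : q.I = ⋃ n, (p n).I) (Q : Finset (Λ × ℕ)) (hQ : ∀ y ∈ Q, y.1 ∈ q.I) (b : ℕ) :
    ∃ k, b ≤ k ∧ ∀ y ∈ Q, y.1 ∈ (p k).I := by
  classical
  induction Q using Finset.induction_on with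
  | empty => exact ⟨b, le_rfl, fun y hy => absurd hy (Finset.notMem_empty y)⟩
  | insert a Q ha ih =>
      obtain ⟨k, hk, hk2⟩ := ih fun y hy => hQ y (Finset.mem_insert_of_mem hy)
      have h1 := hQ a (Finset.mem_insert_self a Q)
      rw [hqI, Set.mem_iUnion] at h1
      obtain ⟨n, hn⟩ := h1
      refine ⟨max k n, hk.trans (le_max_left _ _), fun y hy => ?_⟩
      rcases Finset.mem_insert.mp hy with h | h
      · rw [h]
        exact (hp n (max k n) (le_max_right _ _)).1 hn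
      · exact (hp k (max k n) (le_max_left _ _)).1 (hk2 y h)

theorem Cond.bounded [Uncountable Ω] (S : Ω → Cond Λ Ω → Prop)
    (hS : ∀ w p q, S w p → q ≤ p → S w q) (p0 : Cond Λ Ω)
    (hunc : ∀ q, q ≤ p0 → ∀ V : Set Ω, V.Countable → ∃ q', q' ≤ q ∧ ∃ w, w ∉ V ∧ w ∈ q'.W ∧ S w q') :
    ∃ q, q ≤ p0 ∧ ∃ h : ℕ → Ω, Function.Injective h ∧ (∀ k, h k ∈ q.W ∧ S (h k) q) ∧
      ∃ g ∈ q.W, ∀ i ∈ q.I, ∀ k, q.B i g ⊆ q.B i (h k) := by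
  classical
  choose st hst1 hst2 using TThree_step S hS
  let p : ℕ → Cond Λ Ω := fun n => Nat.rec p0 (fun _ x => st x) n
  have hp0 : p 0 = p0 := rfl
  have hps : ∀ n, p (n + 1) = st (p n) := fun n => rfl
  have hpl : ∀ n, p (n + 1) ≤ p n := fun n => hst1 (p n)
  have hanti : ∀ n m, n ≤ m → p m ≤ p n := fun n m h => antitone_nat_of_succ_le hpl h
  obtain ⟨q, hq, hqI, hqW⟩ := Cond.glb p hpl
  obtain ⟨q', hq', w, hw, hwq', hSw⟩ := hunc q (hq 0) q.W q.cW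
  have hI' : q.I ⊆ q'.I := hq'.1
  have hW' : insert w q.W ⊆ q'.W := Set.insert_subset hwq' hq'.2.1
  set q1 := q'.restrict q.I (insert w q.W) hI' hW' with hq1
  have hq1I : q1.I = q.I := rfl
  have hq1W : q1.W = insert w q.W := rfl
  have hq1B : q1.B = q'.B := rfl
  have hq1q : q1 ≤ q := ⟨subset_rfl, Set.subset_insert _ _, fun i hi d hd => hq'.2.2 i hi d hd⟩
  have claim : ∀ (k : ℕ) (Q : Finset (Λ × ℕ)), (∀ y ∈ Q, y.1 ∈ (p k).I) → (∀ y ∈ Q, y.2 ∈ q'.B y.1 w) →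
      ∃ d, d ∉ (p k).W ∧ d ∈ (p (k + 1)).W ∧ S d (p (k + 1)) ∧
        ∀ y ∈ Q, y.1 ∈ (p (k + 1)).I ∧ y.2 ∈ (p (k + 1)).B y.1 d := by
    intro k Q hQ1 hQ2
    rcases hst2 (p k) Q hQ1 with h | h
    · exact h
    · exfalso
      refine h q' (hq'.trans (hq (k + 1))) ⟨w, fun hc => hw ((hq k).2.1 hc), hwq', hSw, fun y hy => ?_⟩
      exact ⟨hq'.1 ((hq k).1 (hQ1 y hy)), hQ2 y hy⟩
  have hZc : {y : Λ × ℕ | y.1 ∈ q.I ∧ y.2 ∈ q'.B y.1 w}.Countable := by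
    refine (q.cI.prod (Set.countable_univ (α := ℕ))).mono ?_
    intro y hy
    exact ⟨hy.1, Set.mem_univ _⟩
  obtain ⟨Q, hQ1, hQ2⟩ := TThree_enum _ hZc
  have hbd : ∀ m b, ∃ k, b ≤ k ∧ ∀ y ∈ Q m, y.1 ∈ (p k).I :=
    fun m b => TThree_bd p hanti q hqI (Q m) (fun y hy => (hQ1 m y hy).1) b
  choose kf hkf1 hkf2 using hbd
  let kk : ℕ → ℕ := fun m => Nat.rec (kf 0 0) (fun m x => kf (m + 1) (x + 1)) m
  have hkk : ∀ m, kk m < kk (m + 1) := fun m => hkf1 (m + 1) (kk m + 1)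
  have hkmono : StrictMono kk := strictMono_nat_of_lt_succ hkk
  have hkI : ∀ m, ∀ y ∈ Q m, y.1 ∈ (p (kk m)).I := by
    intro m
    cases m with
    | zero => exact hkf2 0 0
    | succ m => exact hkf2 (m + 1) (kk m + 1)
  have hcl := fun m => claim (kk m) (Q m) (hkI m) (fun y hy => (hQ1 m y hy).2)
  choose d hd1 hd2 hd3 hd4 using hcl
  have hdlt : ∀ l m, l < m → d l ≠ d m := by
    intro l m hlm he
    have h1 : kk l + 1 ≤ kk m := hkmono hlm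
    have h2 := (hanti _ _ h1).2.1 (hd2 l)
    rw [he] at h2
    exact hd1 m h2
  have hdinj : Function.Injective d := by
    intro l m he
    by_contra hne
    rcases lt_or_gt_of_ne hne with h | h
    · exact hdlt l m h he
    · exact hdlt m l h he.symm
  have hdq : ∀ m, d m ∈ q.W := fun m => (hq (kk m + 1)).2.1 (hd2 m)
  have hdS : ∀ m, S (d m) q := fun m => hS _ _ _ (hd3 m) (hq (kk m + 1))
  have hdB : ∀ m, ∀ y ∈ Q m, y.2 ∈ q1.B y.1 (d m) := by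
    intro m y hy
    obtain ⟨h1, h2⟩ := hd4 m y hy
    rw [hq1q.2.2 y.1 ((hq (kk m + 1)).1 h1) (d m) (hdq m), (hq (kk m + 1)).2.2 y.1 h1 (d m) (hd2 m)]
    exact h2
  obtain ⟨g, hg⟩ := q1.exists_fresh
  obtain ⟨F, hF, hUC⟩ := fusion q1.cI q1.cW q1.uc hg (w := w) (by rw [hq1W]; exact Set.mem_insert _ _) d
    (fun n => hq1q.2.1 (hdq n)) (by
      intro i hi x hx
      obtain ⟨N, hN⟩ := hQ2 (i, x) ⟨hi, hx⟩
      exact ⟨N, fun n hn => hdB n (i, x) (hN n hn)⟩)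
  obtain ⟨q2, hq2, h2I, h2W, h2B⟩ := q1.ext_of hg hUC
  refine ⟨q2, hq2.trans (hq1q.trans (hq 0)), fun k => d (F k), hdinj.comp hF.injective, fun k => ?_,
    g, ?_, ?_⟩
  · exact ⟨hq2.2.1 (hq1q.2.1 (hdq (F k))), hS _ _ _ (hdS (F k)) (hq2.trans hq1q)⟩
  · rw [h2W]
    exact Set.mem_insert _ _
  · intro i hi k x hx
    rw [h2B i] at hx
    rw [h2I] at hi
    rw [hq2.2.2 i hi (d (F k)) (hq1q.2.1 (hdq (F k)))]
    exact hx.2 k

end Pool.Agent.Lib.MP_a6d962_lc.Cs
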