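import Pool.Agent.Lib.MP_a6d962_lc.Cs.Nm
import Pool.Agent.Lib.MP_a6d962_lc.Cs.TThree

/-!
# Uncountable subsets of `W` contain infinite bounded subsets

`fBounded3 3 2 1 0 = .fall (fimp (dSub 0 2) (fimp (.fneg (fInj 0 4)) (fex (.fand (dFun 0 5 1) (.fand (fInjRel 0) (fBdd 5 4 3 2 0))))))`.

PROOF.  Let `τ` be a name and let `p1 ≤ p` force `τ ⊆ chk b` and `¬ HasInj τ ω`.  We have to find for every `p0 ≤ p1` (`forces_ex`) some
`q ≤ p0` and a name `η` with `Forces (.fand (dFun 0 5 1) ...) (cons η (cons τ (vN a b))) q`.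
Put `S w q := MemF (chk w.1) τ q` (`w : Set.Iio b`).
(1) The hypothesis `hunc` of `Cond.bounded`: let `q ≤ p0` and `V ⊆ Set.Iio b` countable.  Suppose that there are no `q' ≤ q`, `w ∉ V` with `w ∈ q'.W` and
`S w q'`.  Then (`Cond.dense_W`, `hS`) there are no `q' ≤ q`, `w ∉ V` with `S w q'`.  Let `e : V → ℕ` be injective, extended by `0` to all `w`.
Let `ε = relN (ι := V) (fun w => chk w) (fun w => natN (e w)) (fun w p => MemF (chk w) τ p)`.  In every `Mod U` with `U.Has q` the set `cl ε` is an injective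
function from `cl τ` to `ω`: every element of `cl τ` is, eventually, some `chk w` with `w : Set.Iio b` (as `τ ⊆ chk b` is forced: `ev_memF_chk`) and then
`w ∈ V`.  (Use `isApp_relN`, `exists_cl`, `cl_eq`, and for existential statements in `Mod U` argue with `Forces` and `los` as in
`isFun_famN` of `Forcing/Inacc.lean`, which is the model for this proof; perhaps the easiest is to show
`Forces (dFun ..) .. q` and `Forces (fInjRel ..) .. q` through `forces_iff` and the semantic lemmas.)  So `q` forces `HasInj τ ω`, contradiction.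
(2) `Cond.bounded S .. p0` gives `q ≤ p0`, `h : ℕ → Set.Iio b` injective, `S (h k) q`, `h k ∈ q.W`, and `g ∈ q.W` with `q.B i g ⊆ q.B i (h k)` for
`i ∈ q.I`.  Let `η = relN (ι := ULift ℕ) (fun k => natN k.down) (fun k => chk (h k.down).1) (fun _ _ => True)`.  In all `Mod U` with `U.Has q`, `cl η` is an
injective function from `ω` to `cl τ` (`natN_inj`, `chk_inj`, `isApp_relN`).
(3) `fBdd 5 4 3 2 0`: `forces_bex_chk` with `chk g`; then for names `κ`, `δ` and `r ≤ q` with `Forces (dApp ..)`: densely many `s ≤ r` there is `k` with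
`EqF δ (chk (h k)) s` (`forces_dApp`, `relN`, `memF_cn`, `eqF_opN`); replace `δ` by `chk (h k)` (`Forces.congr`), then for `x < a`
(`forces_ball_chk`) and `i = x`: densely many `t ≤ s` have `i ∈ t.I` (`Cond.dense_I`), and
`t` forces `Le3`: by `forces_le3` we need `t.B i g ⊆ t.B i (h k)`: take any `j ∈ q.I` (to have one, replace `p0` first by an extension with `p0.I` nonempty:
`Cond.dense_I`); `t.B j g = q.B j g ⊆ q.B j (h k) = t.B j (h k)`, so the inclusion holds for `i` by `UC.order`.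
-/

namespace Pool.Agent.Lib.MP_a6d962_lc.Cs

open Pool.Agent.Lib.Forcing Pool.Agent.Lib.MP_40b13d_lc

variable {a b : Ordinal.{0}}

private theorem ClD_isFun {P : Type 1} [Preorder P] (U : GenUlt P) {ι : Type 1}
    (α β : ι → Name P) {A : ι → P → Prop} (hA : ∀ i p q, A i p → q ≤ p → A i q) (σ τ : Name P)
    {q : P} (hU : U.Has q)
    (h1 : ∀ r, r ≤ q → ∀ i, A i r → MemF (α i) σ r ∧ MemF (β i) τ r)
    (h2 : ∀ ρ, ∀ r, r ≤ q → MemF ρ σ r → ∃ s, s ≤ r ∧ ∃ i, A i s ∧ EqF ρ (α i) s)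
    (h3 : ∀ i i', ∀ r, r ≤ q → A i r → A i' r → EqF (α i) (α i') r → EqF (β i) (β i') r) :
    IsFun (ModE U) (U.cl (relN α β A)) (U.cl σ) (U.cl τ) := by
  constructor
  · intro z hz
    obtain ⟨ζ, rfl⟩ := exists_cl z
    rw [modE_cl, relN, ev_memF_cn hA] at hz
    have h4 : Sat (ModE U) (fbex 1 (fbex 3 (dOPair 2 1 0)))
        (fun i => U.cl (cons ζ (cons σ (fun _ => τ)) i)) := by
      rw [los]
      refine GenUlt.Ev.imp2 hU hz ?_
      rintro p hp ⟨i, h5, h6⟩
      rw [forces_iff]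
      intro V hV
      simp only [sat_bex, sat_dOPair, cons_zero, cons_one, cons_two, cons_three]
      obtain ⟨h7, h8⟩ := h1 p hp i h5
      refine ⟨V.cl (α i), memF_iff_models.1 h7 V hV, V.cl (β i),
        memF_iff_models.1 h8 V hV, ?_⟩
      rw [isOPair_iff]
      exact eqF_iff_models.1 h6 V hV
    simp only [sat_bex, sat_dOPair, cons_zero, cons_one, cons_two, cons_three] at h4
    obtain ⟨x, hx, y, hy, h4⟩ := h4
    exact ⟨x, y, hx, hy, h4⟩
  · intro x hx
    obtain ⟨ρ, rfl⟩ := exists_cl x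
    rw [modE_cl] at hx
    apply existsUnique_of_exists_of_unique
    · have h4 : Sat (ModE U) (fbex 1 (dApp 3 1 0))
          (fun i => U.cl (cons ρ (cons τ (fun _ => relN α β A)) i)) := by
        rw [los]
        refine GenUlt.Ev.imp2 hU hx ?_
        intro p hp h5
        apply Forces.dense
        intro r hr
        obtain ⟨s, hs, i, h6, h7⟩ := h2 ρ r (hr.trans hp) (h5.mono hr)
        refine ⟨s, hs, ?_⟩
        rw [forces_iff]
        intro V hV
        simp only [sat_bex, sat_dApp, cons_zero, cons_one, cons_two, cons_three]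
        obtain ⟨-, h8⟩ := h1 s (hs.trans (hr.trans hp)) i h6
        refine ⟨V.cl (β i), memF_iff_models.1 h8 V hV, ?_⟩
        rw [isApp_relN V α β hA]
        exact GenUlt.Ev.imp hV fun t ht => ⟨i, hA _ _ _ h6 ht, h7.mono ht, EqF.refl _ _⟩
      simp only [sat_bex, sat_dApp, cons_zero, cons_one, cons_two, cons_three] at h4
      exact h4
    · rintro y y' ⟨_, h4⟩ ⟨_, h5⟩
      obtain ⟨υ, rfl⟩ := exists_cl y
      obtain ⟨υ', rfl⟩ := exists_cl y'
      rw [isApp_relN U α β hA] at h4 h5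
      rw [cl_eq]
      refine GenUlt.Ev.imp3 hU h4 h5 ?_
      rintro p hp ⟨i, h6, h7, h8⟩ ⟨i', h9, h10, h11⟩
      exact (h8.trans (h3 i i' p hp h6 h9 (h7.symm.trans h10))).trans h11.symm

private theorem ClD_inj {P : Type 1} [Preorder P] (U : GenUlt P) {ι : Type 1}
    (α β : ι → Name P) {A : ι → P → Prop} (hA : ∀ i p q, A i p → q ≤ p → A i q)
    {q : P} (hU : U.Has q)
    (h : ∀ i i', ∀ r, r ≤ q → A i r → A i' r → EqF (β i) (β i') r → EqF (α i) (α i') r) :
    ∀ x x' y, IsApp (ModE U) (U.cl (relN α β A)) x y → IsApp (ModE U) (U.cl (relN α β A)) x' y →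
      x = x' := by
  intro x x' y h1 h2
  obtain ⟨σ, rfl⟩ := exists_cl x
  obtain ⟨σ', rfl⟩ := exists_cl x'
  obtain ⟨υ, rfl⟩ := exists_cl y
  rw [isApp_relN U α β hA] at h1 h2
  rw [cl_eq]
  refine GenUlt.Ev.imp3 hU h1 h2 ?_
  rintro p hp ⟨i, h6, h7, h8⟩ ⟨i', h9, h10, h11⟩
  exact (h7.trans (h i i' p hp h6 h9 (h8.symm.trans h11))).trans h10.symm

private theorem ClD_unc [Nonempty (Set.Iio a)] {τ : Name (PP a b)} {p1 : PP a b}
    (hsub : SubF τ (chk b) p1) (hinj : ∀ q, q ≤ p1 → ¬ Forces (fInj 0 4) (cons τ (vN a b)) q)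
    (q : PP a b) (hq : q ≤ p1) (V : Set (Set.Iio b)) (hV : V.Countable) :
    ∃ q', q' ≤ q ∧ ∃ w, w ∉ V ∧ w ∈ q'.W ∧ MemF (chk w.1) τ q' := by
  by_contra hcon
  have hno : ∀ q', q' ≤ q → ∀ w : Set.Iio b, MemF (chk w.1) τ q' → w ∈ V := by
    intro q' hq' w hw
    by_contra hwV
    obtain ⟨q2, h1, h2⟩ := q'.dense_W w
    exact hcon ⟨q2, h1.trans hq', w, hwV, h2, hw.mono h1⟩
  obtain ⟨e, he⟩ := Set.countable_iff_exists_injOn.1 hV
  apply hinj q hq
  rw [forces_iff]
  intro U hU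
  rw [sat_fInj]
  have hA : ∀ (w : Set.Iio b) (p q : PP a b), MemF (chk w.1) τ p → q ≤ p → MemF (chk w.1) τ q :=
    fun w p q h hq => h.mono hq
  refine ⟨U.cl (relN (ι := Set.Iio b) (fun w => chk w.1) (fun w => natN (e w))
    (fun w p => MemF (chk w.1) τ p)), ?_, ?_⟩
  · refine ClD_isFun U _ _ hA τ omegaN hU ?_ ?_ ?_
    · intro r _ w hw
      exact ⟨hw, natN_mem_omegaN _ _⟩
    · intro ρ r hr h1
      obtain ⟨s, hs, x, hx, h2⟩ := memF_chk.1 (hsub ρ r (hr.trans hq) h1) r le_rfl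
      exact ⟨s, hs, ⟨x, hx⟩, MemF.congr_left h2 (h1.mono hs), h2⟩
    · intro w w' r _ _ _ h3
      have h4 : w = w' := Subtype.ext (chk_inj h3)
      rw [h4]
      exact EqF.refl _ _
  · refine ClD_inj U _ _ hA hU ?_
    intro w w' r hr h1 h2 h3
    have h4 : e w = e w' := natN_inj h3
    have h5 : w = w' := he (hno r hr w h1) (hno r hr w' h2) h4
    rw [h5]
    exact EqF.refl _ _

private theorem ClD_bdd [Nonempty (Set.Iio a)] {τ : Name (PP a b)} {q : PP a b}
    {h : ℕ → Set.Iio b} {i0 : Set.Iio a} (hi0 : i0 ∈ q.I) {g : Set.Iio b} (hg : g ∈ q.W)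
    (hW : ∀ k, h k ∈ q.W) (hB : ∀ k, q.B i0 g ⊆ q.B i0 (h k)) :
    Forces (fBdd 5 4 3 2 0) (cons (relN (ι := ULift.{1} ℕ) (fun k => natN k.down)
      (fun k => chk (h k.down).1) (fun _ _ => True)) (cons τ (vN a b))) q := by
  generalize hη : relN (P := PP a b) (ι := ULift.{1} ℕ) (fun k => natN k.down)
      (fun k => chk (h k.down).1) (fun _ _ => True) = η
  rw [fBdd, forces_bex_chk (o := b) rfl]
  intro q1 hq1
  refine ⟨q1, le_rfl, g.1, g.2, ?_⟩
  rw [forces_all]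
  intro κ
  rw [forces_all]
  intro δ
  rw [forces_imp]
  intro r hr happ
  rw [forces_dApp] at happ
  have happ' : MemF (opN κ δ) η r := happ
  apply Forces.dense
  intro s0 hs0
  rw [← hη, relN, memF_cn (fun _ _ _ h _ => h)] at happ'
  obtain ⟨s, hs, k, -, hk⟩ := happ' s0 hs0
  rw [eqF_opN] at hk
  refine ⟨s, hs, ?_⟩
  refine Forces.congr_cons hk.2.symm ?_
  rw [forces_ball_chk (o := a) rfl]
  intro x hx
  apply Forces.dense
  intro t0 ht0
  obtain ⟨t, ht, hxt⟩ := t0.dense_I ⟨x, hx⟩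
  refine ⟨t, ht, ?_⟩
  have htq : t ≤ q := ht.trans (ht0.trans (hs.trans (hs0.trans (hr.trans hq1))))
  have e1 : g ∈ t.W := htq.2.1 hg
  have e2 : h k.down ∈ t.W := htq.2.1 (hW k.down)
  have e3 : i0 ∈ t.I := htq.1 hi0
  refine (forces_le3 (i' := ⟨x, hx⟩) (d' := g) (e' := h k.down) rfl rfl rfl rfl rfl hxt e1 e2).2 ?_
  refine t.uc.order e3 hxt e1 e2 ?_
  rw [htq.2.2 i0 hi0 g hg, htq.2.2 i0 hi0 (h k.down) (hW k.down)]
  exact hB k.down

theorem forces_bounded3 [Nonempty (Set.Iio a)] [Uncountable (Set.Iio b)] (p : PP a b) :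
    Forces (fBounded3 3 2 1 0) (vN a b) p := by
  rw [fBounded3, forces_all]
  intro τ
  rw [forces_imp]
  intro p1 _ hsub
  rw [forces_imp]
  intro p2 hp2 hinj
  rw [forces_ex]
  intro p0 hp0
  rw [forces_dSub] at hsub
  have hsub' : SubF τ (chk b) p2 := SubF.mono (show SubF τ (chk b) p1 from hsub) hp2
  rw [forces_neg] at hinj
  obtain ⟨i0⟩ := ‹Nonempty (Set.Iio a)›
  have : Nonempty (Set.Iio a) := ⟨i0⟩
  obtain ⟨p3, hp3, hi0⟩ := p0.dense_I i0
  obtain ⟨q, hq, h, hh, hS, g, hg, hB⟩ := Cond.bounded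
    (fun (w : Set.Iio b) (q : PP a b) => MemF (chk w.1) τ q)
    (fun w p q h hq => h.mono hq) p3
    (fun q hq V hV => ClD_unc hsub' hinj q (hq.trans (hp3.trans hp0)) V hV)
  refine ⟨q, hq.trans hp3, relN (ι := ULift.{1} ℕ) (fun k => natN k.down)
      (fun k => chk (h k.down).1) (fun _ _ => True), ?_⟩
  have hA : ∀ (k : ULift.{1} ℕ) (p q : PP a b), True → q ≤ p → True := fun _ _ _ h _ => h
  rw [forces_and, forces_and]
  refine ⟨?_, ?_, ?_⟩
  · rw [forces_iff]
    intro U hU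
    rw [sat_dFun]
    refine ClD_isFun U _ _ hA omegaN τ hU ?_ ?_ ?_
    · intro r hr k _
      exact ⟨natN_mem_omegaN _ _, (hS k.down).2.mono hr⟩
    · intro ρ r _ h1
      obtain ⟨s, hs, n, h2⟩ := memF_omegaN.1 h1 r le_rfl
      exact ⟨s, hs, ⟨n⟩, trivial, h2⟩
    · intro k k' r _ _ _ h3
      have h4 : k.down = k'.down := natN_inj h3
      rw [h4]
      exact EqF.refl _ _
  · rw [forces_iff]
    intro U hU
    rw [sat_fInjRel]
    refine ClD_inj U _ _ hA hU ?_
    intro k k' r _ _ _ h3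
    have h4 : h k.down = h k'.down := Subtype.ext (chk_inj h3)
    have h5 : k.down = k'.down := hh h4
    rw [h5]
    exact EqF.refl _ _
  · exact ClD_bdd (hq.1 hi0) hg (fun k => (hS k).1) (fun k => hB i0 (hq.1 hi0) k)

end Pool.Agent.Lib.MP_a6d962_lc.Cs
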