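import Mathlib

/-!
# Combinatorics of the conditions: systems `(I, W, B)` of countably many bases

`B i d` (`i ∈ I`, `d ∈ W`) are subsets of `ℕ`.  `UC I W B`: for finite `a, e ⊆ W` either some
`f ∈ e` satisfies `⋂_{d ∈ a} B i d ⊆ B i f` for all `i ∈ I`, or for every `i ∈ I` the set
`⋂_{d ∈ a} B i d \ ⋃_{f ∈ e} B i f` is infinite.
-/

namespace Pool.Agent.Lib.MP_a6d962_lc.Cs

variable {Λ Ω : Type*}

/-- `⋂_{d ∈ a} b d \ ⋃_{f ∈ e} b f` -/
def cell (b : Ω → Set ℕ) (a e : Finset Ω) : Set ℕ :=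
  {x | (∀ d ∈ a, x ∈ b d) ∧ ∀ f ∈ e, x ∉ b f}

/-- `⋂_{d ∈ a} B i d ⊆ B i f` for all `i ∈ I` -/
def Ent (I : Set Λ) (B : Λ → Ω → Set ℕ) (a : Finset Ω) (f : Ω) : Prop :=
  ∀ i ∈ I, ∀ x, (∀ d ∈ a, x ∈ B i d) → x ∈ B i f

/-- admissible pairs of finite sets -/
def Adm (I : Set Λ) (B : Λ → Ω → Set ℕ) (a e : Finset Ω) : Prop := ∀ f ∈ e, ¬ Ent I B a f

/-- the uniformity condition -/
def UC (I : Set Λ) (W : Set Ω) (B : Λ → Ω → Set ℕ) : Prop :=
  ∀ a e : Finset Ω, ↑a ⊆ W → ↑e ⊆ W → Adm I B a e → ∀ i ∈ I, (cell (B i) a e).Infinite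

/-- add (or change) the sets with index `w` -/
def upd [DecidableEq Ω] (B : Λ → Ω → Set ℕ) (w : Ω) (C : Λ → Set ℕ) : Λ → Ω → Set ℕ :=
  fun i d => if d = w then C i else B i d

theorem mem_cell {b : Ω → Set ℕ} {a e : Finset Ω} {x : ℕ} :
    x ∈ cell b a e ↔ (∀ d ∈ a, x ∈ b d) ∧ ∀ f ∈ e, x ∉ b f := Iff.rfl

theorem cell_anti {b : Ω → Set ℕ} {a e a' e' : Finset Ω} (ha : a ⊆ a') (he : e ⊆ e') :
    cell b a' e' ⊆ cell b a e :=
  fun _ hx => ⟨fun d hd => hx.1 d (ha hd), fun f hf => hx.2 f (he hf)⟩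

theorem cell_congr {b b' : Ω → Set ℕ} {a e : Finset Ω} (ha : ∀ d ∈ a, b d = b' d)
    (he : ∀ f ∈ e, b f = b' f) : cell b a e = cell b' a e := by
  ext x
  simp only [mem_cell]
  refine and_congr (forall₂_congr fun d hd => by rw [ha d hd])
    (forall₂_congr fun f hf => by rw [he f hf])

theorem Ent.mono {I : Set Λ} {B : Λ → Ω → Set ℕ} {a a' : Finset Ω} {f : Ω} (h : Ent I B a f)
    (ha : a ⊆ a') : Ent I B a' f :=
  fun i hi x hx => h i hi x fun d hd => hx d (ha hd)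

theorem Ent.anti {I I' : Set Λ} {B : Λ → Ω → Set ℕ} {a : Finset Ω} {f : Ω} (h : Ent I B a f)
    (hI : I' ⊆ I) : Ent I' B a f :=
  fun i hi x hx => h i (hI hi) x hx

theorem Ent.congr {I : Set Λ} {B B' : Λ → Ω → Set ℕ} {W : Set Ω}
    (hB : ∀ i ∈ I, ∀ d ∈ W, B i d = B' i d) {a : Finset Ω} {f : Ω} (ha : ↑a ⊆ W) (hf : f ∈ W) :
    Ent I B a f ↔ Ent I B' a f := by
  refine forall₂_congr fun i hi => forall_congr' fun x => ?_
  rw [hB i hi f hf]
  refine imp_congr_left (forall₂_congr fun d hd => ?_)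
  rw [hB i hi d (ha hd)]

theorem Adm.anti {I : Set Λ} {B : Λ → Ω → Set ℕ} {a a' e e' : Finset Ω} (h : Adm I B a' e')
    (ha : a ⊆ a') (he : e ⊆ e') : Adm I B a e :=
  fun f hf hent => h f (he hf) (hent.mono ha)

theorem Adm.congr {I : Set Λ} {B B' : Λ → Ω → Set ℕ} {W : Set Ω}
    (hB : ∀ i ∈ I, ∀ d ∈ W, B i d = B' i d) {a e : Finset Ω} (ha : ↑a ⊆ W) (he : ↑e ⊆ W) :
    Adm I B a e ↔ Adm I B' a e :=
  forall₂_congr fun _ hf => not_congr (Ent.congr hB ha (he hf))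

theorem UC.congr {I : Set Λ} {W : Set Ω} {B B' : Λ → Ω → Set ℕ} (h : UC I W B)
    (hB : ∀ i ∈ I, ∀ d ∈ W, B i d = B' i d) : UC I W B' := by
  intro a e ha he hadm i hi
  rw [cell_congr (b' := B i) (fun d hd => (hB i hi d (ha hd)).symm)
    (fun d hd => (hB i hi d (he hd)).symm)]
  exact h a e ha he ((Adm.congr hB ha he).2 hadm) i hi

/-- restriction -/
theorem UC.restrict {I I' : Set Λ} {W W' : Set Ω} {B : Λ → Ω → Set ℕ} (h : UC I W B)
    (hI : I' ⊆ I) (hW : W' ⊆ W) : UC I' W' B :=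
  fun a e ha he hadm i hi => h a e (ha.trans hW) (he.trans hW)
    (fun f hf hent => hadm f hf (hent.anti hI)) i (hI hi)

/-- the order of the sets does not depend on the index -/
theorem UC.order {I : Set Λ} {W : Set Ω} {B : Λ → Ω → Set ℕ} (h : UC I W B) {i j : Λ} (hi : i ∈ I)
    (hj : j ∈ I) {d f : Ω} (hd : d ∈ W) (hf : f ∈ W) (hs : B i d ⊆ B i f) : B j d ⊆ B j f := by
  by_contra hcon
  have h1 := h {d} {f} (by simpa using hd) (by simpa using hf) (by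
    intro f' hf' hent
    rw [Finset.mem_singleton] at hf'
    subst hf'
    exact hcon fun x hx => hent j hj x (by simpa using hx)) i hi
  obtain ⟨x, hx⟩ := h1.nonempty
  exact hx.2 f (Finset.mem_singleton_self f) (hs (hx.1 d (Finset.mem_singleton_self d)))

/-- the sets are infinite -/
theorem UC.infinite {I : Set Λ} {W : Set Ω} {B : Λ → Ω → Set ℕ} (h : UC I W B) {i : Λ}
    (hi : i ∈ I) {d : Ω} (hd : d ∈ W) : (B i d).Infinite := by
  refine (h {d} ∅ (by simpa using hd) (by simp) (fun f hf => by simp at hf) i hi).mono ?_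
  intro x hx
  exact hx.1 d (Finset.mem_singleton_self d)

end Pool.Agent.Lib.MP_a6d962_lc.Cs
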