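import Pool.Agent.Lib.MP_a6d962_lc.Cs.Split

/-!
# The general one-point extension

PROOF of `extend`.  Write `cl i n = cell (B i) (a n) (e n)` and `U i = ⋃ n, cl i n`.

The family `S` of all sets `cell (B i) a' e'` (`i ∈ I`, `a', e'` finite subsets of `W`) together with
all sets `cell (B i) a' e' ∩ Z i`, restricted to those which are infinite, is countable (`I`, `W`
countable, so there are countably many finite subsets of `W`).  Let `R` be given by `exists_split`.
Put `C i = R ∩ Z i ∩ U i`.  The first two properties are clear.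

UC: let `a, e ⊆ insert w W` finite, `Adm I (upd B w C) a e`, `i ∈ I`.
Let `a' = a.erase w`, `e' = e.erase w` (subsets of `W`).  For `d ≠ w`: `upd B w C i d = B i d`; and
`upd B w C i w = C i`.
If `w ∈ a` and `w ∈ e` then `Ent I (upd B w C) a w` holds trivially, against admissibility.

Case `w ∉ a`.  Then `Adm I B a e'` (for `f ∈ e'` the statement `Ent` does not involve `w`), so
`cell (B i) a e'` is infinite by `h`, it is in `S`, so `cell (B i) a e' \ R` is infinite, and it is
contained in `cell (upd B w C i) a e` (a point outside `R` is not in `C i`).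

Case `w ∈ a`, `w ∉ e` (so `e' = e`).  Let `n0` be the least `n` with `Adm I B (a' ∪ a n) (e n)`.
It exists: `a' ⊆ W` is finite, `a` is monotone and covers `W`, so `a' ⊆ a n` for some `n`, and then
`a' ∪ a n = a n` is admissible with `e n`.
  (*) if `j ∈ I`, `x ∈ C j`, `x ∈ B j d` for all `d ∈ a'`, then `x ∈ B j d` for all
      `d ∈ a' ∪ a n0`: `x ∈ cl j m` for some `m`.  If `m < n0` then `Adm I B (a' ∪ a m) (e m)` fails:
      there is `f ∈ e m` with `Ent I B (a' ∪ a m) f`, hence `x ∈ B j f`, against `x ∈ cl j m`.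
      So `n0 ≤ m` and `a n0 ⊆ a m`.
  Claim: no `f ∈ e` satisfies `Ent I B (a' ∪ a n0) f`.  Otherwise `Ent I (upd B w C) a f` by (*),
      against admissibility of `a, e`.
  So `Adm I B (a' ∪ a n0) (e ∪ e n0)`, and by `hZ` the set
  `cell (B i) (a' ∪ a n0) (e ∪ e n0) ∩ Z i` is infinite, it is in `S`, so its intersection with `R` is
  infinite, and this intersection is contained in `cell (upd B w C i) a e` (its points are in
  `cl i n0`, in `Z i` and in `R`, so in `C i`).
-/

namespace Pool.Agent.Lib.MP_a6d962_lc.Cs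

variable {Λ Ω : Type*}

private theorem Ext_upd_ne [DecidableEq Ω] (B : Λ → Ω → Set ℕ) (w : Ω) (C : Λ → Set ℕ) (i : Λ) {d : Ω}
    (h : d ≠ w) : upd B w C i d = B i d := by
  simp [upd, h]

private theorem Ext_upd_eq [DecidableEq Ω] (B : Λ → Ω → Set ℕ) (w : Ω) (C : Λ → Set ℕ) (i : Λ) :
    upd B w C i w = C i := by
  simp [upd]

private theorem Ext_cover [DecidableEq Ω] {W : Set Ω} {a : ℕ → Finset Ω} (hmono : Monotone a)
    (hex : ∀ d ∈ W, ∃ n, d ∈ a n) (s : Finset Ω) : ↑s ⊆ W → ∃ n, s ⊆ a n := by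
  refine Finset.induction_on s ?_ ?_
  · intro _
    exact ⟨0, Finset.empty_subset _⟩
  · intro d t _ ih hs
    obtain ⟨n, hn⟩ := ih (fun x hx => hs (by simpa using Or.inr hx))
    obtain ⟨m, hm⟩ := hex d (hs (by simp))
    refine ⟨max n m, ?_⟩
    intro x hx
    rw [Finset.mem_insert] at hx
    rcases hx with rfl | hx
    · exact hmono (le_max_right n m) hm
    · exact hmono (le_max_left n m) (hn hx)

private theorem Ext_fin {W : Set Ω} (hW : W.Countable) : {s : Finset Ω | ↑s ⊆ W}.Countable := by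
  have h1 := Set.countable_setOf_finite_subset hW
  have h2 := h1.preimage (f := fun s : Finset Ω => (s : Set Ω)) Finset.coe_injective
  refine h2.mono ?_
  intro s hs
  exact ⟨s.finite_toSet, hs⟩

theorem extend [DecidableEq Ω] {I : Set Λ} {W : Set Ω} {B : Λ → Ω → Set ℕ} (hI : I.Countable)
    (hW : W.Countable) (h : UC I W B) {w : Ω} (hw : w ∉ W) (a e : ℕ → Finset Ω)
    (ha : ∀ n, ↑(a n) ⊆ W) (he : ∀ n, ↑(e n) ⊆ W) (hmono : Monotone a)
    (hex : ∀ d ∈ W, ∃ n, d ∈ a n) (hadm : ∀ n, Adm I B (a n) (e n)) (Z : Λ → Set ℕ)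
    (hZ : ∀ n, ∀ a' e' : Finset Ω, a n ⊆ a' → e n ⊆ e' → ↑a' ⊆ W → ↑e' ⊆ W → Adm I B a' e' →
      ∀ i ∈ I, (cell (B i) a' e' ∩ Z i).Infinite) :
    ∃ C : Λ → Set ℕ, (∀ i ∈ I, ∀ x ∈ C i, x ∈ Z i ∧ ∃ n, x ∈ cell (B i) (a n) (e n)) ∧
      UC I (insert w W) (upd B w C) := by
  classical
  have hcount : {A : Set ℕ | A.Infinite ∧ ∃ i ∈ I, ∃ a' : Finset Ω, ↑a' ⊆ W ∧ ∃ e' : Finset Ω, ↑e' ⊆ W ∧
      (A = cell (B i) a' e' ∨ A = cell (B i) a' e' ∩ Z i)}.Countable := by
    have hbig : (⋃ i ∈ I, ⋃ a' ∈ {s : Finset Ω | ↑s ⊆ W}, ⋃ e' ∈ {s : Finset Ω | ↑s ⊆ W},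
        ({cell (B i) a' e', cell (B i) a' e' ∩ Z i} : Set (Set ℕ))).Countable := by
      refine hI.biUnion fun i _ => (Ext_fin hW).biUnion fun a' _ => (Ext_fin hW).biUnion fun e' _ => ?_
      exact (Set.toFinite _).countable
    refine hbig.mono ?_
    rintro A ⟨-, i, hi, a', ha', e', he', hA⟩
    simp only [Set.mem_iUnion]
    refine ⟨i, hi, a', ha', e', he', ?_⟩
    rcases hA with hA | hA
    · left; exact hA
    · right; exact hA
  obtain ⟨R, hR⟩ := exists_split _ hcount (fun A hA => hA.1)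
  refine ⟨fun i => {x | x ∈ R ∧ x ∈ Z i ∧ ∃ n, x ∈ cell (B i) (a n) (e n)}, ?_, ?_⟩
  · intro i _ x hx
    exact hx.2
  set C : Λ → Set ℕ := fun i => {x | x ∈ R ∧ x ∈ Z i ∧ ∃ n, x ∈ cell (B i) (a n) (e n)} with hC
  intro a1 e1 ha1 he1 hadm1 i hi
  by_cases hwa : w ∈ a1
  · by_cases hwe : w ∈ e1
    · exact absurd (fun j _ x hx => hx w hwa) (hadm1 w hwe)
    have he1' : ↑e1 ⊆ W := by
      intro f hf
      rcases he1 hf with h1 | h1
      · exact absurd (h1 ▸ hf) hwe
      · exact h1
    have ha' : ↑(a1.erase w) ⊆ W := by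
      intro d hd
      rw [Finset.mem_coe, Finset.mem_erase] at hd
      rcases ha1 hd.2 with h1 | h1
      · exact absurd h1 hd.1
      · exact h1
    have hexn : ∃ n, Adm I B (a1.erase w ∪ a n) (e n) := by
      obtain ⟨n, hn⟩ := Ext_cover hmono hex (a1.erase w) ha'
      refine ⟨n, ?_⟩
      rw [Finset.union_eq_right.2 hn]
      exact hadm n
    set n0 := Nat.find hexn with hn0
    have hspec : Adm I B (a1.erase w ∪ a n0) (e n0) := Nat.find_spec hexn
    have hmin : ∀ m, m < n0 → ¬ Adm I B (a1.erase w ∪ a m) (e m) := fun m hm => Nat.find_min hexn hm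
    have hstar : ∀ j ∈ I, ∀ x ∈ C j, (∀ d ∈ a1.erase w, x ∈ B j d) →
        ∀ d ∈ a1.erase w ∪ a n0, x ∈ B j d := by
      intro j hj x hx hxa d hd
      obtain ⟨-, -, m, hm⟩ := hx
      by_cases hmn : m < n0
      · exfalso
        apply hmin m hmn
        intro f hf hent
        exact hm.2 f hf (hent j hj x fun d' hd' => by
          rcases Finset.mem_union.1 hd' with h1 | h1
          · exact hxa d' h1
          · exact hm.1 d' h1)
      · rcases Finset.mem_union.1 hd with h1 | h1
        · exact hxa d h1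
        · exact hm.1 d (hmono (not_lt.1 hmn) h1)
    have hne : ∀ f ∈ e1, f ≠ w := fun f hf hfw => hwe (hfw ▸ hf)
    have hclaim : ∀ f ∈ e1, ¬ Ent I B (a1.erase w ∪ a n0) f := by
      intro f hf hent
      apply hadm1 f hf
      intro j hj x hx
      rw [Ext_upd_ne B w C j (hne f hf)]
      apply hent j hj x
      apply hstar j hj x
      · have := hx w hwa
        rw [Ext_upd_eq] at this
        exact this
      · intro d hd
        rw [Finset.mem_erase] at hd
        have := hx d hd.2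
        rw [Ext_upd_ne B w C j hd.1] at this
        exact this
    have hadm2 : Adm I B (a1.erase w ∪ a n0) (e1 ∪ e n0) := by
      intro f hf
      rcases Finset.mem_union.1 hf with h1 | h1
      · exact hclaim f h1
      · exact hspec f h1
    have hsubA : ↑(a1.erase w ∪ a n0) ⊆ W := by
      rw [Finset.coe_union]
      exact Set.union_subset ha' (ha n0)
    have hsubE : ↑(e1 ∪ e n0) ⊆ W := by
      rw [Finset.coe_union]
      exact Set.union_subset he1' (he n0)
    have hinf := hZ n0 (a1.erase w ∪ a n0) (e1 ∪ e n0) Finset.subset_union_right Finset.subset_union_right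
      hsubA hsubE hadm2 i hi
    have hRinf := (hR _ ⟨hinf, i, hi, _, hsubA, _, hsubE, Or.inr rfl⟩).1
    refine hRinf.mono ?_
    rintro x ⟨⟨hxc, hxZ⟩, hxR⟩
    refine ⟨fun d hd => ?_, fun f hf => ?_⟩
    · by_cases hdw : d = w
      · rw [hdw, Ext_upd_eq]
        exact ⟨hxR, hxZ, n0, cell_anti Finset.subset_union_right Finset.subset_union_right hxc⟩
      · rw [Ext_upd_ne B w C i hdw]
        exact hxc.1 d (Finset.mem_union_left _ (Finset.mem_erase.2 ⟨hdw, hd⟩))
    · rw [Ext_upd_ne B w C i (hne f hf)]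
      exact hxc.2 f (Finset.mem_union_left _ hf)
  · have hne : ∀ d ∈ a1, d ≠ w := fun d hd hdw => hwa (hdw ▸ hd)
    have ha1' : ↑a1 ⊆ W := by
      intro d hd
      rcases ha1 hd with h1 | h1
      · exact absurd h1 (hne d hd)
      · exact h1
    have he' : ↑(e1.erase w) ⊆ W := by
      intro d hd
      rw [Finset.mem_coe, Finset.mem_erase] at hd
      rcases he1 hd.2 with h1 | h1
      · exact absurd h1 hd.1
      · exact h1
    have hadm2 : Adm I B a1 (e1.erase w) := by
      intro f hf hent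
      rw [Finset.mem_erase] at hf
      apply hadm1 f hf.2
      intro j hj x hx
      rw [Ext_upd_ne B w C j hf.1]
      apply hent j hj x
      intro d hd
      have := hx d hd
      rw [Ext_upd_ne B w C j (hne d hd)] at this
      exact this
    have hinf := h a1 (e1.erase w) ha1' he' hadm2 i hi
    have hRinf := (hR _ ⟨hinf, i, hi, _, ha1', _, he', Or.inl rfl⟩).2
    refine hRinf.mono ?_
    rintro x ⟨hxc, hxR⟩
    refine ⟨fun d hd => ?_, fun f hf => ?_⟩
    · rw [Ext_upd_ne B w C i (hne d hd)]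
      exact hxc.1 d hd
    · by_cases hfw : f = w
      · rw [hfw, Ext_upd_eq]
        intro hx
        exact hxR hx.1
      · rw [Ext_upd_ne B w C i hfw]
        exact hxc.2 f (Finset.mem_erase.2 ⟨hfw, hf⟩)

end Pool.Agent.Lib.MP_a6d962_lc.Cs
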