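import Pool.Agent.Lib.MP_a6d962_lc.Cs.Ext

/-!
# Deciding a set

PROOF of `extend_decide`.  `W` is countable: there is a monotone sequence `b : ℕ → Finset Ω` of subsets
of `W` covering `W` (if `W` is empty take `b n = ∅`; otherwise enumerate `W`).

Case 1: there is a finite `a1 ⊆ W` with `a0 ⊆ a1` such that for all finite `a', e' ⊆ W` with `a1 ⊆ a'`
and `Adm I B a' e'` the set `cell (B i) a' e' ∩ Z` is infinite.  Apply `extend` with
`a n = a1 ∪ b n`, `e n = ∅`, and the sets `Z i = Z`, `Z j = univ` for `j ≠ i` (`Adm _ _ _ ∅` is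
trivial; for `j ≠ i` use `h`).  Then `C i ⊆ Z`, and `C j ⊆ B j d` for `d ∈ a0` because
`d ∈ a1 ∪ b n` for all `n`.

Case 2: for every finite `a1 ⊆ W` with `a0 ⊆ a1` there are finite `a', e' ⊆ W` with `a1 ⊆ a'`,
`Adm I B a' e'` and `cell (B i) a' e' ∩ Z` finite.  Choose recursively `a n, e n` with this property
such that `a0 ∪ b 0 ⊆ a 0` and `a n ∪ b (n + 1) ⊆ a (n + 1)`.  Apply `extend` with the sets `Zᶜ` for
`i` and `univ` for `j ≠ i`:  if `a n ⊆ a'`, `e n ⊆ e'`, `Adm I B a' e'`, then `cell (B i) a' e'` is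
infinite and contained in `cell (B i) (a n) (e n)`, whose intersection with `Z` is finite; so
`cell (B i) a' e' ∩ Zᶜ` is infinite.  Then no `x ∈ C i` is in `Z`, and again `C j ⊆ B j d` for
`d ∈ a0 ⊆ a n`.

PROOF of `extend_sep`.  Let `R` split the countable family of all infinite sets of the form
`cell (B k) a' e'` (`k ∈ I`, `a', e' ⊆ W` finite).  Apply `extend` with `a n = b n`, `e n = ∅` and the
sets `Z i = R`, `Z j = Rᶜ`, `Z k = univ` otherwise.
-/

namespace Pool.Agent.Lib.MP_a6d962_lc.Cs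

variable {Λ Ω : Type*}

private theorem ExtA_seq {W : Set Ω} [DecidableEq Ω] (hW : W.Countable) :
    ∃ b : ℕ → Finset Ω, Monotone b ∧ (∀ n, ↑(b n) ⊆ W) ∧ ∀ d ∈ W, ∃ n, d ∈ b n := by
  rcases W.eq_empty_or_nonempty with hE | hne
  · refine ⟨fun _ => ∅, fun _ _ _ => le_rfl, fun n => by simp, fun d hd => ?_⟩
    rw [hE] at hd
    exact absurd hd (Set.notMem_empty d)
  · obtain ⟨f, hf⟩ := hW.exists_eq_range hne
    refine ⟨fun n => (Finset.range (n + 1)).image f, ?_, ?_, ?_⟩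
    · intro m n hmn
      exact Finset.image_subset_image (Finset.range_mono (by omega))
    · intro n x hx
      rw [Finset.mem_coe, Finset.mem_image] at hx
      obtain ⟨k, _, rfl⟩ := hx
      rw [hf]
      exact Set.mem_range_self k
    · intro d hd
      rw [hf] at hd
      obtain ⟨k, rfl⟩ := hd
      exact ⟨k, Finset.mem_image.2 ⟨k, Finset.mem_range.2 (by omega), rfl⟩⟩

private theorem ExtA_finsets {W : Set Ω} (hW : W.Countable) :
    {a : Finset Ω | ↑a ⊆ W}.Countable := by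
  have h := (Set.countable_ofPred_finite_subset hW).preimage
    (f := fun a : Finset Ω => (↑a : Set Ω)) Finset.coe_injective
  refine h.mono ?_
  intro a ha
  exact ⟨a.finite_toSet, ha⟩

theorem extend_decide [DecidableEq Ω] {I : Set Λ} {W : Set Ω} {B : Λ → Ω → Set ℕ}
    (hI : I.Countable) (hW : W.Countable) (h : UC I W B) {w : Ω} (hw : w ∉ W) {i : Λ} (hi : i ∈ I)
    (Z : Set ℕ) {a0 : Finset Ω} (ha0 : ↑a0 ⊆ W) :
    ∃ C : Λ → Set ℕ, (∀ j ∈ I, ∀ d ∈ a0, C j ⊆ B j d) ∧ (C i ⊆ Z ∨ ∀ x ∈ C i, x ∉ Z) ∧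
      UC I (insert w W) (upd B w C) := by
  obtain ⟨b, hbm, hbW, hbex⟩ := ExtA_seq hW
  by_cases hcase : ∃ a1 : Finset Ω, ↑a1 ⊆ W ∧ a0 ⊆ a1 ∧ ∀ a' e' : Finset Ω, a1 ⊆ a' → ↑a' ⊆ W →
      ↑e' ⊆ W → Adm I B a' e' → (cell (B i) a' e' ∩ Z).Infinite
  · obtain ⟨a1, ha1W, ha01, ha1⟩ := hcase
    have haW : ∀ n, ↑(a1 ∪ b n) ⊆ W := by
      intro n
      rw [Finset.coe_union]
      exact Set.union_subset ha1W (hbW n)
    obtain ⟨C, hC1, hC2⟩ := extend hI hW h hw (fun n => a1 ∪ b n) (fun _ => ∅) haW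
      (fun n => by simp)
      (fun m n hmn => Finset.union_subset_union_right (hbm hmn))
      (fun d hd => by
        obtain ⟨n, hn⟩ := hbex d hd
        exact ⟨n, Finset.mem_union_right _ hn⟩)
      (fun n f hf => by simp at hf)
      (fun j => {x | j = i → x ∈ Z})
      (by
        intro n a' e' haa _ ha'W he'W hadm j hj
        by_cases hji : j = i
        · subst hji
          refine (ha1 a' e' (Finset.union_subset_left haa) ha'W he'W hadm).mono ?_
          intro x hx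
          exact ⟨hx.1, fun _ => hx.2⟩
        · refine (h a' e' ha'W he'W hadm j hj).mono ?_
          intro x hx
          exact ⟨hx, fun hc => absurd hc hji⟩)
    refine ⟨C, ?_, Or.inl ?_, hC2⟩
    · intro j hj d hd x hx
      obtain ⟨_, n, hn⟩ := hC1 j hj x hx
      exact hn.1 d (Finset.mem_union_left _ (ha01 hd))
    · intro x hx
      exact (hC1 i hi x hx).1 rfl
  · have hne : ∀ a1 : Finset Ω, ∃ a' e' : Finset Ω, ↑a1 ⊆ W → a0 ⊆ a1 → a1 ⊆ a' ∧ ↑a' ⊆ W ∧
        ↑e' ⊆ W ∧ Adm I B a' e' ∧ (cell (B i) a' e' ∩ Z).Finite := by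
      intro a1
      by_cases h1 : ↑a1 ⊆ W ∧ a0 ⊆ a1
      · by_contra hcon
        apply hcase
        refine ⟨a1, h1.1, h1.2, ?_⟩
        intro a' e' h2 h3 h4 h5
        by_contra h6
        rw [Set.not_infinite] at h6
        exact hcon ⟨a', e', fun _ _ => ⟨h2, h3, h4, h5, h6⟩⟩
      · exact ⟨∅, ∅, fun h2 h3 => absurd ⟨h2, h3⟩ h1⟩
    choose A E hAE using hne
    obtain ⟨arg, harg0, harg1⟩ : ∃ arg : ℕ → Finset Ω, arg 0 = a0 ∪ b 0 ∧
        ∀ n, arg (n + 1) = A (arg n) ∪ b (n + 1) :=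
      ⟨fun n => Nat.rec (a0 ∪ b 0) (fun k s => A s ∪ b (k + 1)) n, rfl, fun n => rfl⟩
    have hinv : ∀ n : ℕ, ((arg n : Finset Ω) : Set Ω) ⊆ W ∧ a0 ⊆ arg n := by
      intro n
      induction n with
      | zero =>
        rw [harg0, Finset.coe_union]
        exact ⟨Set.union_subset ha0 (hbW 0), Finset.subset_union_left⟩
      | succ k ih =>
        obtain ⟨h1, h2, _⟩ := hAE (arg k) ih.1 ih.2
        rw [harg1, Finset.coe_union]
        exact ⟨Set.union_subset h2 (hbW (k + 1)),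
          (ih.2.trans h1).trans Finset.subset_union_left⟩
    have hP : ∀ n : ℕ, arg n ⊆ A (arg n) ∧ ((A (arg n) : Finset Ω) : Set Ω) ⊆ W ∧
        ((E (arg n) : Finset Ω) : Set Ω) ⊆ W ∧
        Adm I B (A (arg n)) (E (arg n)) ∧ (cell (B i) (A (arg n)) (E (arg n)) ∩ Z).Finite :=
      fun n => hAE (arg n) (hinv n).1 (hinv n).2
    have hstep : ∀ n, A (arg n) ⊆ A (arg (n + 1)) := by
      intro n
      refine Finset.Subset.trans ?_ (hP (n + 1)).1
      rw [harg1]
      exact Finset.subset_union_left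
    have hb : ∀ n, b n ⊆ A (arg n) := by
      intro n
      refine Finset.Subset.trans ?_ (hP n).1
      cases n with
      | zero =>
        rw [harg0]
        exact Finset.subset_union_right
      | succ k =>
        rw [harg1]
        exact Finset.subset_union_right
    obtain ⟨C, hC1, hC2⟩ := extend hI hW h hw (fun n => A (arg n)) (fun n => E (arg n))
      (fun n => (hP n).2.1) (fun n => (hP n).2.2.1)
      (monotone_nat_of_le_succ hstep)
      (fun d hd => by
        obtain ⟨n, hn⟩ := hbex d hd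
        exact ⟨n, hb n hn⟩)
      (fun n => (hP n).2.2.2.1)
      (fun j => {x | j = i → x ∉ Z})
      (by
        intro n a' e' haa hee ha'W he'W hadm j hj
        by_cases hji : j = i
        · subst hji
          have hinf := h a' e' ha'W he'W hadm j hj
          have hfin : (cell (B j) a' e' ∩ Z).Finite :=
            (hP n).2.2.2.2.subset (Set.inter_subset_inter_left Z (cell_anti haa hee))
          refine (hinf.sdiff hfin).mono ?_
          intro x hx
          exact ⟨hx.1, fun _ hxZ => hx.2 ⟨hx.1, hxZ⟩⟩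
        · refine (h a' e' ha'W he'W hadm j hj).mono ?_
          intro x hx
          exact ⟨hx, fun hc => absurd hc hji⟩)
    refine ⟨C, ?_, Or.inr ?_, hC2⟩
    · intro j hj d hd x hx
      obtain ⟨_, n, hn⟩ := hC1 j hj x hx
      exact hn.1 d ((hP n).1 ((hinv n).2 hd))
    · intro x hx
      exact (hC1 i hi x hx).1 rfl

theorem extend_sep [DecidableEq Ω] {I : Set Λ} {W : Set Ω} {B : Λ → Ω → Set ℕ}
    (hI : I.Countable) (hW : W.Countable) (h : UC I W B) {w : Ω} (hw : w ∉ W) {i j : Λ}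
    (hi : i ∈ I) (hj : j ∈ I) (hij : i ≠ j) :
    ∃ C : Λ → Set ℕ, (∀ x ∈ C i, x ∉ C j) ∧ UC I (insert w W) (upd B w C) := by
  obtain ⟨b, hbm, hbW, hbex⟩ := ExtA_seq hW
  have hF := ExtA_finsets hW
  have hScount : ((fun p : Λ × Finset Ω × Finset Ω => cell (B p.1) p.2.1 p.2.2) ''
      (I ×ˢ ({a : Finset Ω | ↑a ⊆ W} ×ˢ {a : Finset Ω | ↑a ⊆ W}))).Countable :=
    (hI.prod (hF.prod hF)).image _
  obtain ⟨R, hR⟩ := exists_split
    (((fun p : Λ × Finset Ω × Finset Ω => cell (B p.1) p.2.1 p.2.2) ''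
      (I ×ˢ ({a : Finset Ω | ↑a ⊆ W} ×ˢ {a : Finset Ω | ↑a ⊆ W}))) ∩ {A | A.Infinite})
    (hScount.mono Set.inter_subset_left) (fun A hA => hA.2)
  have hR' : ∀ k ∈ I, ∀ a' e' : Finset Ω, ↑a' ⊆ W → ↑e' ⊆ W → (cell (B k) a' e').Infinite →
      (cell (B k) a' e' ∩ R).Infinite ∧ (cell (B k) a' e' \ R).Infinite := by
    intro k hk a' e' ha' he' hinf
    exact hR _ ⟨⟨(k, a', e'), ⟨hk, ha', he'⟩, rfl⟩, hinf⟩
  obtain ⟨C, hC1, hC2⟩ := extend hI hW h hw b (fun _ => ∅) hbW (fun n => by simp) hbm hbex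
    (fun n f hf => by simp at hf)
    (fun k => {x | (k = i → x ∈ R) ∧ (k = j → x ∉ R)})
    (by
      intro n a' e' _ _ ha'W he'W hadm k hk
      have hinf := h a' e' ha'W he'W hadm k hk
      obtain ⟨h1, h2⟩ := hR' k hk a' e' ha'W he'W hinf
      by_cases hki : k = i
      · refine h1.mono ?_
        intro x hx
        exact ⟨hx.1, fun _ => hx.2, fun hkj => absurd (hki.symm.trans hkj) hij⟩
      · by_cases hkj : k = j
        · refine h2.mono ?_
          intro x hx
          exact ⟨hx.1, fun hc => absurd hc hki, fun _ => hx.2⟩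
        · refine hinf.mono ?_
          intro x hx
          exact ⟨hx, fun hc => absurd hc hki, fun hc => absurd hc hkj⟩)
  refine ⟨C, ?_, hC2⟩
  intro x hxi hxj
  exact (hC1 j hj x hxj).1.2 rfl ((hC1 i hi x hxi).1.1 rfl)

end Pool.Agent.Lib.MP_a6d962_lc.Cs
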