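import Pool.Agent.Lib.MP_a6d962_lc.Cs.ClA
import Pool.Agent.Lib.MP_a6d962_lc.Cs.ClB
import Pool.Agent.Lib.MP_a6d962_lc.Cs.ClC
import Pool.Agent.Lib.MP_a6d962_lc.Cs.ClD

/-!
# A countable model of ZFC in which the principle holds
-/

open Cardinal

namespace Pool.Agent.Lib.MP_a6d962_lc.Cs

open Pool.Agent.Lib.Forcing Pool.Agent.Lib.MP_40b13d_lc

theorem mod_principle {a b : Ordinal.{0}} [Nonempty (Set.Iio a)] [Uncountable (Set.Iio b)]
    (hb : #(Set.Iio b) ≤ 𝔠) (ha : 𝔠 < #(Set.Iio a)) (U : GenUlt (PP a b)) :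
    Principle (ModE U) := by
  have key : ∀ φ : Fml, (∀ p, Forces φ (vN a b) p) →
      Sat (ModE U) φ (fun i => U.cl (vN a b i)) :=
    fun φ hφ => (los U φ _).2 (GenUlt.ev_true hφ)
  obtain ⟨⟨i, hi⟩⟩ := ‹Nonempty (Set.Iio a)›
  have : Nonempty (Set.Iio a) := ⟨⟨i, hi⟩⟩
  refine ⟨U.cl omegaN, mod_omega U, U.cl (chk a), U.cl (chk b), U.cl (RN a b),
    mod_noSurj hb ha U, ⟨U.cl (chk i), (mod_chk_mem U).2 hi⟩, ?_, ?_, ?_, ?_, ?_, ?_⟩
  · exact sat_fNonPrin.1 (key _ forces_nonPrin)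
  · exact sat_fDirected3.1 (key _ forces_directed3)
  · exact sat_fUltra3.1 (key _ forces_ultra3)
  · exact sat_fOrder3.1 (key _ forces_order3)
  · exact sat_fSeparated3.1 (key _ forces_separated3)
  · exact sat_fBounded3.1 (key _ forces_bounded3)

theorem exists_model : ∃ (M : Type) (E : M → M → Prop), Countable M ∧ IsZFC M E ∧
    Principle E := by
  let a : Ordinal.{0} := (Order.succ (𝔠 : Cardinal.{0})).ord
  let b : Ordinal.{0} := (Order.succ (ℵ₀ : Cardinal.{0})).ord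
  have ha : 𝔠 < #(Set.Iio a) := by
    rw [Cardinal.mk_Iio_ordinal, card_ord, ← lift_continuum.{1, 0}, lift_lt]
    exact Order.lt_succ _
  have hb0 : ℵ₀ < #(Set.Iio b) := by
    rw [Cardinal.mk_Iio_ordinal, card_ord, ← lift_aleph0.{1, 0}, lift_lt]
    exact Order.lt_succ _
  have hb : #(Set.Iio b) ≤ 𝔠 := by
    rw [Cardinal.mk_Iio_ordinal, card_ord, ← lift_continuum.{1, 0}, lift_le]
    exact Order.succ_le_of_lt aleph0_lt_continuum
  have hna : Nonempty (Set.Iio a) := by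
    rw [← mk_ne_zero_iff]
    exact (pos_of_gt ha).ne'
  have hub : Uncountable (Set.Iio b) := by
    rw [← Cardinal.aleph0_lt_mk_iff]
    exact hb0
  obtain ⟨p⟩ : Nonempty (PP a b) := inferInstance
  obtain ⟨U, -⟩ := exists_genUlt p
  exact exists_countable (U.cl omegaN) (mod_isZFC U) (mod_principle hb ha U)

end Pool.Agent.Lib.MP_a6d962_lc.Cs
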