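import Pool.Agent.Lib.MP_a6d962_lc.Cs.Inst

/-!
# The fusion argument for names of uncountable sets; the instance
-/

open Set Classical

namespace Pool.Agent.Lib.MP_a6d962_lc.Cs

namespace Cond

/-- Countably many dense open requirements can be met below a condition. -/
theorem meet {α : Type} {S : Set α} (hS : S.Countable) (T : α → Cond → Prop)
    (hmono : ∀ t q r, T t q → r ≤ q → T t r) (hdense : ∀ t ∈ S, ∀ q, ∃ r, r ≤ q ∧ T t r)
    (q : Cond) : ∃ r, r ≤ q ∧ ∀ t ∈ S, T t r := by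
  rcases S.eq_empty_or_nonempty with rfl | hne
  · exact ⟨q, le_rfl, fun t ht => ht.elim⟩
  · obtain ⟨g, hg⟩ := hS.exists_eq_range hne
    have h1 : ∀ (n : ℕ) (q : Cond), ∃ r, r ≤ q ∧ T (g n) r := fun n q =>
      hdense (g n) (hg ▸ mem_range_self n) q
    choose s hs1 hs2 using h1
    let f : ℕ → Cond := fun n => Nat.rec q (fun n q => s n q) n
    have hf : ∀ n, f (n + 1) = s n (f n) := fun n => rfl
    obtain ⟨r, hr, _, _⟩ := exists_limit f (fun n => by rw [hf]; exact hs1 n _)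
    refine ⟨r, hr 0, fun t ht => ?_⟩
    rw [hg] at ht
    obtain ⟨n, rfl⟩ := ht
    exact hmono _ _ _ (hs2 n (f n)) (hf n ▸ hr (n + 1))

/-- the promises `F` are kept by `e` -/
def Ok (q : Cond) (F : Finset (Lam × ℕ)) (e : Om) : Prop :=
  e ∈ q.W ∧ ∀ y ∈ F, y.1 ∈ q.I ∧ y.2 ∈ q.B y.1 e

theorem Ok.mono {q r : Cond} {F : Finset (Lam × ℕ)} {e : Om} (h : Ok q F e) (hr : r ≤ q) :
    Ok r F e :=
  ⟨hr.2.1 h.1, fun y hy => ⟨hr.1 (h.2 y hy).1, by
    rw [hr.2.2 _ (h.2 y hy).1 e h.1]; exact (h.2 y hy).2⟩⟩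

theorem Ok.anti {q : Cond} {F F' : Finset (Lam × ℕ)} {e : Om} (h : Ok q F e) (hF : F' ⊆ F) :
    Ok q F' e := ⟨h.1, fun y hy => h.2 y (hF hy)⟩

variable (R : Cond → Om → Prop)

/-- the requirement for `F`: a new element keeping the promises, or none outside a countable set -/
def Task (V : Set Om) (F : Finset (Lam × ℕ)) (r : Cond) : Prop :=
  (∃ e, e ∉ V ∧ R r e ∧ Ok r F e) ∨
    ∃ C : Set Om, C.Countable ∧ ∀ s, s ≤ r → ∀ e, e ∉ C → ¬ (R s e ∧ Ok s F e)

theorem Task.mono (hR : ∀ q r e, R q e → r ≤ q → R r e) {V : Set Om} {F : Finset (Lam × ℕ)}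
    {q r : Cond} (h : Task R V F q) (hr : r ≤ q) : Task R V F r := by
  rcases h with ⟨e, h1, h2, h3⟩ | ⟨C, hC, h⟩
  · exact Or.inl ⟨e, h1, hR _ _ _ h2 hr, h3.mono hr⟩
  · exact Or.inr ⟨C, hC, fun s hs => h s (hs.trans hr)⟩

theorem Task.dense {V : Set Om} (hV : V.Countable) (F : Finset (Lam × ℕ)) (q : Cond) :
    ∃ r, r ≤ q ∧ Task R V F r := by
  by_cases h : ∃ r, r ≤ q ∧ ∃ e, e ∉ V ∧ R r e ∧ Ok r F e
  · obtain ⟨r, hr, h⟩ := h
    exact ⟨r, hr, Or.inl h⟩
  · push Not at h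
    refine ⟨q, le_rfl, Or.inr ⟨V, hV, fun s hs e he h1 => h s hs e he h1.1 h1.2⟩⟩

theorem countable_promises {I : Set Lam} (hI : I.Countable) :
    {F : Finset (Lam × ℕ) | ∀ y ∈ F, y.1 ∈ I}.Countable := by
  have h1 : (I ×ˢ (Set.univ : Set ℕ)).Countable := hI.prod (countable_univ (α := ℕ))
  have := h1.to_subtype
  refine (countable_range (fun s : Finset (I ×ˢ (Set.univ : Set ℕ) : Set (Lam × ℕ)) =>
    s.map (Function.Embedding.subtype _))).mono ?_
  intro a ha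
  refine ⟨a.subtype (· ∈ I ×ˢ (Set.univ : Set ℕ)), ?_⟩
  exact Finset.subtype_map_of_mem fun x hx => mk_mem_prod (ha x hx) (mem_univ _)

theorem exists_fusion (p : Cond) (hR : ∀ q r e, R q e → r ≤ q → R r e)
    (hD : ∀ q e, R q e → e ∈ q.W)
    (hbig : ∀ C : Set Om, C.Countable → ∀ r, r ≤ p → ∃ s, s ≤ r ∧ ∃ e, e ∉ C ∧ R s e) :
    ∃ q, q ≤ p ∧ ∃ (b : ℕ → Om) (d : Om), Function.Injective b ∧ d ∈ q.W ∧
      (∀ n, R q (b n)) ∧ ∀ n, ∀ i ∈ q.I, q.B i d ⊆ q.B i (b n) := by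
  -- the generic sequence
  have hstep : ∀ q : Cond, ∃ r, r ≤ q ∧
      ∀ F ∈ {F : Finset (Lam × ℕ) | ∀ y ∈ F, y.1 ∈ q.I}, Task R q.W F r := fun q =>
    meet (countable_promises q.hI) (fun F r => Task R q.W F r)
      (fun F q r h hr => Task.mono R hR h hr) (fun F _ r => Task.dense R q.hW F r) q
  choose st hst1 hst2 using hstep
  let f : ℕ → Cond := fun n => Nat.rec p (fun _ q => st q) n
  have hf0 : f 0 = p := rfl
  have hf : ∀ n, f (n + 1) = st (f n) := fun n => rfl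
  have hfs : ∀ n, f (n + 1) ≤ f n := fun n => by rw [hf]; exact hst1 _
  have hanti : ∀ n m, n ≤ m → f m ≤ f n := fun n m h => antitone_nat_of_succ_le hfs h
  obtain ⟨N, hN, hNI, hNW⟩ := exists_limit f hfs
  have hNp : N ≤ p := hf0 ▸ hN 0
  -- the dichotomy for finite sets of promises
  have hdich : ∀ F : Finset (Lam × ℕ), (∀ y ∈ F, y.1 ∈ N.I) →
      (∃ C : Set Om, C.Countable ∧ ∀ s, s ≤ N → ∀ e, e ∉ C → ¬ (R s e ∧ Ok s F e)) ∨
      ∀ V : Finset Om, ↑V ⊆ N.W → ∃ e, e ∉ V ∧ R N e ∧ Ok N F e := by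
    intro F hF
    -- a stage containing finitely many things
    have hstage : ∀ V : Finset Om, ↑V ⊆ N.W → ∃ n, (∀ y ∈ F, y.1 ∈ (f n).I) ∧ ↑V ⊆ (f n).W := by
      intro V hV
      have h1 : ∀ y ∈ F, ∀ᶠ n in Filter.atTop, y.1 ∈ (f n).I := by
        intro y hy
        have h2 := hF y hy
        rw [hNI, mem_iUnion] at h2
        obtain ⟨n, hn⟩ := h2
        exact Filter.eventually_atTop.2 ⟨n, fun m hm => (hanti n m hm).1 hn⟩
      have h3 : ∀ d ∈ V, ∀ᶠ n in Filter.atTop, d ∈ (f n).W := by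
        intro d hd
        have h2 := hV hd
        rw [hNW, mem_iUnion] at h2
        obtain ⟨n, hn⟩ := h2
        exact Filter.eventually_atTop.2 ⟨n, fun m hm => (hanti n m hm).2.1 hn⟩
      obtain ⟨n, h4, h5⟩ := (((Finset.eventually_all F).2 h1).and
        ((Finset.eventually_all V).2 h3)).exists
      exact ⟨n, h4, fun d hd => h5 d hd⟩
    by_cases hcase : ∃ C : Set Om, C.Countable ∧ ∀ s, s ≤ N → ∀ e, e ∉ C → ¬ (R s e ∧ Ok s F e)
    · exact Or.inl hcase
    · refine Or.inr fun V hV => ?_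
      obtain ⟨n, h1, h2⟩ := hstage V hV
      have h3 := hst2 (f n) F h1
      rw [← hf] at h3
      rcases h3 with ⟨e, h4, h5, h6⟩ | ⟨C, hC, h4⟩
      · exact ⟨e, fun h => h4 (h2 h), hR _ _ _ h5 (hN (n + 1)), h6.mono (hN (n + 1))⟩
      · exact absurd ⟨C, hC, fun s hs => h4 s (hs.trans (hN (n + 1)))⟩ hcase
  -- the exceptional countable set
  let Cx : Finset (Lam × ℕ) → Set Om := fun F =>
    if h : ∃ C : Set Om, C.Countable ∧ ∀ s, s ≤ N → ∀ e, e ∉ C → ¬ (R s e ∧ Ok s F e) then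
      h.choose else ∅
  have hCx : ∀ F, (Cx F).Countable := by
    intro F
    show (if h : ∃ C : Set Om, C.Countable ∧ ∀ s, s ≤ N → ∀ e, e ∉ C → ¬ (R s e ∧ Ok s F e) then
      h.choose else ∅ : Set Om).Countable
    split_ifs with h
    · exact h.choose_spec.1
    · exact countable_empty
  have hCs : (N.W ∪ ⋃ F ∈ {F : Finset (Lam × ℕ) | ∀ y ∈ F, y.1 ∈ N.I}, Cx F).Countable :=
    N.hW.union ((countable_promises N.hI).biUnion fun F _ => hCx F)
  obtain ⟨r, hr, w, hw, hRw⟩ := hbig _ hCs N hNp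
  have hwW : w ∈ r.W := hD r w hRw
  have hwN : w ∉ N.W := fun h => hw (Or.inl h)
  have hgood : ∀ F : Finset (Lam × ℕ), (∀ y ∈ F, y.1 ∈ N.I ∧ y.2 ∈ r.B y.1 w) →
      ∀ V : Finset Om, ↑V ⊆ N.W → ∃ e, e ∉ V ∧ R N e ∧ Ok N F e := by
    intro F hF
    rcases hdich F (fun y hy => (hF y hy).1) with h | h
    · exfalso
      have h1 : Cx F = h.choose := dif_pos h
      have h2 : w ∉ Cx F := fun h3 => hw (Or.inr (mem_biUnion
        (show F ∈ {F : Finset (Lam × ℕ) | ∀ y ∈ F, y.1 ∈ N.I} from fun y hy => (hF y hy).1) h3))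
      rw [h1] at h2
      exact h.choose_spec.2 r hr w h2 ⟨hRw, hwW, fun y hy => ⟨hr.1 (hF y hy).1, (hF y hy).2⟩⟩
    · exact h
  -- enumeration of the promises
  let S : Set (Lam × ℕ) := {y | y.1 ∈ N.I ∧ y.2 ∈ r.B y.1 w}
  have hS : S.Countable := (N.hI.prod (countable_univ (α := ℕ))).mono fun y hy =>
    mk_mem_prod hy.1 (mem_univ _)
  have hSne : S.Nonempty := by
    obtain ⟨i, hi⟩ := N.ne
    obtain ⟨x, hx⟩ := (r.uc.infinite (hr.1 hi) hwW).nonempty
    exact ⟨(i, x), hi, hx⟩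
  obtain ⟨g, hg⟩ := hS.exists_eq_range hSne
  let Fn : ℕ → Finset (Lam × ℕ) := fun n => (Finset.range (n + 1)).image g
  have hFn : ∀ n, ∀ y ∈ Fn n, y.1 ∈ N.I ∧ y.2 ∈ r.B y.1 w := by
    intro n y hy
    obtain ⟨k, _, rfl⟩ := Finset.mem_image.1 hy
    exact (hg ▸ mem_range_self k : g k ∈ S)
  have hFmono : ∀ n m, n ≤ m → Fn n ⊆ Fn m := fun n m h =>
    Finset.image_subset_image (Finset.range_subset_range.2 (by omega))
  obtain ⟨s, hs1, hs2⟩ := exists_seq_of_forall_finset_exists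
    (fun x : Om × ℕ => R N x.1 ∧ Ok N (Fn x.2) x.1) (fun x y => x.1 ≠ y.1 ∧ x.2 < y.2) (by
      intro t ht
      obtain ⟨e, he1, he2, he3⟩ := hgood (Fn (t.sup (fun x => x.2) + 1)) (hFn _)
        (t.image Prod.fst) (by
          intro d hd
          rw [Finset.mem_coe] at hd
          obtain ⟨x, hx, rfl⟩ := Finset.mem_image.1 hd
          exact (ht x hx).2.1)
      refine ⟨(e, t.sup (fun x => x.2) + 1), ⟨he2, he3⟩, fun x hx => ⟨?_, ?_⟩⟩
      · rintro h
        exact he1 (Finset.mem_image.2 ⟨x, hx, h⟩)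
      · exact Nat.lt_succ_of_le (Finset.le_sup (f := fun x : Om × ℕ => x.2) hx))
  have hsm : ∀ n, n ≤ (s n).2 := by
    have h1 : StrictMono fun n => (s n).2 := strictMono_nat_of_lt_succ fun n =>
      (hs2 n (n + 1) (Nat.lt_succ_self n)).2
    exact h1.id_le
  let d : ℕ → Om := fun n => (s n).1
  have hdinj : Function.Injective d := by
    intro n m h
    rcases lt_trichotomy n m with h1 | h1 | h1
    · exact absurd h (hs2 n m h1).1
    · exact h1
    · exact absurd h.symm (hs2 m n h1).1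
  have hdW : ∀ n, d n ∈ N.W := fun n => (hs1 n).2.1
  have hdR : ∀ n, R N (d n) := fun n => (hs1 n).1
  have hag : ∀ i ∈ N.I, ∀ e ∈ N.W, r.B i e = N.B i e := hr.2.2
  -- the restricted system
  have huc : UC N.I (insert w N.W) r.B := r.uc.restrict hr.1 (by
    rintro e (rfl | he)
    · exact hwW
    · exact hr.2.1 he)
  obtain ⟨v, hv⟩ := exists_notMem (N.hW.insert w)
  obtain ⟨Fm, hFm, h1⟩ := fusion N.hI (N.hW.insert w) huc hv (mem_insert _ _) d
    (fun n => mem_insert_of_mem _ (hdW n)) (by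
      intro i hi x hx
      have h2 : (i, x) ∈ S := ⟨hi, hx⟩
      rw [hg] at h2
      obtain ⟨k, hk⟩ := h2
      refine ⟨k, fun n hn => ?_⟩
      rw [hag i hi _ (hdW n)]
      have h3 : (i, x) ∈ Fn (s n).2 := hFmono n _ (hsm n)
        (Finset.mem_image.2 ⟨k, Finset.mem_range.2 (by omega), hk⟩)
      exact ((hs1 n).2.2 (i, x) h3).2)
  have hvW : v ∉ N.W := fun h => hv (mem_insert_of_mem _ h)
  let C : Lam → Set ℕ := fun i => {x | x ∈ r.B i w ∧ ∀ k, x ∈ r.B i (d (Fm k))}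
  have h2 : UC N.I (insert v N.W) (upd N.B v C) := by
    refine UC.congr (h1.restrict subset_rfl (insert_subset_insert (subset_insert _ _))) ?_
    intro i hi e he
    unfold upd
    by_cases hev : e = v
    · rw [if_pos hev, if_pos hev]
    · rw [if_neg hev, if_neg hev]
      rcases he with he | he
      · exact absurd he hev
      · exact hag i hi e he
  obtain ⟨q, hq, hqI, e, he, h3⟩ := N.exists_add hvW C h2
  refine ⟨q, hq.trans hNp, fun n => d (Fm n), e, hdinj.comp hFm.injective, he,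
    fun n => hR _ _ _ (hdR _) hq, ?_⟩
  intro n i hi
  rw [hqI] at hi
  rw [h3 i hi, hq.2.2 i hi _ (hdW _), ← hag i hi _ (hdW _)]
  exact fun x hx => hx.2 n

/-- The interface for the set of conditions. -/
def gsys : GSys Cond Om Lam where
  D p := p.W
  I p := p.I
  A p := p.B
  D_mono h := h.2.1
  I_mono h := h.1
  A_eq h := h.2.2
  closed f hf := by
    obtain ⟨q, hq, _⟩ := exists_limit f hf
    exact ⟨q, hq⟩
  cc := cc
  dens_I := dens_I
  dens_A := dens_A
  dir := dir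
  inf p i hi e he := p.uc.infinite hi he
  sep := sep
  mono p i hi j hj e he e' he' h := p.uc.order hi hj he he' h
  inj p i hi e he e' he' h := p.dist e he e' he' fun j hj =>
    Subset.antisymm (p.uc.order hi hj he he' h.le) (p.uc.order hi hj he' he h.ge)
  fusion p i hi R hR hD hbig := by
    obtain ⟨q, hq, b, d, h1, h2, h3, h4⟩ := exists_fusion R p hR hD hbig
    exact ⟨q, hq, b, d, h1, h2, fun n => ⟨h3 n, h4 n i (hq.1 hi)⟩⟩

theorem exists_cond : Nonempty Cond := by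
  have h : Nonempty Lam := by
    rw [← Cardinal.mk_ne_zero_iff, Cardinal.mk_ord_toType]
    exact Order.succ_ne_bot _
  obtain ⟨i⟩ := h
  refine ⟨⟨{i}, ∅, fun _ _ => ∅, countable_singleton i, singleton_nonempty i, countable_empty, ?_,
    fun d hd => hd.elim⟩⟩
  intro a e ha he _ i _
  have h1 : a = ∅ := by
    rw [Finset.eq_empty_iff_forall_notMem]
    exact fun x hx => ha hx
  have h2 : e = ∅ := by
    rw [Finset.eq_empty_iff_forall_notMem]
    exact fun x hx => he hx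
  subst h1 h2
  have h3 : cell ((fun _ _ => ∅ : Lam → Om → Set ℕ) i) ∅ ∅ = Set.univ := by
    ext x
    simp [cell]
  rw [h3]
  exact infinite_univ

end Cond

end Pool.Agent.Lib.MP_a6d962_lc.Cs
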