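import Mathlib
import Pool.Agent.Lib.MP_a6d962_lc.GSys
import Pool.Agent.Lib.MP_a6d962_lc.Cs.Basic3
import Pool.Agent.Lib.MP_a6d962_lc.Cs.Closed
import Pool.Agent.Lib.MP_a6d962_lc.Cs.ExtA
import Pool.Agent.Lib.MP_a6d962_lc.Cs.Fusion

/-!
# The set of conditions
-/

open Cardinal Set Classical

namespace Pool.Agent.Lib.MP_a6d962_lc.Cs

/-- the indices of the ultrafilters: a set of cardinality the successor of the continuum -/
abbrev Lam : Type := (Order.succ 𝔠).ord.ToType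

/-- the possible elements of the directed set -/
abbrev Om : Type := Set ℕ

/-- The conditions: countably many bases, with the same order, of the same countable length. -/
structure Cond where
  I : Set Lam
  W : Set Om
  B : Lam → Om → Set ℕ
  hI : I.Countable
  ne : I.Nonempty
  hW : W.Countable
  uc : UC I W B
  dist : ∀ d ∈ W, ∀ d' ∈ W, (∀ i ∈ I, B i d = B i d') → d = d'

instance : Preorder Cond where
  le q p := p.I ⊆ q.I ∧ p.W ⊆ q.W ∧ ∀ i ∈ p.I, ∀ d ∈ p.W, q.B i d = p.B i d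
  le_refl p := ⟨subset_rfl, subset_rfl, fun _ _ _ _ => rfl⟩
  le_trans r q p h h' := ⟨h'.1.trans h.1, h'.2.1.trans h.2.1, fun i hi d hd =>
    (h.2.2 i (h'.1 hi) d (h'.2.1 hd)).trans (h'.2.2 i hi d hd)⟩

theorem exists_notMem {V : Set Om} (hV : V.Countable) : ∃ w, w ∉ V := by
  by_contra hcon
  push Not at hcon
  have h1 : V = Set.univ := eq_univ_of_forall hcon
  rw [h1] at hV
  have h2 : Countable (Set ℕ) := countable_univ_iff.1 hV
  have h3 : #(Set ℕ) ≤ ℵ₀ := mk_le_aleph0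
  rw [mk_set, mk_nat] at h3
  exact absurd h3 (not_le.2 (cantor _))

namespace Cond

/-- Adding one element, unless it is there already. -/
theorem exists_add (p : Cond) {w : Om} (hw : w ∉ p.W) (C : Lam → Set ℕ)
    (h : UC p.I (insert w p.W) (upd p.B w C)) :
    ∃ q, q ≤ p ∧ q.I = p.I ∧ ∃ e ∈ q.W, ∀ i ∈ p.I, q.B i e = C i := by
  by_cases hd : ∃ d ∈ p.W, ∀ i ∈ p.I, p.B i d = C i
  · obtain ⟨d, hd, h1⟩ := hd
    exact ⟨p, le_rfl, rfl, d, hd, h1⟩
  · push Not at hd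
    have hne : ∀ d ∈ p.W, d ≠ w := fun d hd' h => hw (h ▸ hd')
    have e1 : ∀ i, upd p.B w C i w = C i := fun i => by simp [upd]
    have e2 : ∀ i, ∀ d ∈ p.W, upd p.B w C i d = p.B i d := fun i d hd' => by
      simp [upd, hne d hd']
    refine ⟨⟨p.I, insert w p.W, upd p.B w C, p.hI, p.ne, p.hW.insert w, h, ?_⟩, ?_, rfl, w,
      mem_insert _ _, fun i _ => e1 i⟩
    · rintro d (rfl | hd1) d' (rfl | hd2) h1
      · rfl
      · obtain ⟨i, hi, h2⟩ := hd d' hd2
        exact absurd ((e2 i d' hd2).symm.trans ((h1 i hi).symm.trans (e1 i))) h2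
      · obtain ⟨i, hi, h2⟩ := hd d hd1
        exact absurd ((e2 i d hd1).symm.trans ((h1 i hi).trans (e1 i))) h2
      · exact p.dist d hd1 d' hd2 fun i hi => by rw [← e2 i d hd1, ← e2 i d' hd2, h1 i hi]
    · exact ⟨subset_rfl, subset_insert _ _, fun i _ d hd' => e2 i d hd'⟩

theorem exists_limit (f : ℕ → Cond) (hf : ∀ n, f (n + 1) ≤ f n) :
    ∃ q : Cond, (∀ n, q ≤ f n) ∧ q.I = ⋃ n, (f n).I ∧ q.W = ⋃ n, (f n).W := by
  have hanti : ∀ n m, n ≤ m → f m ≤ f n := fun n m h => antitone_nat_of_succ_le hf h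
  have hI : Monotone fun n => (f n).I := fun n m h => (hanti n m h).1
  have hW : Monotone fun n => (f n).W := fun n m h => (hanti n m h).2.1
  obtain ⟨B', h1, h2⟩ := UC.iUnion (I := fun n => (f n).I) (W := fun n => (f n).W)
    (B := fun n => (f n).B) hI hW (fun n m h => (hanti n m h).2.2) (fun n => (f n).uc)
  refine ⟨⟨⋃ n, (f n).I, ⋃ n, (f n).W, B', countable_iUnion fun n => (f n).hI, ?_,
    countable_iUnion fun n => (f n).hW, h2, ?_⟩, ?_, rfl, rfl⟩
  · obtain ⟨i, hi⟩ := (f 0).ne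
    exact ⟨i, mem_iUnion.2 ⟨0, hi⟩⟩
  · intro d hd d' hd' h3
    obtain ⟨n, hn⟩ := mem_iUnion.1 hd
    obtain ⟨m, hm⟩ := mem_iUnion.1 hd'
    have hn' := hW (le_max_left n m) hn
    have hm' := hW (le_max_right n m) hm
    refine (f (max n m)).dist d hn' d' hm' fun i hi => ?_
    rw [← h1 _ i hi d hn', ← h1 _ i hi d' hm']
    exact h3 i (mem_iUnion.2 ⟨_, hi⟩)
  · intro n
    exact ⟨subset_iUnion (fun n => (f n).I) n, subset_iUnion (fun n => (f n).W) n, h1 n⟩

theorem dens_I (p : Cond) (j : Lam) : ∃ q, q ≤ p ∧ j ∈ q.I := by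
  by_cases hj : j ∈ p.I
  · exact ⟨p, le_rfl, hj⟩
  · obtain ⟨i0, hi0⟩ := p.ne
    have h := p.uc.addIndex hi0 hj
    have e : ∀ i ∈ p.I, ∀ d, (if i = j then p.B i0 else p.B i) d = p.B i d := by
      intro i hi d
      have h0 : i ≠ j := fun h => hj (h ▸ hi)
      rw [if_neg h0]
    refine ⟨⟨insert j p.I, p.W, _, p.hI.insert j, ⟨j, mem_insert _ _⟩, p.hW, h, ?_⟩, ?_,
      mem_insert _ _⟩
    · intro d hd d' hd' h1
      refine p.dist d hd d' hd' fun i hi => ?_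
      have h2 := h1 i (mem_insert_of_mem j hi)
      rwa [e i hi, e i hi] at h2
    · exact ⟨subset_insert _ _, subset_rfl, fun i hi d _ => e i hi d⟩

theorem dens_A (p : Cond) (i : Lam) (hi : i ∈ p.I) (X : Set ℕ) :
    ∃ q, q ≤ p ∧ ∃ e ∈ q.W, q.B i e ⊆ X ∨ q.B i e ⊆ Xᶜ := by
  obtain ⟨w, hw⟩ := exists_notMem p.hW
  obtain ⟨C, _, h1, h2⟩ := extend_decide p.hI p.hW p.uc hw hi X (a0 := ∅) (by simp)
  obtain ⟨q, hq, _, e, he, h3⟩ := p.exists_add hw C h2
  refine ⟨q, hq, e, he, ?_⟩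
  rw [h3 i hi]
  exact h1.imp id fun h x hx => h x hx

theorem dir (p : Cond) (i : Lam) (hi : i ∈ p.I) (e : Om) (he : e ∈ p.W) (e' : Om) (he' : e' ∈ p.W) :
    ∃ q, q ≤ p ∧ ∃ e'' ∈ q.W, q.B i e'' ⊆ q.B i e ∧ q.B i e'' ⊆ q.B i e' := by
  obtain ⟨w, hw⟩ := exists_notMem p.hW
  obtain ⟨C, h0, _, h2⟩ := extend_decide p.hI p.hW p.uc hw hi Set.univ (a0 := {e, e'}) (by
    intro d hd
    simp only [Finset.coe_insert, Finset.coe_singleton, mem_insert_iff, mem_singleton_iff] at hd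
    rcases hd with rfl | rfl
    · exact he
    · exact he')
  obtain ⟨q, hq, _, e'', he'', h3⟩ := p.exists_add hw C h2
  refine ⟨q, hq, e'', he'', ?_, ?_⟩
  · rw [h3 i hi, hq.2.2 i hi e he]
    exact h0 i hi e (by simp)
  · rw [h3 i hi, hq.2.2 i hi e' he']
    exact h0 i hi e' (by simp)

/-- extending by an element below finitely many others -/
theorem sep (p : Cond) (i : Lam) (hi : i ∈ p.I) (j : Lam) (hj : j ∈ p.I) (hij : i ≠ j) :
    ∃ q, q ≤ p ∧ ∃ e ∈ q.W, ∃ e' ∈ q.W, Disjoint (q.B i e) (q.B j e') := by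
  obtain ⟨w, hw⟩ := exists_notMem p.hW
  obtain ⟨C, h1, h2⟩ := extend_sep p.hI p.hW p.uc hw hi hj hij
  obtain ⟨q, hq, _, e, he, h3⟩ := p.exists_add hw C h2
  refine ⟨q, hq, e, he, e, he, ?_⟩
  rw [h3 i hi, h3 j hj, Set.disjoint_left]
  exact h1

/-! ## The chain condition -/

theorem countable_finsets {V : Set Om} (hV : V.Countable) : {a : Finset Om | ↑a ⊆ V}.Countable := by
  have := hV.to_subtype
  refine (countable_range (fun s : Finset V => s.map (Function.Embedding.subtype _))).mono ?_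
  intro a ha
  refine ⟨a.subtype (· ∈ V), ?_⟩
  exact Finset.subtype_map_of_mem fun x hx => ha hx

theorem mk_countable_subsets (α : Type) (hα : #α ≤ 𝔠) (_ : Nonempty α) :
    #{s : Set α // s.Countable} ≤ 𝔠 := by
  have h1 : #{s : Set α // s.Countable} ≤ #(Option (ℕ → α)) := by
    refine mk_le_of_surjective (f := fun o => o.elim ⟨∅, countable_empty⟩
      (fun g => ⟨range g, countable_range g⟩)) ?_
    rintro ⟨s, hs⟩
    rcases s.eq_empty_or_nonempty with rfl | h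
    · exact ⟨none, rfl⟩
    · obtain ⟨g, hg⟩ := hs.exists_eq_range h
      exact ⟨some g, Subtype.ext hg.symm⟩
  refine h1.trans ?_
  rw [mk_option]
  have h2 : #(ℕ → α) ≤ 𝔠 := by
    rw [← power_def, mk_nat]
    calc #α ^ ℵ₀ ≤ 𝔠 ^ ℵ₀ := power_le_power_right hα
      _ = 𝔠 := continuum_power_aleph0
  calc #(ℕ → α) + 1 ≤ 𝔠 + 1 := add_le_add_left h2 1
    _ = 𝔠 := add_one_eq aleph0_le_continuum

/-- the graph of the base with index `i` -/
def gr (p : Cond) (i : Lam) : {s : Set (Om × ℕ) // s.Countable} :=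
  ⟨{y | y.1 ∈ p.W ∧ y.2 ∈ p.B i y.1}, by
    refine (p.hW.prod (countable_univ (α := ℕ))).mono ?_
    intro y hy
    exact Set.mk_mem_prod hy.1 (mem_univ _)⟩

/-- the type of the order -/
def ty (p : Cond) : {s : Set (Finset Om × Om) // s.Countable} :=
  ⟨{y | ↑y.1 ⊆ p.W ∧ y.2 ∈ p.W ∧ Ent p.I p.B y.1 y.2}, by
    refine ((countable_finsets p.hW).prod p.hW).mono ?_
    intro y hy
    exact Set.mk_mem_prod hy.1 hy.2.1⟩

theorem exists_compat {p q : Cond} (hW : p.W = q.W) (hty : p.ty = q.ty)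
    (hgr : ∀ i ∈ p.I, i ∈ q.I → p.gr i = q.gr i) : ∃ r, r ≤ p ∧ r ≤ q := by
  have hag : ∀ i ∈ p.I, i ∈ q.I → ∀ d ∈ p.W, p.B i d = q.B i d := by
    intro i hi hi' d hd
    have h1 := congrArg Subtype.val (hgr i hi hi')
    ext n
    have h2 : (d, n) ∈ (p.gr i).1 ↔ (d, n) ∈ (q.gr i).1 := by rw [h1]
    have h3 : d ∈ q.W := hW ▸ hd
    have h4 : (d ∈ p.W ∧ n ∈ p.B i d) ↔ (d ∈ q.W ∧ n ∈ q.B i d) := h2
    tauto
  have hty' : ∀ a : Finset Om, ↑a ⊆ p.W → ∀ f ∈ p.W, (Ent p.I p.B a f ↔ Ent q.I q.B a f) := by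
    intro a ha f hf
    have h1 := congrArg Subtype.val hty
    have h2 : (a, f) ∈ p.ty.1 ↔ (a, f) ∈ q.ty.1 := by rw [h1]
    have h3 : (↑a ⊆ p.W ∧ f ∈ p.W ∧ Ent p.I p.B a f) ↔ (↑a ⊆ q.W ∧ f ∈ q.W ∧ Ent q.I q.B a f) := h2
    rw [← hW] at h3
    tauto
  have huc : UC q.I p.W q.B := by rw [hW]; exact q.uc
  obtain ⟨B', h1, h2, h3⟩ := p.uc.amalg huc hty' hag
  refine ⟨⟨p.I ∪ q.I, p.W, B', p.hI.union q.hI, p.ne.mono subset_union_left, p.hW, h3, ?_⟩, ?_, ?_⟩
  · intro d hd d' hd' h4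
    refine p.dist d hd d' hd' fun i hi => ?_
    rw [← h1 i hi d hd, ← h1 i hi d' hd']
    exact h4 i (Or.inl hi)
  · exact ⟨subset_union_left, subset_rfl, h1⟩
  · refine ⟨subset_union_right, hW.symm.le, ?_⟩
    intro i hi d hd
    exact h2 i hi d (hW.symm ▸ hd)

theorem cc (f : Lam → Cond) (x : Lam → Set ℕ) :
    ∃ a b, a ≠ b ∧ x a = x b ∧ ∃ r, r ≤ f a ∧ r ≤ f b := by
  have hOm : #Om = 𝔠 := by rw [mk_set, mk_nat, two_power_aleph0]
  have hK : #{s : Set (Om × ℕ) // s.Countable} ≤ 𝔠 := by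
    refine mk_countable_subsets _ ?_ inferInstance
    rw [mk_prod, lift_id, lift_id, hOm, mk_nat]
    exact continuum_mul_aleph0.le
  have hC : #({s : Set Om // s.Countable} × {s : Set (Finset Om × Om) // s.Countable} × Set ℕ) ≤
      𝔠 := by
    rw [mk_prod, mk_prod, lift_id, lift_id, lift_id, lift_id, hOm]
    have h1 : #{s : Set Om // s.Countable} ≤ 𝔠 := mk_countable_subsets _ hOm.le inferInstance
    have h2 : #{s : Set (Finset Om × Om) // s.Countable} ≤ 𝔠 := by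
      refine mk_countable_subsets _ ?_ inferInstance
      rw [mk_prod, lift_id, lift_id, mk_finset_of_infinite, hOm, continuum_mul_self]
    calc #{s : Set Om // s.Countable} * (#{s : Set (Finset Om × Om) // s.Countable} * 𝔠) ≤
        𝔠 * (𝔠 * 𝔠) := mul_le_mul' h1 (mul_le_mul' h2 le_rfl)
      _ = 𝔠 := by rw [continuum_mul_self, continuum_mul_self]
  let col : Lam → {s : Set Om // s.Countable} × {s : Set (Finset Om × Om) // s.Countable} × Set ℕ :=
    fun a => (⟨(f a).W, (f a).hW⟩, (f a).ty, x a)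
  let Q : Set (Lam × {s : Set (Om × ℕ) // s.Countable}) →
      {s : Set Om // s.Countable} × {s : Set (Finset Om × Om) // s.Countable} × Set ℕ → Lam → Prop :=
    fun D c a => col a = c ∧ ∀ y ∈ D, y.1 ∈ (f a).I ∧ (f a).gr y.1 = y.2
  let Φ : Set (Lam × {s : Set (Om × ℕ) // s.Countable}) →
      {s : Set Om // s.Countable} × {s : Set (Finset Om × Om) // s.Countable} × Set ℕ →
      Set Lam := fun D c => if h : ∃ a, Q D c a then insert h.choose (f h.choose).I else ∅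
  obtain ⟨i0, _⟩ := (f ((f (Classical.choice (by
    rw [← mk_ne_zero_iff, mk_ord_toType]
    exact (Order.succ_ne_bot 𝔠 : _)))).ne.some)).ne
  obtain ⟨X, hX, _, hcl⟩ := exists_closed hK hC Φ (by
    intro D c _
    show (if h : ∃ a, Q D c a then insert h.choose (f h.choose).I else ∅ : Set Lam).Countable
    split_ifs with h
    · exact ((f h.choose).hI).insert _
    · exact countable_empty) i0
  have hb : ∃ b, b ∉ X := by
    by_contra hcon
    push Not at hcon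
    have h1 : X = Set.univ := eq_univ_of_forall hcon
    rw [h1, mk_univ, mk_ord_toType] at hX
    exact absurd hX (not_le.2 (Order.lt_succ 𝔠))
  obtain ⟨b, hb⟩ := hb
  let D : Set (Lam × {s : Set (Om × ℕ) // s.Countable}) :=
    (fun i => (i, (f b).gr i)) '' ((f b).I ∩ X)
  have hD : D.Countable := ((f b).hI.mono inter_subset_left).image _
  have hex : ∃ a, Q D (col b) a := ⟨b, rfl, by
    rintro _ ⟨i, hi, rfl⟩
    exact ⟨hi.1, rfl⟩⟩
  have h1 := hcl D hD (by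
    rintro _ ⟨i, hi, rfl⟩
    exact hi.2) (col b)
  have h2 : Φ D (col b) = insert hex.choose (f hex.choose).I := dif_pos hex
  rw [h2] at h1
  obtain ⟨h3, h4⟩ := hex.choose_spec
  set a := hex.choose with ha
  have haX : a ∈ X := h1 (mem_insert _ _)
  have h5 : (f a).W = (f b).W := congrArg (fun c => c.1.1) h3
  have h6 : (f a).ty = (f b).ty := congrArg (fun c => c.2.1) h3
  have h7 : x a = x b := congrArg (fun c => c.2.2) h3
  refine ⟨a, b, fun h => hb (h ▸ haX), h7, exists_compat h5 h6 ?_⟩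
  intro i hi hi'
  exact (h4 (i, (f b).gr i) ⟨i, ⟨hi', h1 (mem_insert_of_mem _ hi)⟩, rfl⟩).2

end Cond

end Pool.Agent.Lib.MP_a6d962_lc.Cs
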