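import Mathlib

/-!
# Matrices of bases of ultrafilters (in Mathlib terms)
-/

namespace Pool.Agent.Lib.MP_a6d962_lc.Cs

/-- The sets `B i d` (`d : W`) form a base of an ultrafilter for every `i : L`, the order of the base
does not depend on `i`, different indices give different ultrafilters, there are more than
continuum many indices, and every uncountable subset of `W` contains infinitely many elements with a
common lower bound. -/
structure Mat (L W : Type*) (B : L → W → Set ℕ) : Prop where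
  nosurj : ¬ ∃ f : Set ℕ → L, Function.Surjective f
  ne : Nonempty L
  np : ∀ i d n, ∃ m, m ≠ n ∧ m ∈ B i d
  dir : ∀ i d e, ∃ g, B i g ⊆ B i d ∧ B i g ⊆ B i e
  ult : ∀ i, ∀ z : Set ℕ, ∃ d, B i d ⊆ z ∨ ∀ x ∈ B i d, x ∉ z
  ord : ∀ i j d e, B i d ⊆ B i e → B j d ⊆ B j e
  sep : ∀ i j, i ≠ j → ∃ d, ∀ x ∈ B i d, x ∉ B j d
  unc : ∀ s : Set W, ¬ s.Countable → ∃ h : ℕ → W, Function.Injective h ∧ (∀ k, h k ∈ s) ∧
    ∃ g, ∀ k i, B i g ⊆ B i (h k)

end Pool.Agent.Lib.MP_a6d962_lc.Cs
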