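import Mathlib

/-!
# An ultrafilter with continuum many members no infinitely many of which contain a common member

PROOF.  Let `D = (Finset ℕ) × Finset (Finset ℕ)`, a countable infinite type, `e : ℕ ≃ D` (`Denumerable`; or any
surjection `ℕ → D`).  For `α : Set ℕ` let `X α = {n | (e n).1.filter (· ∈ α) ∈ (e n).2}` (classical decidability).
INDEPENDENCE: if `p, q : Finset (Set ℕ)` are disjoint, there is `n` with `n ∈ X α` for all `α ∈ p` and `n ∉ X β` for all
`β ∈ q`: take a finite `s ⊆ ℕ` such that `α ∩ s ≠ β ∩ s` for all `α ∈ p`, `β ∈ q` (one point for each pair), and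
`t = {α ∩ s : α ∈ p}`.
For infinite `S : Set (Set ℕ)` let `N S = {n | ∃ α ∈ S, n ∉ X α}`.  The family of all `X α` and all `N S` (`S` infinite) has the
finite intersection property: given `α_1..α_k` and infinite `S_1..S_l` choose `β_j ∈ S_j \ {α_1..α_k}` and use
independence with `p = {α_i}`, `q = {β_j}`.  Let `V` be an ultrafilter containing the family
(`Filter.generate` + `Filter.generate_neBot_iff` + `Ultrafilter.of`).  If `Y ∈ V` and `Y ⊆ X α` for all `α` in
an infinite `S`, then `Y ∩ N S = ∅`, contradiction.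
-/

namespace Pool.Agent.Lib.MP_a6d962_lc.Cs

open Classical in
/-- the independent family -/
private noncomputable def Top_X (e : ℕ → Finset ℕ × Finset (Finset ℕ)) (α : Set ℕ) : Set ℕ :=
  {n | (e n).1.filter (fun x => x ∈ α) ∈ (e n).2}

private theorem Top_ne {α β : Set ℕ} (h : α ≠ β) : ∃ x, ¬ (x ∈ α ↔ x ∈ β) := by
  by_contra hcon
  push Not at hcon
  exact h (Set.ext hcon)

private theorem Top_indep {e : ℕ → Finset ℕ × Finset (Finset ℕ)} (he : Function.Surjective e)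
    (p q : Finset (Set ℕ)) (hpq : ∀ β ∈ q, β ∉ p) :
    ∃ n, (∀ α ∈ p, n ∈ Top_X e α) ∧ ∀ β ∈ q, n ∉ Top_X e β := by
  classical
  let c : Set ℕ × Set ℕ → ℕ := fun z => if h : z.1 ≠ z.2 then (Top_ne h).choose else 0
  let s : Finset ℕ := (p ×ˢ q).image c
  let t : Finset (Finset ℕ) := p.image fun α => s.filter (fun x => x ∈ α)
  obtain ⟨n, hn⟩ := he (s, t)
  refine ⟨n, fun α hα => ?_, fun β hβ hmem => ?_⟩
  · show (e n).1.filter (fun x => x ∈ α) ∈ (e n).2
    rw [hn]
    exact Finset.mem_image_of_mem (fun α : Set ℕ => s.filter (fun x => x ∈ α)) hα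
  · have hmem2 : (e n).1.filter (fun x => x ∈ β) ∈ (e n).2 := hmem
    rw [hn] at hmem2
    obtain ⟨α, hα, hαβ⟩ := Finset.mem_image.1 hmem2
    have hne : α ≠ β := by
      rintro rfl
      exact hpq α hβ hα
    have hcs : c (α, β) ∈ s := Finset.mem_image_of_mem c (Finset.mem_product.2 ⟨hα, hβ⟩)
    have hc : ¬ (c (α, β) ∈ α ↔ c (α, β) ∈ β) := by
      have h1 : c (α, β) = (Top_ne hne).choose := dif_pos hne
      rw [h1]
      exact (Top_ne hne).choose_spec
    apply hc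
    constructor
    · intro h1
      have h2 : c (α, β) ∈ s.filter (fun x => x ∈ α) := Finset.mem_filter.2 ⟨hcs, h1⟩
      have h3 : s.filter (fun x => x ∈ α) = s.filter (fun x => x ∈ β) := hαβ
      rw [h3] at h2
      exact (Finset.mem_filter.1 h2).2
    · intro h1
      have h2 : c (α, β) ∈ s.filter (fun x => x ∈ β) := Finset.mem_filter.2 ⟨hcs, h1⟩
      have h3 : s.filter (fun x => x ∈ α) = s.filter (fun x => x ∈ β) := hαβ
      rw [← h3] at h2
      exact (Finset.mem_filter.1 h2).2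

/-- the points missed by some member of the family -/
private def Top_N (X : Set ℕ → Set ℕ) (S : Set (Set ℕ)) : Set ℕ := {n | ∃ α ∈ S, n ∉ X α}

private theorem Top_fip {e : ℕ → Finset ℕ × Finset (Finset ℕ)} (he : Function.Surjective e)
    (t : Set (Set ℕ)) (ht : t ⊆ {T | (∃ α, T = Top_X e α) ∨ ∃ S : Set (Set ℕ), S.Infinite ∧ T = Top_N (Top_X e) S})
    (hfin : t.Finite) : (⋂₀ t).Nonempty := by
  classical
  let a : Set ℕ → Set ℕ := fun T => if h : ∃ α, T = Top_X e α then h.choose else ∅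
  have ha : ∀ T, (∃ α, T = Top_X e α) → T = Top_X e (a T) := by
    intro T h
    have h1 : a T = h.choose := dif_pos h
    rw [h1]
    exact h.choose_spec
  let p : Finset (Set ℕ) := (hfin.toFinset.filter (fun T => ∃ α, T = Top_X e α)).image a
  have hb : ∀ T, (T ∈ t ∧ ¬ ∃ α, T = Top_X e α) → ∃ β, β ∉ p ∧ ∀ n, n ∉ Top_X e β → n ∈ T := by
    rintro T ⟨hT, hn⟩
    obtain ⟨S, hS, hTS⟩ := (ht hT).resolve_left hn
    obtain ⟨β, hβS, hβp⟩ := hS.exists_notMem_finset p
    refine ⟨β, hβp, fun n hn => ?_⟩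
    rw [hTS]
    exact ⟨β, hβS, hn⟩
  choose! b hb1 hb2 using hb
  let q : Finset (Set ℕ) := (hfin.toFinset.filter (fun T => ¬ ∃ α, T = Top_X e α)).image b
  obtain ⟨n, hn1, hn2⟩ := Top_indep he p q (by
    intro β hβ
    obtain ⟨T, hT, rfl⟩ := Finset.mem_image.1 hβ
    have hT2 := Finset.mem_filter.1 hT
    exact hb1 T ⟨hfin.mem_toFinset.1 hT2.1, hT2.2⟩)
  refine ⟨n, fun T hT => ?_⟩
  by_cases h : ∃ α, T = Top_X e α
  · rw [ha T h]
    exact hn1 (a T) (Finset.mem_image_of_mem a (Finset.mem_filter.2 ⟨hfin.mem_toFinset.2 hT, h⟩))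
  · exact hb2 T ⟨hT, h⟩ n (hn2 (b T)
      (Finset.mem_image_of_mem b (Finset.mem_filter.2 ⟨hfin.mem_toFinset.2 hT, h⟩)))

theorem exists_top : ∃ (V : Ultrafilter ℕ) (X : Set ℕ → Set ℕ), (∀ α, X α ∈ V) ∧
    ∀ S : Set (Set ℕ), S.Infinite → ∀ Y ∈ V, ¬ ∀ α ∈ S, Y ⊆ X α := by
  obtain ⟨e, he⟩ := exists_surjective_nat (Finset ℕ × Finset (Finset ℕ))
  have hne : (Filter.generate {T : Set ℕ | (∃ α, T = Top_X e α) ∨
      ∃ S : Set (Set ℕ), S.Infinite ∧ T = Top_N (Top_X e) S}).NeBot := by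
    rw [Filter.generate_neBot_iff]
    intro t ht hfin
    exact Top_fip he t ht hfin
  refine ⟨Ultrafilter.of (Filter.generate {T : Set ℕ | (∃ α, T = Top_X e α) ∨
      ∃ S : Set (Set ℕ), S.Infinite ∧ T = Top_N (Top_X e) S}), Top_X e, fun α => ?_, fun S hS Y hY hsub => ?_⟩
  · exact Ultrafilter.of_le _ (Filter.GenerateSets.basic (Or.inl ⟨α, rfl⟩))
  · have h1 : Top_N (Top_X e) S ∈ Ultrafilter.of (Filter.generate {T : Set ℕ | (∃ α, T = Top_X e α) ∨
        ∃ S : Set (Set ℕ), S.Infinite ∧ T = Top_N (Top_X e) S}) :=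
      Ultrafilter.of_le _ (Filter.GenerateSets.basic (Or.inr ⟨S, hS, rfl⟩))
    obtain ⟨n, hnY, α, hα, hn⟩ := Ultrafilter.nonempty_of_mem (Filter.inter_mem hY h1)
    exact hn (hsub α hα hnY)

end Pool.Agent.Lib.MP_a6d962_lc.Cs
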