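import Pool.Agent.Lib.MP_a6d962_lc.TopN
import Pool.Agent.Lib.MP_a6d962_lc.Cs.Fus
import Pool.Agent.Lib.MP_a6d962_lc.Cs.Top

/-!
# A model in which Q1 fails
-/

namespace Pool.Agent.Lib.MP_a6d962_lc.Cs

open Pool.Agent.Lib.Forcing

theorem exists_notQ1_model :
    ∃ (M : Type) (E : M → M → Prop), Countable M ∧ IsZFC M E ∧ NotQ1 E := by
  obtain ⟨p⟩ := Cond.exists_cond
  obtain ⟨i, _⟩ := p.ne
  obtain ⟨V, X, hX, hTop⟩ := exists_top
  exact exists_model' Cond.gsys hX hTop i p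

end Pool.Agent.Lib.MP_a6d962_lc.Cs
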