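import Pool.Agent.Lib.MP_a6d962_lc.Cs.Mat
import Pool.Agent.Lib.MP_a6d962_lc.Cs.Top

/-!
# A matrix gives a negative answer

PROOF.  `W` is nonempty (`M.ult`).  For `i : L` let `F i` be the filter with base `{B i d : d : W}` (`M.dir`); by `M.ult` and
`M.np` (the sets `B i d` are nonempty) it is an ultrafilter `U i` with `A ∈ U i ↔ ∃ d, B i d ⊆ A`
(e.g. define the filter directly by its sets and use `Ultrafilter.ofComplNotMemIff` or
`Filter.HasBasis`), and `{n} ∉ U i` by `M.np`.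

TUKEY EQUIVALENCE.  For `i, j : L` the map `g A = B j (d A)`, where `d A` is chosen with `B i (d A) ⊆ A` if `A ∈ U i`,
satisfies `g A ∈ U j` for `A ∈ U i`, and for `X ∈ U j`, say `B j e ⊆ X`, the set `A = B i e ∈ U i` works: if `A' ∈ U i`,
`A' ⊆ A` then `B i (d A') ⊆ A' ⊆ B i e`, so `B j (d A') ⊆ B j e ⊆ X` by `M.ord`.

NOT TOP.  Let `V, X` be from `exists_top`, and suppose `g` witnesses that `V` is Tukey below `U i`.  For `α : Set ℕ` there is
`A ∈ U i` such that `g A' ⊆ X α` for all `A' ∈ U i`, `A' ⊆ A`; take `δ α : W` with `B i (δ α) ⊆ A`; so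
`g A' ⊆ X α` for all `A' ∈ U i` with `A' ⊆ B i (δ α)`.  For each `d : W` the set `{α | δ α = d}` is finite
(otherwise `Y = g (B i d) ∈ V` is contained in `X α` for infinitely many `α`).  So the range of `δ` is uncountable
(`Set ℕ` is uncountable: a countable union of finite sets is countable; `Set.Countable.biUnion`,
`Cardinal.mk_set`, `Cardinal.cantor` or `Function.cantor_injective`).  By `M.unc` there are an injective `h : ℕ → W` with values in the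
range of `δ` and `g0 : W` with `B i g0 ⊆ B i (h k)` for all `k`.  Choose `α k` with `δ (α k) = h k`, injective.  Then
`Y = g (B i g0) ∈ V` is contained in `X (α k)` for all `k`: contradiction.

COUNTING.  `i ↦ U i` is injective by `M.sep` (if `U i = U j`, `i ≠ j`, `B i d ∩ B j d = ∅` is in `U i`, but sets in `U i` are
nonempty).  Fix `i0 : L`.  All `U i` are Tukey equivalent to `U i0`.  If the Tukey type had cardinality continuum there
would be a surjection from `Set ℕ` onto it, hence (compose with a left inverse of `i ↦ U i`) a surjection from `Set ℕ` onto `L`,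
against `M.nosurj`.  (`Cardinal.continuum = #(Set ℕ)` : `Cardinal.mk_set`, `Cardinal.mk_nat`,
`Cardinal.two_power_aleph0`.)
-/

namespace Pool.Agent.Lib.MP_a6d962_lc.Cs

private theorem Neg_ult {L W : Type*} {B : L → W → Set ℕ} (M : Mat L W B) (i : L) :
    ∃ U : Ultrafilter ℕ, ∀ A : Set ℕ, A ∈ U ↔ ∃ d, B i d ⊆ A := by
  let F : Filter ℕ :=
    { sets := {A | ∃ d, B i d ⊆ A}
      univ_sets := by
        obtain ⟨d, _⟩ := M.ult i Set.univ
        exact ⟨d, Set.subset_univ _⟩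
      sets_of_superset := by
        rintro A A' ⟨d, hd⟩ h
        exact ⟨d, hd.trans h⟩
      inter_sets := by
        rintro A A' ⟨d, hd⟩ ⟨e, he⟩
        obtain ⟨g, hg1, hg2⟩ := M.dir i d e
        exact ⟨g, Set.subset_inter (hg1.trans hd) (hg2.trans he)⟩ }
  have hF : ∀ A : Set ℕ, A ∈ F ↔ ∃ d, B i d ⊆ A := fun A => Iff.rfl
  obtain ⟨n0⟩ : Nonempty ℕ := ⟨0⟩
  have h : ∀ s : Set ℕ, sᶜ ∉ F ↔ s ∈ F := by
    intro s
    constructor
    · intro hs
      obtain ⟨d, hd | hd⟩ := M.ult i s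
      · exact (hF s).2 ⟨d, hd⟩
      · exact absurd ((hF sᶜ).2 ⟨d, fun x hx => hd x hx⟩) hs
    · intro hs hc
      obtain ⟨d, hd⟩ := (hF s).1 hs
      obtain ⟨e, he⟩ := (hF sᶜ).1 hc
      obtain ⟨g, hg1, hg2⟩ := M.dir i d e
      obtain ⟨m, _, hm⟩ := M.np i g n0
      exact he (hg2 hm) (hd (hg1 hm))
  exact ⟨Ultrafilter.ofComplNotMemIff F h, fun A => hF A⟩

private theorem Neg_tukey {L W : Type*} {B : L → W → Set ℕ} (M : Mat L W B)
    {U : L → Ultrafilter ℕ} (hU : ∀ i, ∀ A : Set ℕ, A ∈ U i ↔ ∃ d, B i d ⊆ A) (i j : L) :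
    ∃ g : Set ℕ → Set ℕ, (∀ A ∈ U i, g A ∈ U j) ∧
      ∀ X ∈ U j, ∃ A ∈ U i, ∀ A' ∈ U i, A' ⊆ A → g A' ⊆ X := by
  classical
  have h0 : ∀ A : Set ℕ, ∃ C : Set ℕ, A ∈ U i → ∃ d, B i d ⊆ A ∧ C = B j d := by
    intro A
    by_cases hA : A ∈ U i
    · obtain ⟨d, hd⟩ := (hU i A).1 hA
      exact ⟨B j d, fun _ => ⟨d, hd, rfl⟩⟩
    · exact ⟨∅, fun h => absurd h hA⟩
  choose g hg using h0
  refine ⟨g, ?_, ?_⟩
  · intro A hA
    obtain ⟨d, _, hd⟩ := hg A hA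
    exact (hU j _).2 ⟨d, hd.ge⟩
  · intro X hX
    obtain ⟨e, he⟩ := (hU j X).1 hX
    refine ⟨B i e, (hU i _).2 ⟨e, subset_rfl⟩, ?_⟩
    intro A' hA' hsub
    obtain ⟨d, hd1, hd2⟩ := hg A' hA'
    rw [hd2]
    exact (M.ord i j d e (hd1.trans hsub)).trans he

private theorem Neg_unc : ¬ (Set.univ : Set (Set ℕ)).Countable := by
  intro h
  have h1 := Set.countable_univ_iff.1 h
  have h2 : Cardinal.mk (Set ℕ) ≤ Cardinal.aleph0 := Cardinal.mk_le_aleph0_iff.2 h1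
  rw [Cardinal.mk_set_nat] at h2
  exact absurd h2 (not_le.2 Cardinal.aleph0_lt_continuum)

private theorem Neg_top {L W : Type*} {B : L → W → Set ℕ} (M : Mat L W B)
    {U : L → Ultrafilter ℕ} (hU : ∀ i, ∀ A : Set ℕ, A ∈ U i ↔ ∃ d, B i d ⊆ A) (i : L) :
    ∃ V : Ultrafilter ℕ, ¬ ∃ g : Set ℕ → Set ℕ, (∀ A ∈ U i, g A ∈ V) ∧
      ∀ X ∈ V, ∃ A ∈ U i, ∀ A' ∈ U i, A' ⊆ A → g A' ⊆ X := by
  obtain ⟨V, X, hXV, hX⟩ := exists_top
  refine ⟨V, ?_⟩
  rintro ⟨g, hg1, hg2⟩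
  have hB : ∀ d, B i d ∈ U i := fun d => (hU i _).2 ⟨d, subset_rfl⟩
  have h1 : ∀ α : Set ℕ, ∃ d : W, ∀ A' ∈ U i, A' ⊆ B i d → g A' ⊆ X α := by
    intro α
    obtain ⟨A, hA, hA'⟩ := hg2 (X α) (hXV α)
    obtain ⟨d, hd⟩ := (hU i A).1 hA
    exact ⟨d, fun A' h h' => hA' A' h (h'.trans hd)⟩
  choose δ hδ using h1
  have hfin : ∀ d, {α | δ α = d}.Finite := by
    intro d
    by_contra h
    refine hX _ h (g (B i d)) (hg1 _ (hB d)) ?_
    intro α hα
    have hα' : δ α = d := hα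
    exact hδ α (B i d) (hB d) (by rw [hα'])
  have hunc : ¬ (Set.range δ).Countable := by
    intro hc
    refine Neg_unc ?_
    have h2 : (Set.univ : Set (Set ℕ)) = ⋃ d ∈ Set.range δ, {α | δ α = d} := by
      ext α
      simp only [Set.mem_univ, Set.mem_iUnion, true_iff]
      exact ⟨δ α, ⟨α, rfl⟩, rfl⟩
    rw [h2]
    exact hc.biUnion fun d _ => (hfin d).countable
  obtain ⟨h, hinj, hmem, g0, hg0⟩ := M.unc _ hunc
  choose α hα using hmem
  have hαinj : Function.Injective α := by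
    intro k k' hk
    apply hinj
    rw [← hα k, ← hα k', hk]
  refine hX (Set.range α) (Set.infinite_range_of_injective hαinj) (g (B i g0))
    (hg1 _ (hB g0)) ?_
  rintro _ ⟨k, rfl⟩
  refine hδ (α k) (B i g0) (hB g0) ?_
  rw [hα k]
  exact hg0 k i

theorem Mat.neg {L W : Type*} {B : L → W → Set ℕ} (M : Mat L W B) :
    ¬ (∀ U : Ultrafilter ℕ, (∀ n : ℕ, ({n} : Set ℕ) ∉ U) →
      (∃ V : Ultrafilter ℕ, ¬ ∃ g : Set ℕ → Set ℕ, (∀ A ∈ U, g A ∈ V) ∧
          ∀ B ∈ V, ∃ A ∈ U, ∀ A' ∈ U, A' ⊆ A → g A' ⊆ B) →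
      Cardinal.mk {W : Ultrafilter ℕ //
        (∃ g : Set ℕ → Set ℕ, (∀ A ∈ U, g A ∈ W) ∧
          ∀ B ∈ W, ∃ A ∈ U, ∀ A' ∈ U, A' ⊆ A → g A' ⊆ B) ∧
        (∃ g : Set ℕ → Set ℕ, (∀ A ∈ W, g A ∈ U) ∧
          ∀ B ∈ U, ∃ A ∈ W, ∀ A' ∈ W, A' ⊆ A → g A' ⊆ B)} = Cardinal.continuum) := by
  intro H
  choose U hU using Neg_ult M
  obtain ⟨i0⟩ := M.ne
  have hB : ∀ i d, B i d ∈ U i := fun i d => (hU i _).2 ⟨d, subset_rfl⟩
  have hinj : Function.Injective U := by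
    intro i j hij
    by_contra hne
    obtain ⟨d, hd⟩ := M.sep i j hne
    have h1 : B i d ∈ U j := hij ▸ hB i d
    have h2 : B i d ∩ B j d ∈ U j := Filter.inter_mem h1 (hB j d)
    obtain ⟨e, he⟩ := (hU j _).1 h2
    obtain ⟨m, _, hm⟩ := M.np j e 0
    exact hd m (he hm).1 (he hm).2
  have hcard := H (U i0) (by
    intro n hn
    obtain ⟨d, hd⟩ := (hU i0 _).1 hn
    obtain ⟨m, hm, hmB⟩ := M.np i0 d n
    exact hm (hd hmB)) (Neg_top M hU i0)
  rw [← Cardinal.mk_set_nat, Cardinal.eq] at hcard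
  obtain ⟨e⟩ := hcard
  have hf : Function.Injective (fun i : L => e ⟨U i, Neg_tukey M hU i0 i, Neg_tukey M hU i i0⟩) := by
    intro i j hij
    have h1 := e.injective hij
    exact hinj (congrArg Subtype.val h1)
  have : Nonempty L := ⟨i0⟩
  exact M.nosurj ⟨_, Function.invFun_surjective hf⟩

end Pool.Agent.Lib.MP_a6d962_lc.Cs
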