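import Pool.Agent.Lib.MP_a6d962_lc.Cs.ExtA
import Pool.Agent.Lib.MP_a6d962_lc.Cs.Basic3

/-!
# The forcing notion

PROOFS.  `glb`: apply `UC.iUnion` to `I n = (p n).I` and so on.
`ext_of`: the condition `⟨p.I, insert w p.W, upd p.B w C, ..⟩`.
`dense_I`: if `i ∈ p.I` take `p`; if `p.I` is empty take `({i}, p.W, fun _ _ => univ)` (`Ent` always holds, so an admissible pair
has `e = ∅`, and the cell is `univ`); otherwise `UC.addIndex`.
`dense_W`: if `w ∈ p.W` take `p`; otherwise first `dense_I`, then `extend_decide` (or `extend`) and `ext_of`.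
`dense_dec`: first `dense_I`; take `w ∉ q.W` (`q.W` countable, `Ω` uncountable), `extend_decide`, `ext_of`.
`dense_sep`: the same with `extend_sep`.
`distr`: recursion, then `glb`.
-/

namespace Pool.Agent.Lib.MP_a6d962_lc.Cs

/-- The conditions. -/
structure Cond (Λ Ω : Type 1) where
  I : Set Λ
  W : Set Ω
  B : Λ → Ω → Set ℕ
  cI : I.Countable
  cW : W.Countable
  uc : UC I W B

variable {Λ Ω : Type 1}

instance : Preorder (Cond Λ Ω) where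
  le q p := p.I ⊆ q.I ∧ p.W ⊆ q.W ∧ ∀ i ∈ p.I, ∀ d ∈ p.W, q.B i d = p.B i d
  le_refl p := ⟨subset_rfl, subset_rfl, fun _ _ _ _ => rfl⟩
  le_trans r q p h h' := ⟨h'.1.trans h.1, h'.2.1.trans h.2.1, fun i hi d hd =>
    (h.2.2 i (h'.1 hi) d (h'.2.1 hd)).trans (h'.2.2 i hi d hd)⟩

theorem Cond.le_def {p q : Cond Λ Ω} :
    q ≤ p ↔ p.I ⊆ q.I ∧ p.W ⊆ q.W ∧ ∀ i ∈ p.I, ∀ d ∈ p.W, q.B i d = p.B i d := Iff.rfl

/-- the restriction of a condition -/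
def Cond.restrict (p : Cond Λ Ω) (I : Set Λ) (W : Set Ω) (hI : I ⊆ p.I) (hW : W ⊆ p.W) :
    Cond Λ Ω :=
  ⟨I, W, p.B, p.cI.mono hI, p.cW.mono hW, p.uc.restrict hI hW⟩

instance : Nonempty (Cond Λ Ω) :=
  ⟨⟨∅, ∅, fun _ _ => ∅, Set.countable_empty, Set.countable_empty, fun _ _ _ _ _ i hi => hi.elim⟩⟩

theorem Cond.glb (p : ℕ → Cond Λ Ω) (hp : ∀ n, p (n + 1) ≤ p n) :
    ∃ q : Cond Λ Ω, (∀ n, q ≤ p n) ∧ q.I = ⋃ n, (p n).I ∧ q.W = ⋃ n, (p n).W := by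
  have hanti : ∀ n m, n ≤ m → p m ≤ p n := fun n m h => antitone_nat_of_succ_le hp h
  obtain ⟨B', h1, h2⟩ := UC.iUnion (I := fun n => (p n).I) (W := fun n => (p n).W)
    (B := fun n => (p n).B) (fun n m h => (hanti n m h).1) (fun n m h => (hanti n m h).2.1)
    (fun n m h => (hanti n m h).2.2) (fun n => (p n).uc)
  refine ⟨⟨⋃ n, (p n).I, ⋃ n, (p n).W, B', Set.countable_iUnion fun n => (p n).cI,
    Set.countable_iUnion fun n => (p n).cW, h2⟩, fun n => ?_, rfl, rfl⟩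
  exact ⟨Set.subset_iUnion (fun n => (p n).I) n, Set.subset_iUnion (fun n => (p n).W) n, h1 n⟩

theorem Cond.ext_of [DecidableEq Ω] (p : Cond Λ Ω) {w : Ω} (hw : w ∉ p.W) {C : Λ → Set ℕ}
    (h : UC p.I (insert w p.W) (upd p.B w C)) :
    ∃ q : Cond Λ Ω, q ≤ p ∧ q.I = p.I ∧ q.W = insert w p.W ∧ ∀ i, q.B i w = C i := by
  refine ⟨⟨p.I, insert w p.W, upd p.B w C, p.cI, p.cW.insert w, h⟩, ⟨subset_rfl,
    Set.subset_insert _ _, fun i _ d hd => ?_⟩, rfl, rfl, fun i => by simp [upd]⟩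
  have : d ≠ w := fun h => hw (h ▸ hd)
  simp [upd, this]

theorem Cond.dense_I (p : Cond Λ Ω) (i : Λ) : ∃ q : Cond Λ Ω, q ≤ p ∧ i ∈ q.I := by
  classical
  by_cases hi : i ∈ p.I
  · exact ⟨p, le_rfl, hi⟩
  · rcases p.I.eq_empty_or_nonempty with he | ⟨i0, hi0⟩
    · refine ⟨⟨{i}, p.W, fun _ _ => Set.univ, Set.countable_singleton i, p.cW, ?_⟩, ⟨?_, subset_rfl,
        ?_⟩, rfl⟩
      · intro a e _ _ hadm j _
        have h1 : e = ∅ := by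
          by_contra hne
          obtain ⟨f, hf⟩ := Finset.nonempty_iff_ne_empty.2 hne
          exact hadm f hf fun _ _ _ _ => trivial
        subst h1
        have h2 : cell (fun _ : Ω => (Set.univ : Set ℕ)) a ∅ = Set.univ := by
          ext x; simp [mem_cell]
        rw [h2]
        exact Set.infinite_univ
      · rw [he]; exact Set.empty_subset _
      · intro j hj
        rw [he] at hj
        exact hj.elim
    · refine ⟨⟨insert i p.I, p.W, fun k => if k = i then p.B i0 else p.B k, p.cI.insert i, p.cW,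
        p.uc.addIndex hi0 hi⟩, ⟨Set.subset_insert _ _, subset_rfl, ?_⟩, Set.mem_insert _ _⟩
      intro j hj d _
      have : j ≠ i := fun h => hi (h ▸ hj)
      simp [this]

theorem Cond.exists_fresh [Uncountable Ω] (p : Cond Λ Ω) : ∃ w, w ∉ p.W := by
  by_contra hcon
  push Not at hcon
  have h1 : p.W = Set.univ := Set.eq_univ_of_forall hcon
  have h2 := p.cW
  rw [h1, Set.countable_univ_iff] at h2
  exact not_countable h2

theorem Cond.dense_W [Nonempty Λ] (p : Cond Λ Ω) (w : Ω) : ∃ q : Cond Λ Ω, q ≤ p ∧ w ∈ q.W := by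
  classical
  by_cases hw : w ∈ p.W
  · exact ⟨p, le_rfl, hw⟩
  · obtain ⟨i⟩ := ‹Nonempty Λ›
    obtain ⟨p', hp', hi⟩ := p.dense_I i
    by_cases hw' : w ∈ p'.W
    · exact ⟨p', hp', hw'⟩
    · obtain ⟨C, -, -, h⟩ := extend_decide p'.cI p'.cW p'.uc hw' hi Set.univ (a0 := ∅) (by simp)
      obtain ⟨q, hq, -, h2, -⟩ := p'.ext_of hw' h
      exact ⟨q, hq.trans hp', h2 ▸ Set.mem_insert _ _⟩

theorem Cond.dense_dec [Uncountable Ω] (p : Cond Λ Ω) (i : Λ) (Z : Set ℕ) {a0 : Finset Ω}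
    (ha0 : ↑a0 ⊆ p.W) : ∃ q : Cond Λ Ω, q ≤ p ∧ i ∈ q.I ∧ ∃ w ∈ q.W,
      (q.B i w ⊆ Z ∨ ∀ x ∈ q.B i w, x ∉ Z) ∧ ∀ d ∈ a0, q.B i w ⊆ q.B i d := by
  classical
  obtain ⟨p', hp', hi⟩ := p.dense_I i
  obtain ⟨w, hw⟩ := p'.exists_fresh
  obtain ⟨C, h1, h2, h⟩ := extend_decide p'.cI p'.cW p'.uc hw hi Z (a0 := a0) (ha0.trans hp'.2.1)
  obtain ⟨q, hq, h3, h4, h5⟩ := p'.ext_of hw h
  refine ⟨q, hq.trans hp', h3 ▸ hi, w, h4 ▸ Set.mem_insert _ _, ?_, ?_⟩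
  · rw [h5]; exact h2
  · intro d hd
    rw [h5, hq.2.2 i hi d (hp'.2.1 (ha0 hd))]
    exact h1 i hi d hd

theorem Cond.dense_sep [Uncountable Ω] (p : Cond Λ Ω) {i j : Λ} (hij : i ≠ j) :
    ∃ q : Cond Λ Ω, q ≤ p ∧ i ∈ q.I ∧ j ∈ q.I ∧ ∃ w ∈ q.W, ∀ x ∈ q.B i w, x ∉ q.B j w := by
  classical
  obtain ⟨p1, hp1, hi⟩ := p.dense_I i
  obtain ⟨p2, hp2, hj⟩ := p1.dense_I j
  obtain ⟨w, hw⟩ := p2.exists_fresh
  obtain ⟨C, h1, h⟩ := extend_sep p2.cI p2.cW p2.uc hw (hp2.1 hi) hj hij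
  obtain ⟨q, hq, h3, h4, h5⟩ := p2.ext_of hw h
  refine ⟨q, hq.trans (hp2.trans hp1), h3 ▸ hp2.1 hi, h3 ▸ hj, w, h4 ▸ Set.mem_insert _ _, ?_⟩
  rw [h5, h5]
  exact h1

theorem Cond.distr (D : ℕ → Cond Λ Ω → Prop) (hopen : ∀ n p q, D n p → q ≤ p → D n q)
    (hdense : ∀ n p, ∃ q, q ≤ p ∧ D n q) (p : Cond Λ Ω) : ∃ q, q ≤ p ∧ ∀ n, D n q := by
  choose f hf1 hf2 using hdense
  let s : ℕ → Cond Λ Ω := fun n => Nat.rec p (fun n x => f n x) n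
  have hs : ∀ n, s (n + 1) ≤ s n := fun n => hf1 n (s n)
  obtain ⟨q, hq, -, -⟩ := Cond.glb s hs
  exact ⟨q, hq 0, fun n => hopen n _ _ (hf2 n (s n)) (hq (n + 1))⟩

end Pool.Agent.Lib.MP_a6d962_lc.Cs
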