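import Pool.Agent.Lib.MP_a6d962_lc.Cs.PFml
import Pool.Agent.Lib.MP_a6d962_lc.Cs.Poset
import Pool.Agent.Lib.MP_40b13d_lc.Bv

/-!
# Names for the generic matrix
-/

namespace Pool.Agent.Lib.MP_a6d962_lc.Cs

open Pool.Agent.Lib.Forcing Pool.Agent.Lib.MP_40b13d_lc

section General

variable {P : Type 1} [Preorder P]

theorem forces_ball_om {φ : Fml} {j : ℕ} {v : ℕ → Name P} {p : P} (hv : v j = omegaN) :
    Forces (fball j φ) v p ↔ ∀ n : ℕ, Forces φ (cons (natN n) v) p := by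
  constructor
  · intro h n
    have h1 := forces_imp.1 (h (natN n)) p le_rfl
    apply h1
    show MemF (natN n) (v j) p
    rw [hv]
    exact natN_mem_omegaN n p
  · intro h τ
    rw [forces_imp]
    intro q hq h1
    apply Forces.dense
    intro r hr
    have h1' : MemF τ (v j) q := h1
    rw [hv] at h1'
    obtain ⟨s, hs, n, h2⟩ := memF_omegaN.1 h1' r hr
    exact ⟨s, hs, ((h n).mono ((hs.trans hr).trans hq)).congr_cons h2.symm⟩

theorem forces_bex_om {φ : Fml} {j : ℕ} {v : ℕ → Name P} {p : P} (hv : v j = omegaN) :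
    Forces (fbex j φ) v p ↔ ∀ q, q ≤ p → ∃ r, r ≤ q ∧ ∃ n : ℕ, Forces φ (cons (natN n) v) r := by
  rw [fbex, forces_neg]
  refine forall₂_congr fun q hq => ?_
  rw [forces_ball_om hv]
  constructor
  · intro h
    push Not at h
    obtain ⟨n, hn⟩ := h
    rw [forces_neg] at hn
    push Not at hn
    obtain ⟨r, hr, h1⟩ := hn
    exact ⟨r, hr, n, h1⟩
  · rintro ⟨r, hr, n, h1⟩ h
    exact h n r hr h1

theorem forces_bex_chk {φ : Fml} {j : ℕ} {v : ℕ → Name P} {p : P} {o : Ordinal.{0}}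
    (hv : v j = chk o) :
    Forces (fbex j φ) v p ↔ ∀ q, q ≤ p → ∃ r, r ≤ q ∧ ∃ x, x < o ∧ Forces φ (cons (chk x) v) r := by
  rw [fbex, forces_neg]
  refine forall₂_congr fun q hq => ?_
  rw [forces_ball_chk hv]
  constructor
  · intro h
    push Not at h
    obtain ⟨x, hx, hn⟩ := h
    rw [forces_neg] at hn
    push Not at hn
    obtain ⟨r, hr, h1⟩ := hn
    exact ⟨r, hr, x, hx, h1⟩
  · rintro ⟨r, hr, x, hx, h1⟩ h
    exact h x hx r hr h1

theorem forces_fMem3 {r i d n : ℕ} {v : ℕ → Name P} {p : P} :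
    Forces (fMem3 r i d n) v p ↔ MemF (opN (opN (v i) (v d)) (v n)) (v r) p := by
  rw [forces_iff, memF_iff_models]
  refine forall₂_congr fun U _ => ?_
  rw [sat_fMem3, modE_cl]
  constructor
  · rintro ⟨z, hz, h⟩
    rw [isOPair_iff] at hz
    subst hz
    rwa [isApp_iff] at h
  · intro h
    exact ⟨_, mod_opN U _ _, (isApp_iff U _ _ _).2 h⟩

/-- decide a subset of `ω` -/
theorem decide_subset {D : ℕ → P → Prop} (hD : ∀ n p q, D n p → q ≤ p → D n q)
    (hdist : ∀ A : ℕ → P → Prop, (∀ n p q, A n p → q ≤ p → A n q) →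
      (∀ n p, ∃ q, q ≤ p ∧ A n q) → ∀ p, ∃ q, q ≤ p ∧ ∀ n, A n q) (p : P) :
    ∃ q, q ≤ p ∧ ∃ Z : Set ℕ, ∀ n, (n ∈ Z → D n q) ∧ (n ∉ Z → ∀ r, r ≤ q → ¬ D n r) := by
  obtain ⟨q, hq, h⟩ := hdist (fun n p => D n p ∨ ∀ r, r ≤ p → ¬ D n r)
    (by
      rintro n p q (h | h) hq
      · exact Or.inl (hD n p q h hq)
      · exact Or.inr fun r hr => h r (hr.trans hq))
    (by
      intro n p
      by_cases h : ∃ r, r ≤ p ∧ D n r
      · obtain ⟨r, hr, h⟩ := h
        exact ⟨r, hr, Or.inl h⟩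
      · push Not at h
        exact ⟨p, le_rfl, Or.inr h⟩) p
  refine ⟨q, hq, {n | D n q}, fun n => ⟨fun h => h, fun h1 => ?_⟩⟩
  rcases h n with h2 | h2
  · exact (h1 h2).elim
  · exact h2

end General

section Matrix

variable (a b : Ordinal.{0})

/-- The forcing notion with indices `i < a` and `d < b`. -/
abbrev PP := Cond (Set.Iio a) (Set.Iio b)

/-- The name of the generic matrix. -/
noncomputable def RN : Name (PP a b) :=
  relN (ι := (Set.Iio a × Set.Iio b) × ULift.{1} ℕ)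
    (fun t => opN (chk t.1.1.1) (chk t.1.2.1)) (fun t => natN t.2.down)
    (fun t p => t.1.1 ∈ p.I ∧ t.1.2 ∈ p.W ∧ t.2.down ∈ p.B t.1.1 t.1.2)

/-- The assignment of the variables. -/
noncomputable def vN : ℕ → Name (PP a b)
  | 0 => RN a b
  | 1 => chk b
  | 2 => chk a
  | _ + 3 => omegaN

variable {a b}

/-- `p` forces that `n` belongs to the set with indices `i`, `d`. -/
def InR (i : Set.Iio a) (d : Set.Iio b) (n : ℕ) (p : PP a b) : Prop :=
  MemF (opN (opN (chk i.1) (chk d.1)) (natN n)) (RN a b) p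

theorem InR.mono {i : Set.Iio a} {d : Set.Iio b} {n : ℕ} {p q : PP a b} (h : InR i d n p)
    (hq : q ≤ p) : InR i d n q := MemF.mono h hq

theorem inR_iff_dense {i : Set.Iio a} {d : Set.Iio b} {n : ℕ} {p : PP a b} : InR i d n p ↔
    ∀ q, q ≤ p → ∃ s, s ≤ q ∧ i ∈ s.I ∧ d ∈ s.W ∧ n ∈ s.B i d := by
  rw [InR, RN, relN, memF_cn (fun t p q h hq => ⟨hq.1 h.1, hq.2.1 h.2.1, by
    rw [hq.2.2 _ h.1 _ h.2.1]; exact h.2.2⟩)]
  refine forall₂_congr fun q hq => exists_congr fun s => and_congr Iff.rfl ?_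
  constructor
  · rintro ⟨⟨⟨i', d'⟩, ⟨m⟩⟩, h1, h2⟩
    rw [eqF_opN, eqF_opN] at h2
    obtain ⟨⟨h3, h4⟩, h5⟩ := h2
    have e1 : i = i' := Subtype.ext (chk_inj h3)
    have e2 : d = d' := Subtype.ext (chk_inj h4)
    have e3 : n = m := natN_inj h5
    subst e1 e2 e3
    exact h1
  · rintro ⟨h1, h2, h3⟩
    exact ⟨((i, d), ⟨n⟩), ⟨h1, h2, h3⟩, EqF.refl _ _⟩

theorem inR_iff {i : Set.Iio a} {d : Set.Iio b} {n : ℕ} {p : PP a b} (hi : i ∈ p.I)
    (hd : d ∈ p.W) : InR i d n p ↔ n ∈ p.B i d := by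
  rw [inR_iff_dense]
  constructor
  · intro h
    obtain ⟨s, hs, -, -, h1⟩ := h p le_rfl
    rwa [hs.2.2 i hi d hd] at h1
  · intro h q hq
    refine ⟨q, le_rfl, hq.1 hi, hq.2.1 hd, ?_⟩
    rw [hq.2.2 i hi d hd]
    exact h

theorem forces_mem3 {r i d n : ℕ} {v : ℕ → Name (PP a b)} {p : PP a b} {i' : Set.Iio a}
    {d' : Set.Iio b} {n' : ℕ} (hr : v r = RN a b) (hi : v i = chk i'.1) (hd : v d = chk d'.1)
    (hn : v n = natN n') : Forces (fMem3 r i d n) v p ↔ InR i' d' n' p := by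
  rw [forces_fMem3, hr, hi, hd, hn, InR]

theorem forces_le3 {o r i d e : ℕ} {v : ℕ → Name (PP a b)} {p : PP a b} {i' : Set.Iio a}
    {d' e' : Set.Iio b} (ho : v o = omegaN) (hr : v r = RN a b) (hi : v i = chk i'.1)
    (hd : v d = chk d'.1) (he : v e = chk e'.1) (h1 : i' ∈ p.I) (h2 : d' ∈ p.W) (h3 : e' ∈ p.W) :
    Forces (fLe3 o r i d e) v p ↔ p.B i' d' ⊆ p.B i' e' := by
  have key : ∀ (n : ℕ) (q : PP a b) (f : ℕ) (f' : Set.Iio b), v f = chk f'.1 →
      (Forces (fMem3 (r + 1) (i + 1) (f + 1) 0) (cons (natN n) v) q ↔ InR i' f' n q) :=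
    fun n q f f' hf => forces_mem3 (v := cons (natN n) v) hr hi hf rfl
  rw [fLe3, forces_ball_om ho]
  constructor
  · intro h n hn
    have h4 := forces_imp.1 (h n) p le_rfl
    rw [key n p d d' hd, key n p e e' he, inR_iff h1 h2, inR_iff h1 h3] at h4
    exact h4 hn
  · intro h n
    rw [forces_imp]
    intro q hq
    rw [key n q d d' hd, key n q e e' he, inR_iff (hq.1 h1) (hq.2.1 h2),
      inR_iff (hq.1 h1) (hq.2.1 h3), hq.2.2 _ h1 _ h2, hq.2.2 _ h1 _ h3]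
    exact fun h4 => h h4

end Matrix

end Pool.Agent.Lib.MP_a6d962_lc.Cs
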