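import Pool.Agent.Lib.MP_40b13d_lc.ZDefs

/-!
# The principle inside a structure `(M, E)` for the language of set theory

`IsZFC`, `IsSub`, `IsOPair`, `IsApp`, `IsFun`, `HasInj`, `HasSurj`, `IsPower` come from
`Pool.Agent.Lib.Forcing.Defs`, and `IsOmega` (`w` is the set of natural numbers) comes from
`Pool.Agent.Lib.MP_40b13d_lc.ZDefs`.
-/

namespace Pool.Agent.Lib.MP_a6d962_lc.Cs

open Pool.Agent.Lib.Forcing Pool.Agent.Lib.MP_40b13d_lc

variable {M : Type*} (E : M → M → Prop)

/-- `((i, d), n) ∈ r`, that is, `n` belongs to the set `B i d` coded by `r`. -/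
def Mem3 (r i d n : M) : Prop := ∃ z, IsOPair E z i d ∧ IsApp E r z n

/-- `B i d ⊆ B i e` (all sets `B i d` are considered as subsets of `o`, the set of natural
numbers). -/
def Le3 (o r i d e : M) : Prop := ∀ n, E n o → Mem3 E r i d n → Mem3 E r i e n

/-- There is no function from the power set of `o` onto `l`. -/
def NoSurj (o l : M) : Prop := ∀ p, IsPower E p o → ¬ HasSurj E p l

/-- No `B i d` is contained in a singleton. -/
def NonPrin (o l w r : M) : Prop :=
  ∀ i, E i l → ∀ d, E d w → ∀ n, E n o → ∃ m, E m o ∧ m ≠ n ∧ Mem3 E r i d m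

/-- For each `i` the family of all `B i d` is directed downwards. -/
def Directed3 (o l w r : M) : Prop :=
  ∀ i, E i l → ∀ d, E d w → ∀ e, E e w → ∃ g, E g w ∧ Le3 E o r i g d ∧ Le3 E o r i g e

/-- For each `i` and each set `z` of natural numbers some `B i d` is contained in `z` or disjoint
from `z`. -/
def Ultra3 (o l w r : M) : Prop :=
  ∀ i, E i l → ∀ z, IsSub E z o → ∃ d, E d w ∧
    ((∀ n, E n o → Mem3 E r i d n → E n z) ∨ (∀ n, E n o → Mem3 E r i d n → ¬ E n z))

/-- The order of the sets `B i d` under inclusion does not depend on `i`. -/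
def Order3 (o l w r : M) : Prop :=
  ∀ i, E i l → ∀ j, E j l → ∀ d, E d w → ∀ e, E e w → Le3 E o r i d e → Le3 E o r j d e

/-- For `i ≠ j` some `B i d` and `B j d` are disjoint. -/
def Separated3 (o l w r : M) : Prop :=
  ∀ i, E i l → ∀ j, E j l → i ≠ j → ∃ d, E d w ∧ ∀ n, E n o → Mem3 E r i d n → ¬ Mem3 E r j d n

/-- Each uncountable subset `s` of `w` contains infinitely many elements (the values of an injective
function `h` on the set `o` of natural numbers) with a common lower bound. -/
def Bounded3 (o l w r : M) : Prop :=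
  ∀ s, IsSub E s w → ¬ HasInj E s o → ∃ h, IsFun E h o s ∧
    (∀ x x' y, IsApp E h x y → IsApp E h x' y → x = x') ∧
    ∃ g, E g w ∧ ∀ k d, IsApp E h k d → ∀ i, E i l → Le3 E o r i g d

/-- The principle: there are sets `l ≠ ∅` and `w` and a family `B i d` (`i ∈ l`, `d ∈ w`) of sets of
natural numbers, coded by a relation `r`, such that there is no function from the power set of the
natural numbers onto `l`; for each `i ∈ l` the sets `B i d`, `d ∈ w`, form a base of a nonprincipal
ultrafilter; their order under inclusion does not depend on `i`; for `i ≠ j` the two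
ultrafilters are different; and every uncountable subset of `w` contains infinitely many elements
with a common lower bound. -/
def Principle : Prop :=
  ∃ o, IsOmega E o ∧ ∃ l w r, NoSurj E o l ∧ (∃ i, E i l) ∧ NonPrin E o l w r ∧
    Directed3 E o l w r ∧ Ultra3 E o l w r ∧ Order3 E o l w r ∧ Separated3 E o l w r ∧
    Bounded3 E o l w r

end Pool.Agent.Lib.MP_a6d962_lc.Cs
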