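import Pool.Agent.Lib.MP_40b13d_lc.ZFml
import Pool.Agent.Lib.MP_a6d962_lc.Cs.PDefs

/-!
# Formulas for the notions of `PDefs`
-/

set_option linter.unusedSimpArgs false

namespace Pool.Agent.Lib.MP_a6d962_lc.Cs

open Pool.Agent.Lib.Forcing Pool.Agent.Lib.MP_40b13d_lc

variable {M : Type*} {E : M → M → Prop} {v : ℕ → M}

def fMem3 (r i d n : ℕ) : Fml := fex (.fand (dOPair 0 (i + 1) (d + 1)) (dApp (r + 1) 0 (n + 1)))

@[simp] theorem sat_fMem3 {r i d n : ℕ} :
    Sat E (fMem3 r i d n) v ↔ Mem3 E (v r) (v i) (v d) (v n) := by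
  simp only [fMem3, Mem3, sat_ex, sat_and, sat_dOPair, sat_dApp, cons_zero, cons_succ]

def fLe3 (o r i d e : ℕ) : Fml :=
  fball o (fimp (fMem3 (r + 1) (i + 1) (d + 1) 0) (fMem3 (r + 1) (i + 1) (e + 1) 0))

@[simp] theorem sat_fLe3 {o r i d e : ℕ} :
    Sat E (fLe3 o r i d e) v ↔ Le3 E (v o) (v r) (v i) (v d) (v e) := by
  simp only [fLe3, Le3, sat_ball, sat_imp, sat_fMem3, cons_zero, cons_succ]

def fNoSurj (o l : ℕ) : Fml := .fall (fimp (fPower 0 (o + 1)) (.fneg (fSurj 0 (l + 1))))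

@[simp] theorem sat_fNoSurj {o l : ℕ} : Sat E (fNoSurj o l) v ↔ NoSurj E (v o) (v l) := by
  simp only [fNoSurj, NoSurj, sat_all, sat_imp, sat_neg, sat_fPower, sat_fSurj, cons_zero,
    cons_succ]

def fNonPrin (o l w r : ℕ) : Fml :=
  fball l (fball (w + 1) (fball (o + 2) (fbex (o + 3) (.fand (.fneg (.feq 0 1))
    (fMem3 (r + 4) 3 2 0)))))

@[simp] theorem sat_fNonPrin {o l w r : ℕ} :
    Sat E (fNonPrin o l w r) v ↔ NonPrin E (v o) (v l) (v w) (v r) := by
  simp only [fNonPrin, NonPrin, sat_ball, sat_bex, sat_and, sat_neg, sat_eq, sat_fMem3, cons_zero,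
    cons_succ, cons_one, cons_two, cons_three]

def fDirected3 (o l w r : ℕ) : Fml :=
  fball l (fball (w + 1) (fball (w + 2) (fbex (w + 3) (.fand (fLe3 (o + 4) (r + 4) 3 0 2)
    (fLe3 (o + 4) (r + 4) 3 0 1)))))

@[simp] theorem sat_fDirected3 {o l w r : ℕ} :
    Sat E (fDirected3 o l w r) v ↔ Directed3 E (v o) (v l) (v w) (v r) := by
  simp only [fDirected3, Directed3, sat_ball, sat_bex, sat_and, sat_fLe3, cons_zero,
    cons_succ, cons_one, cons_two, cons_three]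

def fDec (o z r i d : ℕ) : Fml :=
  ffor (fball o (fimp (fMem3 (r + 1) (i + 1) (d + 1) 0) (.fmem 0 (z + 1))))
    (fball o (fimp (fMem3 (r + 1) (i + 1) (d + 1) 0) (.fneg (.fmem 0 (z + 1)))))

def fUltra3 (o l w r : ℕ) : Fml :=
  fball l (.fall (fimp (dSub 0 (o + 2)) (fbex (w + 2) (fDec (o + 3) 1 (r + 3) 2 0))))

@[simp] theorem sat_fUltra3 {o l w r : ℕ} :
    Sat E (fUltra3 o l w r) v ↔ Ultra3 E (v o) (v l) (v w) (v r) := by
  simp only [fUltra3, fDec, Ultra3, sat_ball, sat_bex, sat_and, sat_or, sat_neg, sat_mem, sat_all,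
    sat_imp, sat_dSub, sat_fMem3, cons_zero, cons_succ, cons_one, cons_two, cons_three]

def fOrder3 (o l w r : ℕ) : Fml :=
  fball l (fball (l + 1) (fball (w + 2) (fball (w + 3) (fimp (fLe3 (o + 4) (r + 4) 3 1 0)
    (fLe3 (o + 4) (r + 4) 2 1 0)))))

@[simp] theorem sat_fOrder3 {o l w r : ℕ} :
    Sat E (fOrder3 o l w r) v ↔ Order3 E (v o) (v l) (v w) (v r) := by
  simp only [fOrder3, Order3, sat_ball, sat_imp, sat_fLe3, cons_zero,
    cons_succ, cons_one, cons_two, cons_three]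

def fSeparated3 (o l w r : ℕ) : Fml :=
  fball l (fball (l + 1) (fimp (.fneg (.feq 1 0)) (fbex (w + 2) (fball (o + 3)
    (fimp (fMem3 (r + 4) 3 1 0) (.fneg (fMem3 (r + 4) 2 1 0)))))))

@[simp] theorem sat_fSeparated3 {o l w r : ℕ} :
    Sat E (fSeparated3 o l w r) v ↔ Separated3 E (v o) (v l) (v w) (v r) := by
  simp only [fSeparated3, Separated3, sat_ball, sat_bex, sat_neg, sat_eq, sat_imp, sat_fMem3,
    cons_zero, cons_succ, cons_one, cons_two, cons_three]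

def fBdd (o l w r h : ℕ) : Fml :=
  fbex w (.fall (.fall (fimp (dApp (h + 3) 1 0) (fball (l + 3)
    (fLe3 (o + 4) (r + 4) 0 3 1)))))

@[simp] theorem sat_fBdd {o l w r h : ℕ} : Sat E (fBdd o l w r h) v ↔
    ∃ g, E g (v w) ∧ ∀ k d, IsApp E (v h) k d → ∀ i, E i (v l) → Le3 E (v o) (v r) i g d := by
  simp only [fBdd, sat_ball, sat_bex, sat_all, sat_imp, sat_dApp, sat_fLe3,
    cons_zero, cons_succ, cons_one, cons_two, cons_three]

def fBounded3 (o l w r : ℕ) : Fml :=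
  .fall (fimp (dSub 0 (w + 1)) (fimp (.fneg (fInj 0 (o + 1))) (fex (.fand (dFun 0 (o + 2) 1)
    (.fand (fInjRel 0) (fBdd (o + 2) (l + 2) (w + 2) (r + 2) 0))))))

@[simp] theorem sat_fBounded3 {o l w r : ℕ} :
    Sat E (fBounded3 o l w r) v ↔ Bounded3 E (v o) (v l) (v w) (v r) := by
  simp only [fBounded3, Bounded3, sat_all, sat_imp, sat_neg, sat_ex, sat_and, sat_dSub, sat_fInj,
    sat_dFun, sat_fInjRel, sat_fBdd, cons_zero, cons_succ, cons_one, cons_two]

def fPrinciple : Fml :=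
  fex (.fand (fOmega 0) (fex (fex (fex (.fand (fNoSurj 3 2) (.fand (fex (.fmem 0 3))
    (.fand (fNonPrin 3 2 1 0) (.fand (fDirected3 3 2 1 0) (.fand (fUltra3 3 2 1 0)
    (.fand (fOrder3 3 2 1 0) (.fand (fSeparated3 3 2 1 0) (fBounded3 3 2 1 0))))))))))))

theorem sat_fPrinciple : Sat E fPrinciple v ↔ Principle E := by
  simp only [fPrinciple, Principle, sat_ex, sat_and, sat_fOmega, sat_fNoSurj, sat_mem,
    sat_fNonPrin, sat_fDirected3, sat_fUltra3, sat_fOrder3, sat_fSeparated3, sat_fBounded3,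
    cons_zero, cons_succ, cons_one, cons_two, cons_three]

/-- Transfer to a countable elementary substructure. -/
theorem exists_countable (k : M) (hZ : IsZFC M E) (hC : Principle E) :
    ∃ (N : Type) (F : N → N → Prop), Countable N ∧ IsZFC N F ∧ Principle F := by
  obtain ⟨N, F, k', j, hc, -, hj⟩ := exists_countable_elementary E k
  have hj' : Elem F E j := hj
  refine ⟨N, F, hc, hj'.isZFC k' hZ, ?_⟩
  rw [← sat_fPrinciple (v := fun _ => k'), hj', sat_fPrinciple]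
  exact hC

end Pool.Agent.Lib.MP_a6d962_lc.Cs
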