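import Pool.Agent.Lib.MP_a6d962_lc.Cs.Comb

/-!
# Splitting countably many infinite sets

PROOF.  If `S` is empty take `R = ∅`.  Otherwise let `A : ℕ → Set ℕ` enumerate `S`
(`Set.Countable.exists_eq_range`).  Let `g : ℕ → ℕ` be such that every value is taken infinitely
often, e.g. `g k = (Nat.unpair k).1`.  Choose a strictly increasing sequence `x k` with
`x (2 * k), x (2 * k + 1) ∈ A (g k)` (possible because the sets are infinite:
`Set.Infinite.exists_gt`).  Put `R = {x (2 * k) : k}`.  Then `A n ∩ R` contains all `x (2 * k)` with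
`g k = n` and `A n \ R` contains all `x (2 * k + 1)` with `g k = n`, infinitely many because `x` is
injective.
-/

namespace Pool.Agent.Lib.MP_a6d962_lc.Cs

theorem exists_split (S : Set (Set ℕ)) (hS : S.Countable) (hinf : ∀ A ∈ S, A.Infinite) :
    ∃ R : Set ℕ, ∀ A ∈ S, (A ∩ R).Infinite ∧ (A \ R).Infinite := by
  rcases S.eq_empty_or_nonempty with rfl | hne
  · exact ⟨∅, fun A hA => absurd hA (Set.notMem_empty A)⟩
  obtain ⟨A, rfl⟩ := hS.exists_eq_range hne
  have hinf' : ∀ n, (A n).Infinite := fun n => hinf (A n) (Set.mem_range_self n)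
  have hex : ∀ k m : ℕ, ∃ y ∈ A (Nat.unpair (k / 2)).1, m < y := fun k m =>
    (hinf' _).exists_gt m
  choose F hF1 hF2 using hex
  obtain ⟨x, hx0, hxs⟩ : ∃ x : ℕ → ℕ, x 0 = F 0 0 ∧ ∀ k, x (k + 1) = F (k + 1) (x k) :=
    ⟨fun k => Nat.rec (F 0 0) (fun k y => F (k + 1) y) k, rfl, fun k => rfl⟩
  have hxm : ∀ k, x k ∈ A (Nat.unpair (k / 2)).1 := by
    intro k
    cases k with
    | zero =>
      rw [hx0]
      exact hF1 0 0
    | succ k =>
      rw [hxs]
      exact hF1 (k + 1) (x k)
  have hxmono : StrictMono x := strictMono_nat_of_lt_succ fun k => by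
    rw [hxs]
    exact hF2 (k + 1) (x k)
  refine ⟨Set.range fun k => x (2 * k), ?_⟩
  rintro _ ⟨n, rfl⟩
  constructor
  · refine Set.infinite_of_injective_forall_mem (f := fun j => x (2 * Nat.pair n j)) ?_ ?_
    · intro i j hij
      have h0 : x (2 * Nat.pair n i) = x (2 * Nat.pair n j) := hij
      have h1 := hxmono.injective h0
      have h2 : Nat.pair n i = Nat.pair n j := by omega
      exact (Nat.pair_eq_pair.1 h2).2
    · intro j
      have h1 := hxm (2 * Nat.pair n j)
      have h2 : 2 * Nat.pair n j / 2 = Nat.pair n j := by omega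
      rw [h2, Nat.unpair_pair] at h1
      exact ⟨h1, Nat.pair n j, rfl⟩
  · refine Set.infinite_of_injective_forall_mem (f := fun j => x (2 * Nat.pair n j + 1)) ?_ ?_
    · intro i j hij
      have h0 : x (2 * Nat.pair n i + 1) = x (2 * Nat.pair n j + 1) := hij
      have h1 := hxmono.injective h0
      have h2 : Nat.pair n i = Nat.pair n j := by omega
      exact (Nat.pair_eq_pair.1 h2).2
    · intro j
      have h1 := hxm (2 * Nat.pair n j + 1)
      have h2 : (2 * Nat.pair n j + 1) / 2 = Nat.pair n j := by omega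
      rw [h2, Nat.unpair_pair] at h1
      refine ⟨h1, ?_⟩
      rintro ⟨k, hk⟩
      have h0 : x (2 * k) = x (2 * Nat.pair n j + 1) := hk
      have h3 := hxmono.injective h0
      omega

end Pool.Agent.Lib.MP_a6d962_lc.Cs
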