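import Pool.Agent.Lib.MP_a6d962_lc.Cs.PDefs
import Pool.Agent.Lib.MP_a6d962_lc.Cs.Mat
import Pool.Agent.Lib.MP_40b13d_lc.ZfSide

/-!
# The principle in the universe of sets of Mathlib

PROOF.  `Pool/Agent/Lib/MP_40b13d_lc/ZfSide.lean` contains everything needed about `Ein` (`x ∈ y` in `ZFSet.{0}`): `nat`, `om`,
`mem_om`, `isOmega_om`, `isOPair_iff`, `isApp_iff`, `exists_fun`, `isFun_graph`, `app_graph`, `hasInj_iff`, `hasSurj_iff`,
`powEquiv`, `natEquiv` (namespace `Pool.Agent.Lib.MP_40b13d_lc.ZfSide`).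
Let `o, l, w, r` be given by `h`.  `o = om` (two sets satisfying `IsOmega` contain each other; extensionality).
Take `L = {x // x ∈ l}`, `W = {x // x ∈ w}`, `B i d = {n : ℕ | Mem3 Ein r i d (nat n)}` and check the
fields.  `nosurj`: a surjection `Set ℕ → L` gives one from `{x // x ∈ om.powerset}` (via `powEquiv` and `natEquiv`), so
`HasSurj Ein om.powerset l` by `hasSurj_iff`.  `unc`: for `s : Set W` not countable take the set
`S = w.sep (fun x => ∃ hx : x ∈ w, ⟨x, hx⟩ ∈ s)`; `HasInj Ein S om` would give (`hasInj_iff`) an injection of `s` into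
`{x // x ∈ om}`, so `s` would be countable.
-/

namespace Pool.Agent.Lib.MP_a6d962_lc.Cs

open Pool.Agent.Lib.Forcing Pool.Agent.Lib.MP_40b13d_lc

private theorem Zf_sub {r i d e : ZFSet.{0}} : Le3 Ein ZfSide.om r i d e ↔
    {n : ℕ | Mem3 Ein r i d (ZfSide.nat n)} ⊆ {n : ℕ | Mem3 Ein r i e (ZfSide.nat n)} := by
  constructor
  · intro h n hn
    exact h (ZfSide.nat n) (ZfSide.nat_mem_om n) hn
  · intro h x hx hx2
    obtain ⟨n, rfl⟩ := ZfSide.mem_om.1 hx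
    exact h hx2

theorem mat_of_Ein (h : Principle Ein) :
    ∃ (L W : Type 1) (B : L → W → Set ℕ), Mat L W B := by
  obtain ⟨o, ho, l, w, r, h1, h2, h3, h4, h5, h6, h7, h8⟩ := h
  have hoo : o = ZfSide.om := by
    ext z
    exact ⟨fun hz => ho.2 ZfSide.om ZfSide.isOmega_om.1 z hz, fun hz => ZfSide.isOmega_om.2 o ho.1 z hz⟩
  subst hoo
  refine ⟨{x // x ∈ l}, {x // x ∈ w}, fun i d => {n : ℕ | Mem3 Ein r i.1 d.1 (ZfSide.nat n)}, ?_⟩
  refine ⟨?_, ?_, ?_, ?_, ?_, ?_, ?_, ?_⟩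
  · -- nosurj
    rintro ⟨f, hf⟩
    have hp : IsPower Ein ZfSide.om.powerset ZfSide.om := by
      intro a
      change a ∈ ZfSide.om.powerset ↔ _
      rw [ZFSet.mem_powerset]
      rfl
    apply h1 ZfSide.om.powerset hp
    rw [ZfSide.hasSurj_iff]
    refine ⟨fun x => f ((Equiv.Set.congr ZfSide.natEquiv.symm) ((ZfSide.powEquiv hp).symm x)), ?_⟩
    exact hf.comp ((Equiv.Set.congr ZfSide.natEquiv.symm).surjective.comp
      (ZfSide.powEquiv hp).symm.surjective)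
  · obtain ⟨i, hi⟩ := h2
    exact ⟨⟨i, hi⟩⟩
  · intro i d n
    obtain ⟨m, hm, hmn, hmem⟩ := h3 i.1 i.2 d.1 d.2 (ZfSide.nat n) (ZfSide.nat_mem_om n)
    obtain ⟨k, rfl⟩ := ZfSide.mem_om.1 hm
    refine ⟨k, ?_, hmem⟩
    rintro rfl
    exact hmn rfl
  · intro i d e
    obtain ⟨g, hg, hg1, hg2⟩ := h4 i.1 i.2 d.1 d.2 e.1 e.2
    exact ⟨⟨g, hg⟩, Zf_sub.1 hg1, Zf_sub.1 hg2⟩
  · intro i z
    have hsub : IsSub Ein (ZfSide.om.sep (fun x => ∃ n ∈ z, ZfSide.nat n = x)) ZfSide.om :=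
      fun x hx => (ZFSet.mem_sep.1 hx).1
    obtain ⟨d, hd, hdd⟩ := h5 i.1 i.2 _ hsub
    refine ⟨⟨d, hd⟩, ?_⟩
    have key : ∀ n : ℕ, ZfSide.nat n ∈ ZfSide.om.sep (fun x => ∃ n ∈ z, ZfSide.nat n = x) ↔ n ∈ z := by
      intro n
      rw [ZFSet.mem_sep]
      constructor
      · rintro ⟨_, m, hm, hmn⟩
        rw [← ZfSide.nat_inj hmn]
        exact hm
      · intro hn
        exact ⟨ZfSide.nat_mem_om n, n, hn, rfl⟩
    rcases hdd with hdd | hdd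
    · left
      intro n hn
      exact (key n).1 (hdd (ZfSide.nat n) (ZfSide.nat_mem_om n) hn)
    · right
      intro n hn hnz
      exact hdd (ZfSide.nat n) (ZfSide.nat_mem_om n) hn ((key n).2 hnz)
  · intro i j d e hde
    exact Zf_sub.1 (h6 i.1 i.2 j.1 j.2 d.1 d.2 e.1 e.2 (Zf_sub.2 hde))
  · intro i j hij
    obtain ⟨d, hd, hdd⟩ := h7 i.1 i.2 j.1 j.2 (fun h => hij (Subtype.ext h))
    exact ⟨⟨d, hd⟩, fun n hn hn2 => hdd (ZfSide.nat n) (ZfSide.nat_mem_om n) hn hn2⟩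
  · intro s hs
    have hsub : IsSub Ein (w.sep (fun x => ∃ hx : x ∈ w, (⟨x, hx⟩ : {x // x ∈ w}) ∈ s)) w :=
      fun x hx => (ZFSet.mem_sep.1 hx).1
    have hninj : ¬ HasInj Ein (w.sep (fun x => ∃ hx : x ∈ w, (⟨x, hx⟩ : {x // x ∈ w}) ∈ s))
        ZfSide.om := by
      intro hinj
      obtain ⟨g, hg⟩ := ZfSide.hasInj_iff.1 hinj
      apply hs
      rw [Set.countable_iff_exists_injective]
      refine ⟨fun y => ZfSide.natEquiv.symm (g ⟨y.1.1, ZFSet.mem_sep.2 ⟨y.1.2, y.1.2, y.2⟩⟩), ?_⟩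
      intro y y' hyy
      have e1 := hg (ZfSide.natEquiv.symm.injective hyy)
      have e2 : y.1.1 = y'.1.1 := by
        have e3 := congrArg Subtype.val e1
        exact e3
      exact Subtype.ext (Subtype.ext e2)
    obtain ⟨h, hfun, hinj, g, hg, hgg⟩ := h8 _ hsub hninj
    obtain ⟨gf, hgf⟩ := ZfSide.exists_fun hfun
    have happ : ∀ n : ℕ, IsApp Ein h (ZfSide.nat n) (gf ⟨ZfSide.nat n, ZfSide.nat_mem_om n⟩).1 :=
      fun n => (hgf ⟨ZfSide.nat n, ZfSide.nat_mem_om n⟩ _).2 rfl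
    refine ⟨fun n => ⟨(gf ⟨ZfSide.nat n, ZfSide.nat_mem_om n⟩).1,
      hsub _ (gf ⟨ZfSide.nat n, ZfSide.nat_mem_om n⟩).2⟩, ?_, ?_, ⟨g, hg⟩, ?_⟩
    · intro n m hnm
      have e1 : (gf ⟨ZfSide.nat n, ZfSide.nat_mem_om n⟩).1 = (gf ⟨ZfSide.nat m, ZfSide.nat_mem_om m⟩).1 := by
        have e3 := congrArg Subtype.val hnm
        exact e3
      have e2 := happ n
      rw [e1] at e2
      exact ZfSide.nat_inj (hinj _ _ _ e2 (happ m))
    · intro n
      obtain ⟨_, hx, hxs⟩ := ZFSet.mem_sep.1 (gf ⟨ZfSide.nat n, ZfSide.nat_mem_om n⟩).2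
      exact hxs
    · intro n i
      exact Zf_sub.1 (hgg _ _ (happ n) i.1 i.2)

end Pool.Agent.Lib.MP_a6d962_lc.Cs
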